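import Pool.Agent.H668.Fol.Maj

/-!
# Foliated functions: annuli around a critical point
-/

set_option autoImplicit false

open MeasureTheory Set Filter Topology ENNReal NNReal Metric

namespace Pool.Agent.H668.Fol

open Pool.Agent.W770.SA Pool.Agent.R251.Lam

variable {d : ℕ} {F : EuclideanSpace ℝ (Fin (d + 1)) → ℝ} {k : ℕ}
  {U : Set (EuclideanSpace ℝ (Fin (d + 1)))}

theorem meas_indU (hc : ContinuousOn F U) {B : Set (EuclideanSpace ℝ (Fin (d + 1)))}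
    (hB : B ⊆ U) (hBm : MeasurableSet B) {g : ℝ → ℝ} (hg : Measurable g) :
    Measurable (B.indicator fun x => g (F x)) := by
  classical
  have h1 : Measurable (B.piecewise F (fun _ => 0)) :=
    (hc.mono hB).measurable_piecewise continuousOn_const hBm
  have h2 : (B.indicator fun x => g (F x)) =
      B.indicator fun x => g (B.piecewise F (fun _ => 0) x) := by
    ext x
    by_cases hx : x ∈ B
    · rw [indicator_of_mem hx, indicator_of_mem hx, piecewise_eq_of_mem _ _ _ hx]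
    · rw [indicator_of_notMem hx, indicator_of_notMem hx]
  rw [h2]
  exact (hg.comp h1).indicator hBm

/-- the estimate on an annulus, uniformly in the radius -/
theorem annulus (hU : IsOpen U) (hk : 1 ≤ k)
    (hF : ContDiffOn ℝ ((k + 1 : ℕ) : ℕ∞) F U) {z₀ : EuclideanSpace ℝ (Fin (d + 1))}
    (hz : z₀ ∈ U) (hcrit : fderiv ℝ F z₀ = 0) {c : ℝ} (hc : 0 < c)
    (hnd : ∀ᶠ y in 𝓝 z₀, c * ‖y - z₀‖ ≤ ‖fderiv ℝ F y‖) (ε : ℝ) (hε : 0 < ε) :
    ∃ ρ₀ C : ℝ, 0 < ρ₀ ∧ ρ₀ ≤ 1 ∧ ball z₀ (2 * ρ₀) ⊆ U ∧ 0 < C ∧ ∀ ρ : ℝ, 0 < ρ → ρ ≤ ρ₀ →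
      ∀ B : Set (EuclideanSpace ℝ (Fin (d + 1))), (∀ x ∈ B, ρ / 2 ≤ ‖x - z₀‖ ∧ ‖x - z₀‖ ≤ ρ) →
      MeasurableSet B → ∀ g : ℝ → ℝ, Measurable g → ∀ δ : ℝ, 0 < δ → δ < ρ →
      Maj δ (B.indicator fun x => g (F x))
        (ENNReal.ofReal (C * (δ / ρ) ^ (-((d:ℝ) / (k + 1) + ε))) *
          ∫⁻ x in U, ‖g (F x)‖ₑ ^ (d + 1)) := by
  classical
  have hcont : ContinuousOn F U := hF.continuousOn
  obtain ⟨ρ₀, R, A, L, m, hρ₀, hρ₀1, hρ₀U, hR, hR8, hA, hL, hm, hch⟩ :=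
    crit_charts hU hk hF hz hcrit hc hnd
  obtain ⟨ρ₁, C₁, hρ₁, hC₁, hnear⟩ := near_unif d k hR (by linarith) hm hA hL ε hε
  obtain ⟨C₂, hC₂, hscale⟩ := Maj.scale d
  set 𝒜 : Set (EuclideanSpace ℝ (Fin (d + 1))) := {y | 1 / 2 ≤ ‖y‖ ∧ ‖y‖ ≤ 1} with h𝒜
  have h𝒜c : IsCompact 𝒜 := by
    have h1 : 𝒜 = closedBall 0 1 ∩ {y | 1 / 2 ≤ ‖y‖} := by
      ext y
      simp [h𝒜, and_comm]
    rw [h1]
    exact (isCompact_closedBall _ _).inter_right (isClosed_le continuous_const continuous_norm)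
  obtain ⟨t, ht𝒜, hcov⟩ := h𝒜c.elim_nhds_subcover (fun x => ball x ρ₁)
    (fun x _ => ball_mem_nhds x hρ₁)
  refine ⟨ρ₀, C₂ ^ (d + 1) * ((t.card : ℝ) ^ (d + 1) * (t.card * C₁)) + 1, hρ₀, hρ₀1, hρ₀U,
    by positivity, ?_⟩
  intro ρ hρ hρρ₀ B hB hBm g hg δ hδ hδρ
  have hρ1 : ρ ≤ 1 := hρρ₀.trans hρ₀1
  have hBU : B ⊆ U := by
    intro x hx
    apply hρ₀U
    rw [mem_ball, dist_eq_norm]
    linarith [(hB x hx).2]
  set α : ℝ := (d:ℝ) / (k + 1) + ε with hα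
  set I : ℝ≥0∞ := ∫⁻ x in U, ‖g (F x)‖ₑ ^ (d + 1) with hI
  set f : EuclideanSpace ℝ (Fin (d + 1)) → ℝ := B.indicator fun x => g (F x) with hf
  have hfm : Measurable f := meas_indU hcont hBU hBm hg
  set F₁ : EuclideanSpace ℝ (Fin (d + 1)) → ℝ := fun y => (ρ⁻¹ ^ 2) * F (z₀ + ρ • y) with hF₁
  set g₁ : ℝ → ℝ := fun s => g (ρ ^ 2 * s) with hg₁
  have hg₁m : Measurable g₁ := hg.comp (measurable_const_mul _)
  have hgF : ∀ w, g₁ (F₁ w) = g (F (z₀ + ρ • w)) := by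
    intro w
    show g (ρ ^ 2 * ((ρ⁻¹ ^ 2) * F (z₀ + ρ • w))) = _
    congr 1
    field_simp
  set B₁ : Set (EuclideanSpace ℝ (Fin (d + 1))) := (fun w => z₀ + ρ • w) ⁻¹' B with hB₁
  have hB₁m : MeasurableSet B₁ := hBm.preimage (by fun_prop)
  have hB₁𝒜 : ∀ w ∈ B₁, w ∈ 𝒜 := by
    intro w hw
    have h1 := hB _ hw
    rw [add_sub_cancel_left, norm_smul, Real.norm_of_nonneg hρ.le] at h1
    constructor
    · by_contra hcon
      push Not at hcon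
      nlinarith [h1.1]
    · by_contra hcon
      push Not at hcon
      nlinarith [h1.2]
  have hδρ1 : δ / ρ < 1 := by rw [div_lt_one hρ]; exact hδρ
  have hδρ0 : 0 < δ / ρ := by positivity
  -- the integral after rescaling
  have hHm : Measurable (U.indicator fun x => ‖g (F x)‖ₑ ^ (d + 1)) := by
    have h1 : (U.indicator fun x => ‖g (F x)‖ₑ ^ (d + 1)) =
        fun x => ‖(U.indicator fun x => g (F x)) x‖ₑ ^ (d + 1) := by
      ext x
      by_cases hx : x ∈ U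
      · rw [indicator_of_mem hx, indicator_of_mem hx]
      · rw [indicator_of_notMem hx, indicator_of_notMem hx, enorm_zero, zero_pow (by omega)]
    rw [h1]
    exact (meas_indU hcont subset_rfl hU.measurableSet hg).enorm.pow_const _
  have hIs : I = ENNReal.ofReal (ρ ^ (d + 1)) *
      ∫⁻ w, (U.indicator fun x => ‖g (F x)‖ₑ ^ (d + 1)) (z₀ + ρ • w) := by
    rw [← lint_scale hρ z₀ hHm, lintegral_indicator hU.measurableSet]
  have hpiece : ∀ y ∈ t, Measurable ((B₁ ∩ ball y ρ₁).indicator fun w => g₁ (F₁ w)) ∧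
      Maj (δ / ρ) ((B₁ ∩ ball y ρ₁).indicator fun w => g₁ (F₁ w))
        (ENNReal.ofReal (C₁ * (δ / ρ) ^ (-α)) * (ENNReal.ofReal ((ρ ^ (d + 1))⁻¹) * I)) := by
    intro y hy
    have hyA := ht𝒜 y hy
    have hn : ‖z₀ + ρ • y - z₀‖ = ρ * ‖y‖ := by
      rw [add_sub_cancel_left, norm_smul, Real.norm_of_nonneg hρ.le]
    obtain ⟨i, hchart⟩ := hch ρ hρ hρρ₀ (z₀ + ρ • y)
      (by rw [hn]; nlinarith [hyA.1]) (by rw [hn]; nlinarith [hyA.2])
    have hcen : ρ⁻¹ • (z₀ + ρ • y - z₀) = y := by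
      rw [add_sub_cancel_left, smul_smul, inv_mul_cancel₀ hρ.ne', one_smul]
    rw [hcen] at hchart
    obtain ⟨h1, h2⟩ := hnear F₁ y i hchart (B₁ ∩ ball y ρ₁) inter_subset_right
      (hB₁m.inter measurableSet_ball) g₁ hg₁m
    refine ⟨h1, Maj.mono (h2 (δ / ρ) hδρ0 hδρ1) ?_⟩
    gcongr
    have h3 : ∫⁻ w in ball y (2 * R), ‖g₁ (F₁ w)‖ₑ ^ (d + 1) ≤
        ∫⁻ w, (U.indicator fun x => ‖g (F x)‖ₑ ^ (d + 1)) (z₀ + ρ • w) := by
      rw [← lintegral_indicator measurableSet_ball]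
      apply lintegral_mono
      intro w
      by_cases hw : w ∈ ball y (2 * R)
      · rw [indicator_of_mem hw]
        have h4 : z₀ + ρ • w ∈ U := by
          apply hρ₀U
          rw [mem_ball, dist_eq_norm] at hw ⊢
          rw [add_sub_cancel_left, norm_smul, Real.norm_of_nonneg hρ.le]
          have h5 : ‖w‖ ≤ ‖w - y‖ + ‖y‖ := by
            have := norm_add_le (w - y) y
            rwa [sub_add_cancel] at this
          have h6 : ‖w‖ < 2 := by linarith [hyA.2]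
          nlinarith [norm_nonneg w]
        show ‖g₁ (F₁ w)‖ₑ ^ (d + 1) ≤ (U.indicator fun x => ‖g (F x)‖ₑ ^ (d + 1)) (z₀ + ρ • w)
        rw [indicator_of_mem h4, hgF]
      · rw [indicator_of_notMem hw]; exact zero_le
    refine h3.trans (le_of_eq ?_)
    rw [hIs, ← mul_assoc, ← ENNReal.ofReal_mul (by positivity), inv_mul_cancel₀ (by positivity),
      ENNReal.ofReal_one, one_mul]
  have hf₁ : Maj (δ / ρ) (fun w => f (z₀ + ρ • w)) ((t.card : ℝ≥0∞) ^ (d + 1) *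
      ∑ _y ∈ t, (ENNReal.ofReal (C₁ * (δ / ρ) ^ (-α)) *
        (ENNReal.ofReal ((ρ ^ (d + 1))⁻¹) * I))) := by
    refine Maj.sum t (fun y => (B₁ ∩ ball y ρ₁).indicator fun w => g₁ (F₁ w))
      (fun y hy => (hpiece y hy).1) ?_ _ (fun y hy => (hpiece y hy).2)
    intro w
    by_cases hw : w ∈ B₁
    · obtain ⟨y, hy, hwy⟩ := mem_iUnion₂.1 (hcov (hB₁𝒜 w hw))
      have h1 : ‖f (z₀ + ρ • w)‖ₑ =
          ‖(B₁ ∩ ball y ρ₁).indicator (fun w => g₁ (F₁ w)) w‖ₑ := by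
        rw [hf, indicator_of_mem (show z₀ + ρ • w ∈ B from hw),
          indicator_of_mem (show w ∈ B₁ ∩ ball y ρ₁ from ⟨hw, hwy⟩), hgF]
      show ‖f (z₀ + ρ • w)‖ₑ ≤ _
      rw [h1]
      exact Finset.single_le_sum
        (f := fun y => ‖(B₁ ∩ ball y ρ₁).indicator (fun w => g₁ (F₁ w)) w‖ₑ)
        (fun _ _ => zero_le) hy
    · show ‖f (z₀ + ρ • w)‖ₑ ≤ _
      rw [hf, indicator_of_notMem (show z₀ + ρ • w ∉ B from hw), enorm_zero]
      exact zero_le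
  have hsupp : ∀ y, f y ≠ 0 → ‖y - z₀‖ ≤ ρ := by
    intro y hy
    have : y ∈ B := by
      by_contra hcon
      exact hy (indicator_of_notMem hcon _)
    exact (hB y this).2
  refine Maj.mono (hscale δ ρ hδ hρ z₀ f hfm hsupp _ hf₁) ?_
  have hX : 0 < (δ / ρ) ^ (-α) := by positivity
  calc ENNReal.ofReal ((C₂ * ρ) ^ (d + 1)) * ((t.card : ℝ≥0∞) ^ (d + 1) *
      ∑ _y ∈ t, (ENNReal.ofReal (C₁ * (δ / ρ) ^ (-α)) *
        (ENNReal.ofReal ((ρ ^ (d + 1))⁻¹) * I)))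
      = ENNReal.ofReal ((C₂ * ρ) ^ (d + 1) * ((t.card : ℝ) ^ (d + 1) *
        (t.card * (C₁ * (δ / ρ) ^ (-α) * (ρ ^ (d + 1))⁻¹)))) * I := by
        rw [Finset.sum_const, nsmul_eq_mul,
          ENNReal.ofReal_mul (p := (C₂ * ρ) ^ (d + 1)) (by positivity),
          ENNReal.ofReal_mul (p := (t.card : ℝ) ^ (d + 1)) (by positivity),
          ENNReal.ofReal_mul (p := (t.card : ℝ)) (by positivity),
          ENNReal.ofReal_mul (p := C₁ * (δ / ρ) ^ (-α)) (by positivity),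
          ENNReal.ofReal_pow (p := (t.card : ℝ)) (by positivity), ENNReal.ofReal_natCast]
        ring
    _ = ENNReal.ofReal (C₂ ^ (d + 1) * ((t.card : ℝ) ^ (d + 1) * (t.card * C₁)) *
        (δ / ρ) ^ (-α)) * I := by
        congr 2
        rw [mul_pow]
        field_simp
    _ ≤ ENNReal.ofReal ((C₂ ^ (d + 1) * ((t.card : ℝ) ^ (d + 1) * (t.card * C₁)) + 1) *
        (δ / ρ) ^ (-α)) * I := by
        refine mul_le_mul_left (ENNReal.ofReal_le_ofReal ?_) _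
        nlinarith

end Pool.Agent.H668.Fol
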