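import Pool.Agent.H668.Fol.Lower

/-!
# Foliated functions: the global estimate
-/

set_option autoImplicit false

open MeasureTheory Set Filter Topology ENNReal NNReal Metric

namespace Pool.Agent.H668.Fol

open Pool.Agent.W770.SA Pool.Agent.R251.Lam

variable {d : ℕ} {F : EuclideanSpace ℝ (Fin (d + 1)) → ℝ} {k : ℕ}
  {U : Set (EuclideanSpace ℝ (Fin (d + 1)))}

/-- the estimate near one point -/
theorem near (hU : IsOpen U) (hF : ContDiffOn ℝ ((k + 1 : ℕ) : ℕ∞) F U)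
    {x : EuclideanSpace ℝ (Fin (d + 1))} (hx : x ∈ U) (hgrad : fderiv ℝ F x ≠ 0) (ε : ℝ)
    (hε : 0 < ε) :
    ∃ ρ C : ℝ, 0 < ρ ∧ 0 < C ∧ ∀ B : Set (EuclideanSpace ℝ (Fin (d + 1))),
      B ⊆ ball x ρ → MeasurableSet B → ∀ g : ℝ → ℝ, Measurable g →
      Measurable (B.indicator fun x => g (F x)) ∧ ∀ δ : ℝ, 0 < δ → δ < 1 →
      ∃ Ψ : sphere (0 : EuclideanSpace ℝ (Fin (d + 1))) 1 → ℝ≥0∞, Measurable Ψ ∧
        (∀ e : sphere (0 : EuclideanSpace ℝ (Fin (d + 1))) 1,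
        kakeyaMax δ (B.indicator fun x => g (F x)) (e : EuclideanSpace ℝ (Fin (d + 1))) ^ (d + 1)
          ≤ Ψ e) ∧
        ∫⁻ e, Ψ e ∂(sig (d + 1)) ≤
        ENNReal.ofReal (C * δ ^ (-((d:ℝ) / (k + 1) + ε))) *
          ∫⁻ x in U, ‖g (F x)‖ₑ ^ (d + 1) := by
  obtain ⟨R₀, A, L, m, i, h₀⟩ := exists_chart hU hF hx hgrad
  obtain ⟨η, hη, hηU⟩ := Metric.isOpen_iff.1 hU x hx
  set R : ℝ := min R₀ (η / 2) with hR
  have hR0 : 0 < R := lt_min h₀.R0 (by positivity)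
  have h : Chart F k x R A L m i := shrink h₀ hR0 (min_le_left _ _)
  have hRU : ball x (2 * R) ⊆ U := by
    refine subset_trans (ball_subset_ball ?_) hηU
    have : R ≤ η / 2 := min_le_right _ _
    linarith
  obtain ⟨ρ, C', hρ, hρR, hC', hval, hlow⟩ := lower h
  obtain ⟨C, hC, hloc⟩ := local_bound h ε hε
  refine ⟨ρ, C * C', hρ, by positivity, ?_⟩
  intro B hB hBm g hg
  have hBR : B ⊆ ball x R := hB.trans (ball_subset_ball hρR)
  refine ⟨meas_ind h hBR hBm hg, ?_⟩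
  intro δ hδ hδ1
  set W : Set ℝ := Icc (F x - m * R / 2) (F x + m * R / 2) with hW
  have hWm : MeasurableSet W := measurableSet_Icc
  have heq : (B.indicator fun y => g (F y)) = B.indicator fun y => W.indicator g (F y) := by
    ext y
    by_cases hy : y ∈ B
    · rw [indicator_of_mem hy, indicator_of_mem hy, indicator_of_mem]
      have h1 := abs_le.1 (hval y (hB hy))
      exact ⟨by linarith [h1.1], by linarith [h1.2]⟩
    · rw [indicator_of_notMem hy, indicator_of_notMem hy]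
  obtain ⟨Ψ, hΨ1, hΨ2, hΨ3⟩ := hloc δ hδ hδ1 B hBR hBm (W.indicator g) (hg.indicator hWm)
  refine ⟨Ψ, hΨ1, fun e => ?_, hΨ3.trans ?_⟩
  · rw [heq]; exact hΨ2 e
  · have h1 : ∫⁻ s, ‖W.indicator g s‖ₑ ^ (d + 1) = ∫⁻ s in W, ‖g s‖ₑ ^ (d + 1) := by
      rw [← lintegral_indicator hWm]
      apply lintegral_congr
      intro s
      by_cases hs : s ∈ W
      · rw [indicator_of_mem hs, indicator_of_mem hs]
      · rw [indicator_of_notMem hs, indicator_of_notMem hs, enorm_zero, zero_pow (by omega)]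
    rw [h1]
    have h2 := hlow (fun s => ‖g s‖ₑ ^ (d + 1)) (hg.enorm.pow_const _)
    calc ENNReal.ofReal (C * δ ^ (-((d:ℝ) / (k + 1) + ε))) * ∫⁻ s in W, ‖g s‖ₑ ^ (d + 1)
        ≤ ENNReal.ofReal (C * δ ^ (-((d:ℝ) / (k + 1) + ε))) * (ENNReal.ofReal C' *
          ∫⁻ y in U, ‖g (F y)‖ₑ ^ (d + 1)) := by
          gcongr
          exact h2.trans (mul_le_mul_right (lintegral_mono_set hRU) _)
      _ = _ := by
          rw [← mul_assoc, ← ENNReal.ofReal_mul (by positivity)]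
          congr 2
          ring

theorem pow_sum_le {ι : Type*} (t : Finset ι) (a : ι → ℝ≥0∞) {n : ℕ} (hn : n ≠ 0) :
    (∑ x ∈ t, a x) ^ n ≤ (t.card : ℝ≥0∞) ^ n * ∑ x ∈ t, a x ^ n := by
  set S : ℝ≥0∞ := ∑ x ∈ t, a x ^ n with hS
  have h1 : ∀ x ∈ t, a x ≤ S ^ ((n : ℝ)⁻¹) := by
    intro x hx
    rw [← ENNReal.pow_le_pow_left_iff hn, ENNReal.rpow_inv_natCast_pow hn]
    exact Finset.single_le_sum (f := fun x => a x ^ n) (fun _ _ => zero_le) hx
  calc (∑ x ∈ t, a x) ^ n ≤ (∑ _x ∈ t, S ^ ((n : ℝ)⁻¹)) ^ n :=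
        pow_le_pow_left' (Finset.sum_le_sum h1) _
    _ = (t.card : ℝ≥0∞) ^ n * S := by
        rw [Finset.sum_const, nsmul_eq_mul, mul_pow, ENNReal.rpow_inv_natCast_pow hn]

theorem global (hU : IsOpen U) (hF : ContDiffOn ℝ ((k + 1 : ℕ) : ℕ∞) F U)
    (hgrad : ∀ x ∈ U, fderiv ℝ F x ≠ 0) {K : Set (EuclideanSpace ℝ (Fin (d + 1)))}
    (hK : IsCompact K) (hKU : K ⊆ U) (ε : ℝ) (hε : 0 < ε) :
    ∃ C : ℝ, 0 < C ∧ ∀ (δ : ℝ) (g : ℝ → ℝ), 0 < δ → δ < 1 → Measurable g →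
      ∫⁻ e : sphere (0 : EuclideanSpace ℝ (Fin (d + 1))) 1,
        kakeyaMax δ (K.indicator fun x => g (F x)) (e : EuclideanSpace ℝ (Fin (d + 1))) ^ (d + 1)
          ∂(sig (d + 1)) ≤
        ENNReal.ofReal (C * δ ^ (-((d:ℝ) / (k + 1) + ε))) *
          ∫⁻ x in U, ‖g (F x)‖ₑ ^ (d + 1) := by
  classical
  choose! ρ C hρ hC hnear using fun (x : EuclideanSpace ℝ (Fin (d + 1))) (hx : x ∈ K) =>
    near hU hF (hKU hx) (hgrad x (hKU hx)) ε hε
  obtain ⟨t, htK, hcov⟩ := hK.elim_nhds_subcover (fun x => ball x (ρ x))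
    (fun x hx => ball_mem_nhds x (hρ x hx))
  have hCs : 0 ≤ ∑ x ∈ t, C x := Finset.sum_nonneg fun x hx => (hC x (htK x hx)).le
  refine ⟨(t.card : ℝ) ^ (d + 1) * (∑ x ∈ t, C x) + 1, by positivity, ?_⟩
  intro δ g hδ hδ1 hg
  set B : EuclideanSpace ℝ (Fin (d + 1)) → Set (EuclideanSpace ℝ (Fin (d + 1))) :=
    fun x => K ∩ ball x (ρ x) with hB
  have hBm : ∀ x, MeasurableSet (B x) := fun x => hK.measurableSet.inter measurableSet_ball
  have hBb : ∀ x, B x ⊆ ball x (ρ x) := fun x => inter_subset_right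
  have hmeas : ∀ x ∈ t, Measurable ((B x).indicator fun y => g (F y)) := fun x hx =>
    (hnear x (htK x hx) (B x) (hBb x) (hBm x) g hg).1
  choose! Ψ hΨ1 hΨ2 hΨ3 using fun (x : EuclideanSpace ℝ (Fin (d + 1))) (hx : x ∈ t) =>
    (hnear x (htK x hx) (B x) (hBb x) (hBm x) g hg).2 δ hδ hδ1
  set I : ℝ≥0∞ := ∫⁻ x in U, ‖g (F x)‖ₑ ^ (d + 1) with hI
  set f : EuclideanSpace ℝ (Fin (d + 1)) → ℝ := K.indicator fun x => g (F x) with hf
  have hpt : ∀ y, ‖f y‖ₑ ≤ ∑ x ∈ t, ‖(B x).indicator (fun y => g (F y)) y‖ₑ := by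
    intro y
    by_cases hy : y ∈ K
    · obtain ⟨x, hx, hyx⟩ := mem_iUnion₂.1 (hcov hy)
      have h1 : ‖f y‖ₑ = ‖(B x).indicator (fun y => g (F y)) y‖ₑ := by
        rw [hf, indicator_of_mem hy, indicator_of_mem (show y ∈ B x from ⟨hy, hyx⟩)]
      rw [h1]
      exact Finset.single_le_sum (f := fun x => ‖(B x).indicator (fun y => g (F y)) y‖ₑ)
        (fun _ _ => zero_le) hx
    · rw [hf, indicator_of_notMem hy, enorm_zero]
      exact zero_le
  have hsum : ∀ e : sphere (0 : EuclideanSpace ℝ (Fin (d + 1))) 1,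
      kakeyaMax δ f (e : EuclideanSpace ℝ (Fin (d + 1))) ≤
      ∑ x ∈ t, kakeyaMax δ ((B x).indicator fun y => g (F y))
        (e : EuclideanSpace ℝ (Fin (d + 1))) := by
    intro e
    apply iSup_le
    intro a
    set T := tube δ (e : EuclideanSpace ℝ (Fin (d + 1))) a with hT
    calc (volume T)⁻¹ * ∫⁻ y in T, ‖f y‖ₑ
        ≤ (volume T)⁻¹ * ∫⁻ y in T, ∑ x ∈ t, ‖(B x).indicator (fun y => g (F y)) y‖ₑ := by
          gcongr with y
          exact hpt y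
      _ = ∑ x ∈ t, (volume T)⁻¹ * ∫⁻ y in T, ‖(B x).indicator (fun y => g (F y)) y‖ₑ := by
          rw [lintegral_finsetSum' _ (fun x hx => (hmeas x hx).enorm.aemeasurable),
            Finset.mul_sum]
      _ ≤ _ := by
          apply Finset.sum_le_sum
          intro x _
          exact le_iSup (fun a : EuclideanSpace ℝ (Fin (d + 1)) =>
            (volume (tube δ (e : EuclideanSpace ℝ (Fin (d + 1))) a))⁻¹ *
              ∫⁻ y in tube δ (e : EuclideanSpace ℝ (Fin (d + 1))) a,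
                ‖(B x).indicator (fun y => g (F y)) y‖ₑ) a
  calc ∫⁻ e : sphere (0 : EuclideanSpace ℝ (Fin (d + 1))) 1,
        kakeyaMax δ f (e : EuclideanSpace ℝ (Fin (d + 1))) ^ (d + 1) ∂(sig (d + 1))
      ≤ ∫⁻ e : sphere (0 : EuclideanSpace ℝ (Fin (d + 1))) 1,
        (t.card : ℝ≥0∞) ^ (d + 1) * ∑ x ∈ t, Ψ x e ∂(sig (d + 1)) := by
        apply lintegral_mono
        intro e
        refine (pow_le_pow_left' (hsum e) (d + 1)).trans ?_
        refine (pow_sum_le t _ (by omega)).trans ?_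
        exact mul_le_mul_right (Finset.sum_le_sum fun x hx => hΨ2 x hx e) _
    _ = (t.card : ℝ≥0∞) ^ (d + 1) * ∑ x ∈ t, ∫⁻ e, Ψ x e ∂(sig (d + 1)) := by
        rw [lintegral_const_mul' _ _ (ENNReal.pow_ne_top (ENNReal.natCast_ne_top _)),
          lintegral_finsetSum' _ (fun x hx => (hΨ1 x hx).aemeasurable)]
    _ ≤ (t.card : ℝ≥0∞) ^ (d + 1) * ∑ x ∈ t,
        ENNReal.ofReal (C x * δ ^ (-((d:ℝ) / (k + 1) + ε))) * I := by
        gcongr with x hx
        exact hΨ3 x hx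
    _ = ENNReal.ofReal ((t.card : ℝ) ^ (d + 1) * (∑ x ∈ t, C x) *
        δ ^ (-((d:ℝ) / (k + 1) + ε))) * I := by
        rw [← Finset.sum_mul, ← ENNReal.ofReal_sum_of_nonneg (fun x hx => by
          have := hC x (htK x hx)
          positivity), ← Finset.sum_mul, ← mul_assoc, ← ENNReal.ofReal_natCast,
          ← ENNReal.ofReal_pow (by positivity), ← ENNReal.ofReal_mul (by positivity)]
        congr 2
        ring
    _ ≤ ENNReal.ofReal (((t.card : ℝ) ^ (d + 1) * (∑ x ∈ t, C x) + 1) *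
        δ ^ (-((d:ℝ) / (k + 1) + ε))) * I := by
        refine mul_le_mul_left (ENNReal.ofReal_le_ofReal ?_) _
        have : 0 < δ ^ (-((d:ℝ) / (k + 1) + ε)) := by positivity
        nlinarith

end Pool.Agent.H668.Fol
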