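import Mathlib

/-!
# Foliated functions: nondegenerate critical points
-/

set_option autoImplicit false

open MeasureTheory Set Filter Topology ENNReal NNReal Metric

namespace Pool.Agent.H668.Fol

theorem nondeg {n : ℕ} {F : EuclideanSpace ℝ (Fin n) → ℝ} {x : EuclideanSpace ℝ (Fin n)}
    (hF : DifferentiableAt ℝ (fderiv ℝ F) x) (hcrit : fderiv ℝ F x = 0)
    (hH : ∀ v : EuclideanSpace ℝ (Fin n), fderiv ℝ (fderiv ℝ F) x v = 0 → v = 0) :
    ∃ c : ℝ, 0 < c ∧ ∀ᶠ y in 𝓝 x, c * ‖y - x‖ ≤ ‖fderiv ℝ F y‖ := by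
  set A := fderiv ℝ (fderiv ℝ F) x with hA
  obtain ⟨K, hK, hanti⟩ := (A : EuclideanSpace ℝ (Fin n) →ₗ[ℝ]
    (EuclideanSpace ℝ (Fin n) →L[ℝ] ℝ)).exists_antilipschitzWith (by
      rw [LinearMap.ker_eq_bot']
      intro v hv
      exact hH v hv)
  have hK0 : (0:ℝ) < K := by exact_mod_cast hK
  have hlow : ∀ v, ‖v‖ ≤ K * ‖A v‖ := by
    intro v
    have h1 := hanti.le_mul_dist v 0
    simpa [dist_eq_norm] using h1
  have hder : HasFDerivAt (fderiv ℝ F) A x := hF.hasFDerivAt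
  have hlo := hder.isLittleO.def (show (0:ℝ) < 1 / (2 * K) by positivity)
  refine ⟨1 / (2 * K), by positivity, ?_⟩
  filter_upwards [hlo] with y hy
  rw [hcrit, sub_zero] at hy
  have h1 := hlow (y - x)
  have h2 : ‖A (y - x)‖ ≤ ‖fderiv ℝ F y‖ + ‖fderiv ℝ F y - A (y - x)‖ := by
    have h3 := norm_sub_le (fderiv ℝ F y) (fderiv ℝ F y - A (y - x))
    rwa [_root_.sub_sub_cancel] at h3
  have h3 : ‖y - x‖ / K ≤ ‖A (y - x)‖ := by
    rw [div_le_iff₀ hK0]; linarith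
  have h4 : ‖y - x‖ / K = 1 / (2 * K) * ‖y - x‖ + 1 / (2 * K) * ‖y - x‖ := by
    field_simp
    norm_num
  linarith

end Pool.Agent.H668.Fol
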