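import Pool.Agent.H668.Fol.Whole

/-!
# Foliated functions: integration over the directions
-/

set_option autoImplicit false

open MeasureTheory Set Filter Topology ENNReal NNReal Metric

namespace Pool.Agent.H668.Fol

open Pool.Agent.W770.SA Pool.Agent.R251.Lam

variable {d : ℕ} {F : EuclideanSpace ℝ (Fin (d + 1)) → ℝ} {k : ℕ}
  {z₀ : EuclideanSpace ℝ (Fin (d + 1))} {R A L m : ℝ} {i : Fin (d + 1)}

theorem int_all (h : Chart F k z₀ R A L m i) {δ r : ℝ} (hδ : 0 < δ) (hδ1 : δ ≤ 1)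
    (hr : 0 < r) (hrR : r ≤ R) (hrδ : A * (2 * r) ^ (k + 1) ≤ δ) {K K' K₂ : ℕ}
    (hK : (1 / 2 : ℝ) ^ K ≤ δ) (hK' : 4 * L + 12 < 2 ^ K' * δ) (hK₂ : (1 / 2 : ℝ) ^ K₂ ≤ r * δ)
    (s : Finset (EuclideanSpace ℝ (Fin (d + 1)))) (hs : ∀ p ∈ s, p ∈ ball z₀ (2 * R))
    (hsep : ∀ p ∈ s, ∀ q ∈ s, p ≠ q → r ≤ dist p q)
    (hcov : ∀ x ∈ ball z₀ (2 * R), ∃ p ∈ s, dist x p < r)
    {N : ℕ} (hN : 0 < N) (hNr : 1 / (N : ℝ) ≤ r) (hNr2 : (N : ℝ) * r ≤ 2)
    (G : ℝ → ℝ≥0∞) (hG : Measurable G) :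
    ∃ Ψ : sphere (0 : EuclideanSpace ℝ (Fin (d + 1))) 1 → ℝ≥0∞, Measurable Ψ ∧
      (∀ e : sphere (0 : EuclideanSpace ℝ (Fin (d + 1))) 1,
      (⨆ z : EuclideanSpace ℝ (Fin (d + 1)), ∫⁻ t in Icc (0:ℝ) 1,
        (ball z₀ (2 * R)).indicator (fun y => ∫⁻ u in Icc (-(L * δ)) (L * δ), G (F y + u))
          (z + t • (e : EuclideanSpace ℝ (Fin (d + 1))))) ^ (d + 1) ≤ Ψ e) ∧
      ∫⁻ e, Ψ e ∂(sig (d + 1)) ≤
      (6 * (N : ℝ≥0∞) ^ d * (((2 * k * (K + 1) + 1 : ℕ) : ℝ≥0∞) *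
        ENNReal.ofReal ((2 * L + 3) * δ * (4 * (2 * L + 5)))) ^ (d + 1)) *
      (K' * (Gam d k K₂ m * (2 ^ (d + 1) * ∫⁻ x, G x ^ (d + 1)))) := by
  classical
  have hL := h.L0
  have hd1 : d + 1 ≠ 0 := by omega
  set S0 : ℕ → ℝ := fun kk => sc (2 * (2 * L + 5)) δ kk with hS0
  have hS0pos : ∀ kk, 0 < S0 kk := by
    intro kk
    simp only [hS0, sc]
    positivity
  have hS0δ : ∀ kk, δ ≤ S0 kk := by
    intro kk
    simp only [hS0, sc]
    have h1 : (1:ℝ) ≤ 2 ^ kk := one_le_pow₀ (by norm_num)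
    have h2 : δ ≤ 2 ^ kk * δ := by nlinarith
    have h3 : 0 < 2 ^ kk * δ := by positivity
    nlinarith
  set a : ℕ → ℤ → ℝ≥0∞ := fun kk j => ENNReal.ofReal (1 / S0 kk) * ∫⁻ s in JJ (S0 kk) j, G s
    with ha
  set w : ℕ → ℤ → EuclideanSpace ℝ (Fin (d + 1)) → EuclideanSpace ℝ (Fin (d + 1)) → ℝ≥0∞ :=
    fun kk j p e => a kk j * segMax (pc F k p (((j : ℝ) + 1) * S0 kk) r (S0 kk)) e with hw
  set S : EuclideanSpace ℝ (Fin (d + 1)) → ℝ≥0∞ := fun e =>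
    ∑ kk ∈ Finset.range K', ∑' j : ℤ, ∑ p ∈ s, w kk j p e ^ (d + 1) with hS
  set Q : ℝ≥0∞ := 6 * (N : ℝ≥0∞) ^ d * (((2 * k * (K + 1) + 1 : ℕ) : ℝ≥0∞) *
        ENNReal.ofReal ((2 * L + 3) * δ * (4 * (2 * L + 5)))) ^ (d + 1) with hQ
  have hmain : ∀ e : sphere (0 : EuclideanSpace ℝ (Fin (d + 1))) 1,
      (⨆ z : EuclideanSpace ℝ (Fin (d + 1)), ∫⁻ t in Icc (0:ℝ) 1,
        (ball z₀ (2 * R)).indicator (fun y => ∫⁻ u in Icc (-(L * δ)) (L * δ), G (F y + u))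
          (z + t • (e : EuclideanSpace ℝ (Fin (d + 1))))) ^ (d + 1) ≤
      Q * S (e : EuclideanSpace ℝ (Fin (d + 1))) := by
    intro e
    have he : ‖(e : EuclideanSpace ℝ (Fin (d + 1)))‖ = 1 := by simp
    set V : EuclideanSpace ℝ (Fin (d + 1)) → ℝ≥0∞ := fun p =>
      ∑ kk ∈ Finset.range K', ∑' j : ℤ, w kk j p (e : EuclideanSpace ℝ (Fin (d + 1))) ^ (d + 1)
      with hV
    set W : EuclideanSpace ℝ (Fin (d + 1)) → ℝ≥0∞ := fun p =>
      V p ^ (((d + 1 : ℕ) : ℝ)⁻¹) with hW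
    have hWp : ∀ p, W p ^ (d + 1) = V p := by
      intro p
      simp only [hW]
      rw [ENNReal.rpow_inv_natCast_pow hd1]
    have hVS : ∑ p ∈ s, V p = S (e : EuclideanSpace ℝ (Fin (d + 1))) := by
      simp only [hV, hS]
      rw [Finset.sum_comm]
      apply Finset.sum_congr rfl
      intro kk _
      exact (Summable.tsum_finsetSum fun p _ => ENNReal.summable).symm
    have hle : ∀ p ∈ s, ∀ kk < K', ∀ j : ℤ, ENNReal.ofReal (1 / sc (2 * (2 * L + 5)) δ kk) *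
      (∫⁻ s in JJ (sc (2 * (2 * L + 5)) δ kk) j, G s) *
        segMax (pc F k p (((j : ℝ) + 1) * sc (2 * (2 * L + 5)) δ kk) r
          (sc (2 * (2 * L + 5)) δ kk)) (e : EuclideanSpace ℝ (Fin (d + 1))) ≤ W p := by
      intro p hp kk hkk j
      have h1 : w kk j p (e : EuclideanSpace ℝ (Fin (d + 1))) ^ (d + 1) ≤ V p := by
        calc w kk j p (e : EuclideanSpace ℝ (Fin (d + 1))) ^ (d + 1)
            ≤ ∑' j : ℤ, w kk j p (e : EuclideanSpace ℝ (Fin (d + 1))) ^ (d + 1) :=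
              ENNReal.le_tsum j
          _ ≤ _ := Finset.single_le_sum (f := fun kk => ∑' j : ℤ, w kk j p
                (e : EuclideanSpace ℝ (Fin (d + 1))) ^ (d + 1)) (fun _ _ => zero_le)
                (Finset.mem_range.2 hkk)
      have h2 : w kk j p (e : EuclideanSpace ℝ (Fin (d + 1))) ≤ W p := by
        rw [← hWp] at h1
        exact (ENNReal.pow_le_pow_left_iff hd1).1 h1
      exact h2
    have hz : ∀ z : EuclideanSpace ℝ (Fin (d + 1)), (∫⁻ t in Icc (0:ℝ) 1,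
        (ball z₀ (2 * R)).indicator (fun y => ∫⁻ u in Icc (-(L * δ)) (L * δ), G (F y + u))
          (z + t • (e : EuclideanSpace ℝ (Fin (d + 1))))) ^ (d + 1) ≤
        Q * S (e : EuclideanSpace ℝ (Fin (d + 1))) := by
      intro z
      refine (line_sum h hδ hδ1 hr hrR hrδ hK hK' s hs hcov hN hNr hNr2 he z G hG W hle).trans
        (le_of_eq ?_)
      rw [hQ, ← hVS, Finset.sum_congr rfl fun p _ => hWp p]
    have hz' : ∀ z : EuclideanSpace ℝ (Fin (d + 1)), (∫⁻ t in Icc (0:ℝ) 1,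
        (ball z₀ (2 * R)).indicator (fun y => ∫⁻ u in Icc (-(L * δ)) (L * δ), G (F y + u))
          (z + t • (e : EuclideanSpace ℝ (Fin (d + 1))))) ≤
        (Q * S (e : EuclideanSpace ℝ (Fin (d + 1)))) ^ (((d + 1 : ℕ) : ℝ)⁻¹) := by
      intro z
      rw [← ENNReal.pow_le_pow_left_iff hd1, ENNReal.rpow_inv_natCast_pow hd1]
      exact hz z
    calc _ ≤ ((Q * S (e : EuclideanSpace ℝ (Fin (d + 1)))) ^ (((d + 1 : ℕ) : ℝ)⁻¹)) ^ (d + 1) :=
          pow_le_pow_left' (iSup_le hz') _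
      _ = Q * S (e : EuclideanSpace ℝ (Fin (d + 1))) := ENNReal.rpow_inv_natCast_pow hd1 _
  have hmeas : ∀ kk (j : ℤ) p, Measurable fun e : sphere (0 : EuclideanSpace ℝ (Fin (d + 1))) 1 =>
      segMax (pc F k p (((j : ℝ) + 1) * S0 kk) r (S0 kk)) (e : EuclideanSpace ℝ (Fin (d + 1))) :=
    fun kk j p => (measurable_segMax (pc_basic p hr).isOpen).comp measurable_subtype_coe
  have hwm : ∀ kk (j : ℤ) p, Measurable fun e : sphere (0 : EuclideanSpace ℝ (Fin (d + 1))) 1 =>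
      w kk j p (e : EuclideanSpace ℝ (Fin (d + 1))) ^ (d + 1) :=
    fun kk j p => ((hmeas kk j p).const_mul _).pow_const _
  have hpm : ∀ kk (j : ℤ), Measurable fun e : sphere (0 : EuclideanSpace ℝ (Fin (d + 1))) 1 =>
      ∑ p ∈ s, w kk j p (e : EuclideanSpace ℝ (Fin (d + 1))) ^ (d + 1) :=
    fun kk j => Finset.measurable_fun_sum _ fun p _ => hwm kk j p
  have hjm : ∀ kk, Measurable fun e : sphere (0 : EuclideanSpace ℝ (Fin (d + 1))) 1 =>
      ∑' j : ℤ, ∑ p ∈ s, w kk j p (e : EuclideanSpace ℝ (Fin (d + 1))) ^ (d + 1) :=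
    fun kk => Measurable.tsum fun j => hpm kk j
  have hSint : ∫⁻ e : sphere (0 : EuclideanSpace ℝ (Fin (d + 1))) 1,
      S (e : EuclideanSpace ℝ (Fin (d + 1))) ∂(sig (d + 1)) ≤
      K' * (Gam d k K₂ m * (2 ^ (d + 1) * ∫⁻ x, G x ^ (d + 1))) := by
    have h1 : ∀ kk (j : ℤ), ∫⁻ e : sphere (0 : EuclideanSpace ℝ (Fin (d + 1))) 1,
        ∑ p ∈ s, w kk j p (e : EuclideanSpace ℝ (Fin (d + 1))) ^ (d + 1) ∂(sig (d + 1)) ≤
        Gam d k K₂ m * (a kk j ^ (d + 1) * ENNReal.ofReal (S0 kk)) := by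
      intro kk j
      rw [lintegral_finsetSum _ fun p _ => hwm kk j p]
      have h2 : ∀ p ∈ s, ∫⁻ e : sphere (0 : EuclideanSpace ℝ (Fin (d + 1))) 1,
          w kk j p (e : EuclideanSpace ℝ (Fin (d + 1))) ^ (d + 1) ∂(sig (d + 1)) =
          a kk j ^ (d + 1) * ∫⁻ e, segMax (pc F k p (((j : ℝ) + 1) * S0 kk) r (S0 kk))
            (e : EuclideanSpace ℝ (Fin (d + 1))) ^ (d + 1) ∂(sig (d + 1)) := by
        intro p _
        rw [← lintegral_const_mul _ ((hmeas kk j p).pow_const _)]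
        apply lintegral_congr
        intro e
        simp only [hw, mul_pow]
      rw [Finset.sum_congr rfl h2, ← Finset.mul_sum]
      calc _ ≤ a kk j ^ (d + 1) * (ENNReal.ofReal (S0 kk) * Gam d k K₂ m) := by
            gcongr
            exact seg_pieces h hδ hδ1 hr hrR hrδ hK₂ s hs hsep _ (hS0δ kk)
        _ = _ := by ring
    calc ∫⁻ e : sphere (0 : EuclideanSpace ℝ (Fin (d + 1))) 1,
          S (e : EuclideanSpace ℝ (Fin (d + 1))) ∂(sig (d + 1))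
        = ∑ kk ∈ Finset.range K', ∑' j : ℤ, ∫⁻ e : sphere (0 : EuclideanSpace ℝ (Fin (d + 1))) 1,
          ∑ p ∈ s, w kk j p (e : EuclideanSpace ℝ (Fin (d + 1))) ^ (d + 1) ∂(sig (d + 1)) := by
          simp only [hS]
          rw [lintegral_finsetSum _ fun kk _ => hjm kk]
          apply Finset.sum_congr rfl
          intro kk _
          exact lintegral_tsum fun j => (hpm kk j).aemeasurable
      _ ≤ ∑ kk ∈ Finset.range K', ∑' j : ℤ, Gam d k K₂ m *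
          (a kk j ^ (d + 1) * ENNReal.ofReal (S0 kk)) :=
          Finset.sum_le_sum fun kk _ => ENNReal.tsum_le_tsum fun j => h1 kk j
      _ ≤ ∑ _kk ∈ Finset.range K', Gam d k K₂ m * (2 ^ (d + 1) * ∫⁻ x, G x ^ (d + 1)) := by
          apply Finset.sum_le_sum
          intro kk _
          rw [ENNReal.tsum_mul_left]
          gcongr
          exact scale_sum (hS0pos kk) d hG
      _ = _ := by rw [Finset.sum_const, Finset.card_range, nsmul_eq_mul]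
  have hSm : Measurable fun e : sphere (0 : EuclideanSpace ℝ (Fin (d + 1))) 1 =>
      S (e : EuclideanSpace ℝ (Fin (d + 1))) :=
    Finset.measurable_fun_sum _ fun kk _ => hjm kk
  refine ⟨fun e => Q * S (e : EuclideanSpace ℝ (Fin (d + 1))), hSm.const_mul _, hmain, ?_⟩
  rw [lintegral_const_mul _ hSm]
  gcongr

end Pool.Agent.H668.Fol
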