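import Pool.Agent.H668.Fol.Seg

/-!
# Foliated functions: sums over intervals
-/

set_option autoImplicit false

open MeasureTheory Set Filter Topology ENNReal NNReal Metric

namespace Pool.Agent.H668.Fol

/-- Jensen / Hölder for a finite measure -/
theorem pow_lint_le {α : Type*} [MeasurableSpace α] (ν : Measure α) (d : ℕ) {f : α → ℝ≥0∞}
    (hf : AEMeasurable f ν) :
    (∫⁻ a, f a ∂ν) ^ (d + 1) ≤ (ν Set.univ) ^ d * ∫⁻ a, f a ^ (d + 1) ∂ν := by
  rcases Nat.eq_zero_or_pos d with rfl | hd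
  · simp
  have hd0 : (0 : ℝ) < d := by exact_mod_cast hd
  have hpq : ((d : ℝ) + 1).HolderConjugate (((d : ℝ) + 1) / d) := by
    rw [Real.holderConjugate_iff]
    refine ⟨by linarith, ?_⟩
    field_simp
    ring
  have h := ENNReal.lintegral_mul_le_Lp_mul_Lq ν hpq hf (g := fun _ => 1) aemeasurable_const
  simp only [Pi.mul_apply, mul_one, ENNReal.one_rpow, lintegral_const, one_mul] at h
  have h2 := pow_le_pow_left' h (d + 1)
  refine h2.trans (le_of_eq ?_)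
  rw [mul_pow, ← ENNReal.rpow_natCast, ← ENNReal.rpow_mul, ← ENNReal.rpow_natCast,
    ← ENNReal.rpow_mul, mul_comm]
  congr 1
  · have e : 1 / (((d : ℝ) + 1) / d) * ((d + 1 : ℕ) : ℝ) = d := by
      push_cast
      field_simp
    rw [e, ENNReal.rpow_natCast]
  · have e : 1 / ((d : ℝ) + 1) * ((d + 1 : ℕ) : ℝ) = 1 := by
      push_cast
      field_simp
    rw [e, ENNReal.rpow_one]
    refine lintegral_congr fun a => ?_
    have e2 : ((d : ℝ) + 1) = ((d + 1 : ℕ) : ℝ) := by push_cast; ring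
    rw [e2, ENNReal.rpow_natCast]

theorem tsum_JJ {s : ℝ} (hs : 0 < s) (H : ℝ → ℝ≥0∞) :
    ∑' j : ℤ, ∫⁻ x in JJ s j, H x ≤ 2 * ∫⁻ x, H x := by
  set A : ℤ → Set ℝ := fun j => Ico (j • s) ((j + 1) • s) with hA
  have h1 : ∑' j : ℤ, ∫⁻ x in A j, H x = ∫⁻ x, H x := by
    rw [← lintegral_iUnion (fun j => measurableSet_Ico) (pairwise_disjoint_Ico_zsmul s) H,
      iUnion_Ico_zsmul hs, Measure.restrict_univ]
  have h2 : ∑' j : ℤ, ∫⁻ x in A (j + 1), H x = ∫⁻ x, H x := by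
    rw [← h1]
    exact (Equiv.addRight (1:ℤ)).tsum_eq (fun j => ∫⁻ x in A j, H x)
  have h3 : ∀ j : ℤ, ∫⁻ x in JJ s j, H x ≤ (∫⁻ x in A j, H x) + ∫⁻ x in A (j + 1), H x := by
    intro j
    refine (lintegral_mono_set ?_).trans (lintegral_union_le _ _ _)
    intro x hx
    unfold JJ at hx
    simp only [hA, zsmul_eq_mul, Int.cast_add, Int.cast_one]
    rcases lt_or_ge x (((j : ℝ) + 1) * s) with h | h
    · exact Or.inl ⟨hx.1.le, by push_cast; exact h⟩
    · refine Or.inr ⟨by push_cast; exact h, ?_⟩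
      have := hx.2
      push_cast
      nlinarith
  calc ∑' j : ℤ, ∫⁻ x in JJ s j, H x
      ≤ ∑' j : ℤ, ((∫⁻ x in A j, H x) + ∫⁻ x in A (j + 1), H x) := ENNReal.tsum_le_tsum h3
    _ = 2 * ∫⁻ x, H x := by rw [ENNReal.tsum_add, h1, h2, two_mul]

/-- one scale -/
theorem scale_sum {s : ℝ} (hs : 0 < s) (d : ℕ) {G : ℝ → ℝ≥0∞} (hG : Measurable G) :
    ∑' j : ℤ, (ENNReal.ofReal (1 / s) * ∫⁻ x in JJ s j, G x) ^ (d + 1) * ENNReal.ofReal s ≤
      2 ^ (d + 1) * ∫⁻ x, G x ^ (d + 1) := by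
  have h1 : ∀ j : ℤ, (ENNReal.ofReal (1 / s) * ∫⁻ x in JJ s j, G x) ^ (d + 1) *
      ENNReal.ofReal s ≤ 2 ^ d * ∫⁻ x in JJ s j, G x ^ (d + 1) := by
    intro j
    have h2 := pow_lint_le (volume.restrict (JJ s j)) d (f := G) hG.aemeasurable
    have hv : volume.restrict (JJ s j) univ = ENNReal.ofReal (2 * s) := by
      rw [Measure.restrict_apply_univ, JJ, Real.volume_Ioo]
      congr 1
      ring
    rw [hv] at h2
    calc (ENNReal.ofReal (1 / s) * ∫⁻ x in JJ s j, G x) ^ (d + 1) * ENNReal.ofReal s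
        ≤ ENNReal.ofReal (1 / s) ^ (d + 1) * (ENNReal.ofReal (2 * s) ^ d *
          ∫⁻ x in JJ s j, G x ^ (d + 1)) * ENNReal.ofReal s := by
          rw [mul_pow]
          gcongr
      _ = (ENNReal.ofReal (1 / s) ^ (d + 1) * ENNReal.ofReal (2 * s) ^ d * ENNReal.ofReal s) *
          ∫⁻ x in JJ s j, G x ^ (d + 1) := by ring
      _ = 2 ^ d * ∫⁻ x in JJ s j, G x ^ (d + 1) := by
          congr 1
          rw [← ENNReal.ofReal_pow (by positivity), ← ENNReal.ofReal_pow (by positivity),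
            ← ENNReal.ofReal_mul (by positivity), ← ENNReal.ofReal_mul (by positivity)]
          have e : (1 / s) ^ (d + 1) * (2 * s) ^ d * s = 2 ^ d := by
            rw [pow_succ, mul_pow, one_div, inv_pow]
            field_simp
          rw [e, ENNReal.ofReal_pow (by norm_num)]
          simp
  calc ∑' j : ℤ, (ENNReal.ofReal (1 / s) * ∫⁻ x in JJ s j, G x) ^ (d + 1) * ENNReal.ofReal s
      ≤ ∑' j : ℤ, 2 ^ d * ∫⁻ x in JJ s j, G x ^ (d + 1) := ENNReal.tsum_le_tsum h1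
    _ = 2 ^ d * ∑' j : ℤ, ∫⁻ x in JJ s j, G x ^ (d + 1) := ENNReal.tsum_mul_left
    _ ≤ 2 ^ d * (2 * ∫⁻ x, G x ^ (d + 1)) := by
        gcongr
        exact tsum_JJ hs _
    _ = _ := by rw [pow_succ]; ring

end Pool.Agent.H668.Fol
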