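import Pool.Agent.H668.Fol.Moll
import Pool.Agent.H668.Fol.Sum
import Pool.Agent.W770.SA.Count3
import Pool.Agent.R251.Lam.Piece

/-!
# Foliated functions: the maximal function of a function with small support
-/

set_option autoImplicit false

open MeasureTheory Set Filter Topology ENNReal NNReal Metric

namespace Pool.Agent.H668.Fol

open Pool.Agent.W770.SA Pool.Agent.R251.Lam

variable {d : ℕ}

/-- change of scale in an integral -/
theorem lint_scale {ρ : ℝ} (hρ : 0 < ρ) (z₀ : EuclideanSpace ℝ (Fin (d + 1)))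
    {H : EuclideanSpace ℝ (Fin (d + 1)) → ℝ≥0∞} (hH : Measurable H) :
    ∫⁻ y, H y = ENNReal.ofReal (ρ ^ (d + 1)) * ∫⁻ w, H (z₀ + ρ • w) := by
  have h1 : ∫⁻ w, H (z₀ + ρ • w) = ENNReal.ofReal ((ρ ^ (d + 1))⁻¹) * ∫⁻ y, H y := by
    have h2 : ∫⁻ w, H (z₀ + ρ • w) =
        ∫⁻ y, H (z₀ + y) ∂(Measure.map (fun w : EuclideanSpace ℝ (Fin (d + 1)) => ρ • w) volume) :=
      (lintegral_map (f := fun y => H (z₀ + y)) (hH.comp (measurable_const_add z₀))
        (measurable_const_smul ρ)).symm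
    rw [h2, Measure.map_addHaar_smul _ hρ.ne', lintegral_smul_measure, finrank_euclideanSpace_fin,
      lintegral_add_left_eq_self, abs_of_pos (by positivity), smul_eq_mul]
  rw [h1, ← mul_assoc, ← ENNReal.ofReal_mul (by positivity), mul_inv_cancel₀ (by positivity),
    ENNReal.ofReal_one, one_mul]

/-- an integral over a tube is at most the volume times the maximal function -/
theorem int_tube_le {δ : ℝ} (hδ : 0 < δ) (f : EuclideanSpace ℝ (Fin (d + 1)) → ℝ)
    {e : EuclideanSpace ℝ (Fin (d + 1))} (he : ‖e‖ = 1) (a : EuclideanSpace ℝ (Fin (d + 1))) :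
    ∫⁻ y in tube δ e a, ‖f y‖ₑ ≤ ENNReal.ofReal ((2 * δ) ^ d) * kakeyaMax δ f e := by
  obtain ⟨c, hc, hvol⟩ := Pool.Agent.H742R2.Kk.volume_tube d
  have hv0 : volume (tube δ e a) ≠ 0 := by
    have h1 := hvol δ e a hδ he
    have h2 : 0 < ENNReal.ofReal (c * δ ^ d) := ENNReal.ofReal_pos.2 (by positivity)
    exact (lt_of_lt_of_le h2 h1).ne'
  have h3 : (volume (tube δ e a))⁻¹ * ∫⁻ y in tube δ e a, ‖f y‖ₑ ≤ kakeyaMax δ f e :=
    le_iSup (fun a => (volume (tube δ e a))⁻¹ * ∫⁻ y in tube δ e a, ‖f y‖ₑ) a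
  calc ∫⁻ y in tube δ e a, ‖f y‖ₑ
      = volume (tube δ e a) * ((volume (tube δ e a))⁻¹ * ∫⁻ y in tube δ e a, ‖f y‖ₑ) := by
        rw [← mul_assoc, ENNReal.mul_inv_cancel hv0 (volume_tube_lt_top he).ne, one_mul]
    _ ≤ _ := by
        gcongr
        exact volume_tube_le hδ he

/-- functions with support in a ball of radius `ρ` -/
theorem kak_scale (d : ℕ) : ∃ C : ℝ, 0 < C ∧ ∀ (δ ρ : ℝ), 0 < δ → 0 < ρ →
    ∀ (z₀ : EuclideanSpace ℝ (Fin (d + 1))) (f : EuclideanSpace ℝ (Fin (d + 1)) → ℝ),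
      Measurable f → (∀ y, f y ≠ 0 → ‖y - z₀‖ ≤ ρ) → ∀ e : EuclideanSpace ℝ (Fin (d + 1)),
      ‖e‖ = 1 →
      kakeyaMax δ f e ≤ ENNReal.ofReal (C * ρ) * kakeyaMax (δ / ρ) (fun w => f (z₀ + ρ • w)) e := by
  obtain ⟨c, hc, hvol⟩ := Pool.Agent.H742R2.Kk.volume_tube d
  refine ⟨2 * 2 ^ d / c, by positivity, ?_⟩
  intro δ ρ hδ hρ z₀ f hf hsupp e he
  have hee : inner ℝ e e = (1:ℝ) := by rw [real_inner_self_eq_norm_sq, he]; norm_num
  have hδρ : 0 < δ / ρ := by positivity
  apply iSup_le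
  intro a
  set T := tube δ e a with hT
  have hTm : MeasurableSet T := (isClosed_tube δ e a).measurableSet
  set a' : EuclideanSpace ℝ (Fin (d + 1)) := ρ⁻¹ • (a - z₀) with ha'
  set b : EuclideanSpace ℝ (Fin (d + 1)) := a' - (inner ℝ a' e : ℝ) • e with hb
  have hbe : inner ℝ b e = (0:ℝ) := by
    rw [hb, inner_sub_left, real_inner_smul_left e e (inner ℝ a' e), hee, mul_one, sub_self]
  set f₁ : EuclideanSpace ℝ (Fin (d + 1)) → ℝ := fun w => f (z₀ + ρ • w) with hf₁
  have hf₁m : Measurable f₁ := hf.comp (by fun_prop)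
  set T₁ := tube (δ / ρ) e (b + (1 / 2 : ℝ) • e) with hT₁
  set T₂ := tube (δ / ρ) e (b - (1 / 2 : ℝ) • e) with hT₂
  have hT₁m : MeasurableSet T₁ := (isClosed_tube _ _ _).measurableSet
  have hT₂m : MeasurableSet T₂ := (isClosed_tube _ _ _).measurableSet
  have hpt : ∀ w, T.indicator (fun y => ‖f y‖ₑ) (z₀ + ρ • w) ≤
      T₁.indicator (fun w => ‖f₁ w‖ₑ) w + T₂.indicator (fun w => ‖f₁ w‖ₑ) w := by
    intro w
    by_cases h0 : f (z₀ + ρ • w) = 0
    · have h1 : T.indicator (fun y => ‖f y‖ₑ) (z₀ + ρ • w) = 0 := by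
        by_cases h2 : z₀ + ρ • w ∈ T
        · rw [indicator_of_mem h2, h0, enorm_zero]
        · rw [indicator_of_notMem h2]
      rw [h1]; exact zero_le
    by_cases hw : z₀ + ρ • w ∈ T
    · rw [indicator_of_mem hw]
      have hwn : ‖w‖ ≤ 1 := by
        have h1 := hsupp _ h0
        rw [add_sub_cancel_left, norm_smul, Real.norm_of_nonneg hρ.le] at h1
        by_contra hcon
        push Not at hcon
        nlinarith
      obtain ⟨-, h2⟩ := hw
      set τ : ℝ := inner ℝ w e with hτ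
      have hτ1 : |τ| ≤ 1 := by
        have := abs_real_inner_le_norm w e
        rw [he, mul_one] at this
        exact this.trans hwn
      have e1 : z₀ + ρ • w - a = ρ • (w - a') := by
        rw [ha', smul_sub, smul_smul, mul_inv_cancel₀ hρ.ne', one_smul]
        abel
      have hperp : ‖(w - b) - τ • e‖ ≤ δ / ρ := by
        rw [e1, real_inner_smul_left, mul_smul, ← smul_sub, norm_smul,
          Real.norm_of_nonneg hρ.le, inner_sub_left, ← hτ] at h2
        have e2 : (w - b) - τ • e = w - a' - (τ - inner ℝ a' e) • e := by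
          rw [hb, sub_smul]; abel
        rw [e2, le_div_iff₀ hρ]
        linarith
      have hwb : inner ℝ (w - b) e = τ := by rw [inner_sub_left, hbe, sub_zero]
      rw [abs_le] at hτ1
      rcases le_total 0 τ with hpos | hneg
      · have hmem : w ∈ T₁ := by
          have h3 : inner ℝ (w - (b + (1 / 2 : ℝ) • e)) e = τ - 1 / 2 := by
            rw [show w - (b + (1 / 2 : ℝ) • e) = (w - b) - (1 / 2 : ℝ) • e by abel,
              inner_sub_left, hwb, real_inner_smul_left, hee, mul_one]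
          refine ⟨?_, ?_⟩
          · rw [h3, abs_le]
            constructor <;> linarith [hτ1.1, hτ1.2]
          · rw [h3]
            have h4 : (w - (b + (1 / 2 : ℝ) • e)) - (τ - 1 / 2) • e = (w - b) - τ • e := by
              rw [sub_smul]; abel
            rw [h4]; exact hperp
        rw [indicator_of_mem hmem]
        exact le_self_add
      · have hmem : w ∈ T₂ := by
          have h3 : inner ℝ (w - (b - (1 / 2 : ℝ) • e)) e = τ + 1 / 2 := by
            rw [show w - (b - (1 / 2 : ℝ) • e) = (w - b) + (1 / 2 : ℝ) • e by abel,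
              inner_add_left, hwb, real_inner_smul_left, hee, mul_one]
          refine ⟨?_, ?_⟩
          · rw [h3, abs_le]
            constructor <;> linarith [hτ1.1, hτ1.2]
          · rw [h3]
            have h4 : (w - (b - (1 / 2 : ℝ) • e)) - (τ + 1 / 2) • e = (w - b) - τ • e := by
              rw [add_smul]; abel
            rw [h4]; exact hperp
        rw [indicator_of_mem hmem]
        exact le_add_self
    · rw [indicator_of_notMem hw]; exact zero_le
  have hint : ∫⁻ y in T, ‖f y‖ₑ ≤ ENNReal.ofReal (ρ ^ (d + 1)) *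
      (2 * (ENNReal.ofReal ((2 * (δ / ρ)) ^ d) * kakeyaMax (δ / ρ) f₁ e)) := by
    rw [← lintegral_indicator hTm, lint_scale hρ z₀ (hf.enorm.indicator hTm)]
    gcongr
    refine (lintegral_mono hpt).trans ?_
    rw [lintegral_add_left (hf₁m.enorm.indicator hT₁m), lintegral_indicator hT₁m,
      lintegral_indicator hT₂m, two_mul]
    exact add_le_add (int_tube_le hδρ f₁ he _) (int_tube_le hδρ f₁ he _)
  have hvT := hvol δ e a hδ he
  calc (volume T)⁻¹ * ∫⁻ y in T, ‖f y‖ₑ
      ≤ (ENNReal.ofReal (c * δ ^ d))⁻¹ * (ENNReal.ofReal (ρ ^ (d + 1)) *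
      (2 * (ENNReal.ofReal ((2 * (δ / ρ)) ^ d) * kakeyaMax (δ / ρ) f₁ e))) := by
        gcongr
        exact hvT
    _ = ENNReal.ofReal ((c * δ ^ d)⁻¹ * (ρ ^ (d + 1) * (2 * (2 * (δ / ρ)) ^ d))) *
        kakeyaMax (δ / ρ) f₁ e := by
        have h2 : (2:ℝ≥0∞) = ENNReal.ofReal 2 := by simp
        rw [← ENNReal.ofReal_inv_of_pos (by positivity), h2,
          ENNReal.ofReal_mul (p := (c * δ ^ d)⁻¹) (by positivity),
          ENNReal.ofReal_mul (p := ρ ^ (d + 1)) (by positivity),
          ENNReal.ofReal_mul (p := 2) (by norm_num)]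
        ring
    _ = _ := by
        congr 2
        rw [mul_pow, div_pow, pow_succ ρ]
        field_simp

end Pool.Agent.H668.Fol
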