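import Pool.Agent.W770.SA.TubeF

/-!
# Foliated functions: averages over tubes and segments, with smoothing
-/

set_option autoImplicit false

open MeasureTheory Set Filter Topology ENNReal NNReal Metric

namespace Pool.Agent.H668.Fol

open Pool.Agent.W770.SA

variable {n : ℕ}

theorem vol_tube_shift (δ : ℝ) (e a : EuclideanSpace ℝ (Fin n)) :
    volume (tube δ e a) = volume (tube δ e 0) := by
  have h := measure_preimage_add_right (volume : Measure (EuclideanSpace ℝ (Fin n))) (-a)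
    (tube δ e 0)
  rw [← h]
  congr 1
  ext y
  simp only [tube, mem_ofPred_eq, mem_preimage, neg_zero, add_zero, sub_eq_add_neg]

theorem vol_tube_two {δ : ℝ} (e a b : EuclideanSpace ℝ (Fin n)) :
    volume (tube (2 * δ) e b) ≤ 2 ^ n * volume (tube δ e a) := by
  rw [vol_tube_shift (2 * δ) e b, vol_tube_shift δ e a]
  have hsub : tube (2 * δ) e 0 ⊆ (fun x : EuclideanSpace ℝ (Fin n) => (1 / 2 : ℝ) • x) ⁻¹'
      tube δ e 0 := by
    rintro y ⟨h1, h2⟩
    rw [sub_zero] at h1 h2
    show |inner ℝ ((1 / 2 : ℝ) • y - 0) e| ≤ 1 / 2 ∧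
      ‖((1 / 2 : ℝ) • y - 0) - (inner ℝ ((1 / 2 : ℝ) • y - 0) e : ℝ) • e‖ ≤ δ
    rw [sub_zero, real_inner_smul_left]
    refine ⟨?_, ?_⟩
    · rw [abs_mul, abs_of_pos (by norm_num : (0:ℝ) < 1 / 2)]
      linarith
    · rw [mul_smul, ← smul_sub, norm_smul, Real.norm_eq_abs,
        abs_of_pos (by norm_num : (0:ℝ) < 1 / 2)]
      linarith
  refine (measure_mono hsub).trans ?_
  rw [Measure.addHaar_preimage_smul _ (by norm_num : (1 / 2 : ℝ) ≠ 0), finrank_euclideanSpace_fin]
  gcongr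
  rw [abs_inv, abs_pow, abs_of_pos (by norm_num : (0:ℝ) < 1 / 2), ← inv_pow]
  norm_num

/-- the average over a short segment parallel to `v` -/
noncomputable def av (δ : ℝ) (f : EuclideanSpace ℝ (Fin n) → ℝ) (v y : EuclideanSpace ℝ (Fin n)) :
    ℝ≥0∞ :=
  ENNReal.ofReal (1 / (2 * δ)) * ∫⁻ u in Icc (-δ) δ, ‖f (y + u • v)‖ₑ

theorem measurable_av (δ : ℝ) {f : EuclideanSpace ℝ (Fin n) → ℝ} (hf : Measurable f)
    (v : EuclideanSpace ℝ (Fin n)) : Measurable (av δ f v) := by
  unfold av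
  apply Measurable.const_mul
  apply Measurable.lintegral_prod_right'
    (f := fun q : EuclideanSpace ℝ (Fin n) × ℝ => ‖f (q.1 + q.2 • v)‖ₑ)
  exact (hf.comp (by fun_prop)).enorm

theorem tube_near {δ δ' u : ℝ} (hδ1 : δ ≤ 1) (hδ'δ : δ' ≤ δ) {e v a y : EuclideanSpace ℝ (Fin n)}
    (he : ‖e‖ = 1) (hv : ‖v‖ ≤ 1) (hu : |u| ≤ δ') (hy : y + u • v ∈ tube δ e a) :
    y ∈ tube (2 * δ) e a ∨ y ∈ tube (2 * δ) e (a + e) ∨ y ∈ tube (2 * δ) e (a - e) := by
  obtain ⟨h1, h2⟩ := hy
  have hee : inner ℝ e e = (1:ℝ) := by rw [real_inner_self_eq_norm_sq, he]; norm_num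
  set x : ℝ := inner ℝ (y - a) e with hx
  set c : ℝ := inner ℝ v e with hc
  have hc1 : |c| ≤ 1 := by
    have := abs_real_inner_le_norm v e
    rw [he, mul_one] at this
    exact this.trans hv
  have hw : y + u • v - a = (y - a) + u • v := by abel
  have hi : inner ℝ (y + u • v - a) e = x + u * c := by
    rw [hw, inner_add_left, real_inner_smul_left]
  rw [hi] at h1 h2
  have huc : |u * c| ≤ 1 := by
    rw [abs_mul]
    calc |u| * |c| ≤ 1 * 1 := by
          apply mul_le_mul _ hc1 (abs_nonneg _) zero_le_one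
          linarith
      _ = 1 := one_mul _
  have hδ0 : 0 ≤ δ := (abs_nonneg u).trans (hu.trans hδ'δ)
  have hperp : ‖(y - a) - x • e‖ ≤ 2 * δ := by
    have hve : ‖v - c • e‖ ≤ 1 := by
      have h3 : ‖v - c • e‖ ^ 2 = ‖v‖ ^ 2 - c ^ 2 := by
        rw [← real_inner_self_eq_norm_sq, inner_sub_left, inner_sub_right, inner_sub_right,
          real_inner_smul_left, real_inner_smul_right, real_inner_smul_left, real_inner_smul_right,
          hee, real_inner_comm v e, ← hc, real_inner_self_eq_norm_sq]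
        ring
      have h4 : ‖v - c • e‖ ^ 2 ≤ 1 ^ 2 := by
        rw [h3]
        nlinarith [norm_nonneg v, sq_nonneg c]
      exact le_of_sq_le_sq h4 zero_le_one
    have h5 : (y - a) - x • e = (y + u • v - a - (x + u * c) • e) - u • (v - c • e) := by
      rw [hw, add_smul, smul_sub, smul_smul]
      abel
    rw [h5]
    calc ‖(y + u • v - a - (x + u * c) • e) - u • (v - c • e)‖
        ≤ ‖y + u • v - a - (x + u * c) • e‖ + ‖u • (v - c • e)‖ := norm_sub_le _ _
      _ ≤ δ + δ * 1 := by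
          rw [norm_smul, Real.norm_eq_abs]
          gcongr
          exact hu.trans hδ'δ
      _ = 2 * δ := by ring
  rw [abs_le] at h1 huc
  by_cases hA : |x| ≤ 1 / 2
  · exact Or.inl ⟨hA, hperp⟩
  · right
    rcases lt_or_ge x 0 with hneg | hpos
    · right
      have hi2 : inner ℝ (y - (a - e)) e = x + 1 := by
        rw [show y - (a - e) = (y - a) + e by abel, inner_add_left, hee]
      have hp2 : (y - (a - e)) - (inner ℝ (y - (a - e)) e : ℝ) • e = (y - a) - x • e := by
        rw [hi2, add_smul, one_smul]; abel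
      refine ⟨?_, by rw [hp2]; exact hperp⟩
      rw [hi2, abs_le]
      rw [abs_of_neg hneg] at hA
      push Not at hA
      constructor <;> linarith [h1.1, h1.2, huc.1, huc.2]
    · left
      have hi2 : inner ℝ (y - (a + e)) e = x - 1 := by
        rw [show y - (a + e) = (y - a) - e by abel, inner_sub_left, hee]
      have hp2 : (y - (a + e)) - (inner ℝ (y - (a + e)) e : ℝ) • e = (y - a) - x • e := by
        rw [hi2, sub_smul, one_smul]; abel
      refine ⟨?_, by rw [hp2]; exact hperp⟩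
      rw [hi2, abs_le]
      rw [abs_of_nonneg hpos] at hA
      push Not at hA
      constructor <;> linarith [h1.1, h1.2, huc.1, huc.2]

theorem kakeyaMax_av {δ δ' : ℝ} (hδ1 : δ ≤ 1) (hδ' : 0 < δ') (hδ'δ : δ' ≤ δ)
    {f : EuclideanSpace ℝ (Fin n) → ℝ} (hf : Measurable f) {e v : EuclideanSpace ℝ (Fin n)}
    (he : ‖e‖ = 1) (hv : ‖v‖ ≤ 1) :
    kakeyaMax δ f e ≤ 6 * 2 ^ n * ⨆ z : EuclideanSpace ℝ (Fin n),
      ∫⁻ s in Icc (0:ℝ) 1, av δ' f v (z + s • e) := by
  classical
  set Q := ⨆ z : EuclideanSpace ℝ (Fin n), ∫⁻ s in Icc (0:ℝ) 1, av δ' f v (z + s • e) with hQ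
  apply iSup_le
  intro a
  set T := tube δ e a with hT
  have hTm : MeasurableSet T := (isClosed_tube δ e a).measurableSet
  have hfe : Measurable (fun y => ‖f y‖ₑ) := hf.enorm
  have hTg : Measurable (T.indicator fun y => ‖f y‖ₑ) := hfe.indicator hTm
  have ham := measurable_av δ' hf v
  have h1 : ∫⁻ y in T, ‖f y‖ₑ = ENNReal.ofReal (1 / (2 * δ')) *
      ∫⁻ u in Icc (-δ') δ', ∫⁻ y, T.indicator (fun y => ‖f y‖ₑ) (y + u • v) := by
    have h2 : ∀ u : ℝ, ∫⁻ y, T.indicator (fun y => ‖f y‖ₑ) (y + u • v) = ∫⁻ y in T, ‖f y‖ₑ := by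
      intro u
      have h3 := lintegral_add_right_eq_self (μ := (volume : Measure (EuclideanSpace ℝ (Fin n))))
        (T.indicator fun y => ‖f y‖ₑ) (u • v)
      rw [h3, lintegral_indicator hTm]
    simp only [h2]
    rw [setLIntegral_const, Real.volume_Icc, mul_comm (∫⁻ y in T, ‖f y‖ₑ), ← mul_assoc,
      ← ENNReal.ofReal_mul (by positivity)]
    have : 1 / (2 * δ') * (δ' - -δ') = 1 := by field_simp; ring
    rw [this, ENNReal.ofReal_one, one_mul]
  have hsw : ∫⁻ u in Icc (-δ') δ', ∫⁻ y, T.indicator (fun y => ‖f y‖ₑ) (y + u • v) =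
      ∫⁻ y, ∫⁻ u in Icc (-δ') δ', T.indicator (fun y => ‖f y‖ₑ) (y + u • v) := by
    apply lintegral_lintegral_swap
    exact (hTg.comp (f := fun q : ℝ × EuclideanSpace ℝ (Fin n) => q.2 + q.1 • v)
      (by fun_prop)).aemeasurable
  have h4 : ∀ y, ENNReal.ofReal (1 / (2 * δ')) *
      ∫⁻ u in Icc (-δ') δ', T.indicator (fun y => ‖f y‖ₑ) (y + u • v) ≤
      (tube (2 * δ) e a).indicator (av δ' f v) y +
      ((tube (2 * δ) e (a + e)).indicator (av δ' f v) y +
        (tube (2 * δ) e (a - e)).indicator (av δ' f v) y) := by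
    intro y
    have hle : ENNReal.ofReal (1 / (2 * δ')) *
        ∫⁻ u in Icc (-δ') δ', T.indicator (fun y => ‖f y‖ₑ) (y + u • v) ≤ av δ' f v y := by
      unfold av
      gcongr with u
      exact indicator_le_self _ _ _
    by_cases hA : y ∈ tube (2 * δ) e a
    · rw [indicator_of_mem hA]
      exact hle.trans le_self_add
    by_cases hB : y ∈ tube (2 * δ) e (a + e)
    · rw [indicator_of_mem hB]
      exact hle.trans (le_self_add.trans le_add_self)
    by_cases hC : y ∈ tube (2 * δ) e (a - e)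
    · rw [indicator_of_mem hC]
      exact hle.trans (le_add_self.trans le_add_self)
    have h5 : ∀ u ∈ Icc (-δ') δ', T.indicator (fun y => ‖f y‖ₑ) (y + u • v) = 0 := by
      intro u hu
      apply indicator_of_notMem
      intro h6
      rcases tube_near hδ1 hδ'δ he hv (abs_le.2 hu) h6 with h | h | h
      · exact hA h
      · exact hB h
      · exact hC h
    rw [setLIntegral_congr_fun measurableSet_Icc h5]
    simp
  have hm : ∀ b, MeasurableSet (tube (2 * δ) e b) := fun b => (isClosed_tube _ e b).measurableSet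
  have h7 : ∀ b, ∫⁻ y in tube (2 * δ) e b, av δ' f v y ≤ 2 * (2 ^ n * volume T) * Q := by
    intro b
    refine (lintegral_tube_le he ham).trans ?_
    gcongr
    exact vol_tube_two e a b
  have h8 : ∫⁻ y in T, ‖f y‖ₑ ≤ volume T * (6 * 2 ^ n * Q) := by
    rw [h1, hsw, ← lintegral_const_mul' _ _ ENNReal.ofReal_ne_top]
    refine (lintegral_mono h4).trans ?_
    rw [lintegral_add_left (ham.indicator (hm _)), lintegral_add_left (ham.indicator (hm _)),
      lintegral_indicator (hm _), lintegral_indicator (hm _), lintegral_indicator (hm _)]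
    refine (add_le_add (h7 _) (add_le_add (h7 _) (h7 _))).trans (le_of_eq ?_)
    ring
  calc (volume T)⁻¹ * ∫⁻ y in T, ‖f y‖ₑ ≤ (volume T)⁻¹ * (volume T * (6 * 2 ^ n * Q)) := by
        gcongr
    _ = ((volume T)⁻¹ * volume T) * (6 * 2 ^ n * Q) := by ring
    _ ≤ 1 * (6 * 2 ^ n * Q) := by
        gcongr
        exact ENNReal.inv_mul_le_one _
    _ = _ := one_mul _

end Pool.Agent.H668.Fol
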