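import Pool.Agent.H668.Fol.Seg
import Pool.Agent.H668.Fol.Moll
import Pool.Agent.R251.Lam.Main

/-!
# Foliated functions: one line in a chart
-/

set_option autoImplicit false

open MeasureTheory Set Filter Topology ENNReal NNReal Metric

namespace Pool.Agent.H668.Fol

open Pool.Agent.W770.SA Pool.Agent.R251.Lam

variable {d : ℕ} {F : EuclideanSpace ℝ (Fin (d + 1)) → ℝ} {k : ℕ}
  {z₀ : EuclideanSpace ℝ (Fin (d + 1))} {R A L m : ℝ} {i : Fin (d + 1)}

/-- derivative along the coordinate direction of the chart -/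
theorem deriv_line (h : Chart F k z₀ R A L m i) (y : EuclideanSpace ℝ (Fin (d + 1))) (u : ℝ)
    (hy : y + u • EuclideanSpace.single i (1:ℝ) ∈ ball z₀ (4 * R)) :
    HasDerivAt (fun u : ℝ => F (y + u • EuclideanSpace.single i (1:ℝ)))
      (fderiv ℝ F (y + u • EuclideanSpace.single i (1:ℝ)) (EuclideanSpace.single i (1:ℝ))) u ∧
      m ≤ |fderiv ℝ F (y + u • EuclideanSpace.single i (1:ℝ)) (EuclideanSpace.single i (1:ℝ))| ∧
      |fderiv ℝ F (y + u • EuclideanSpace.single i (1:ℝ)) (EuclideanSpace.single i (1:ℝ))| ≤ L := by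
  set v : EuclideanSpace ℝ (Fin (d + 1)) := EuclideanSpace.single i (1:ℝ) with hv
  have hv1 : ‖v‖ = 1 := by rw [hv]; simp
  have hd : DifferentiableAt ℝ F (y + u • v) := (h.smooth _ hy).differentiableAt (by simp)
  have hline : HasDerivAt (fun u : ℝ => y + u • v) v u := by
    have := ((hasDerivAt_id u).smul_const v).const_add y
    simpa using this
  have hD : HasDerivAt (fun u : ℝ => F (y + u • v)) (fderiv ℝ F (y + u • v) v) u :=
    hd.hasFDerivAt.comp_hasDerivAt u hline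
  refine ⟨hD, ?_⟩
  have hslope := hD.tendsto_slope
  have habs : Tendsto (fun s => |slope (fun u : ℝ => F (y + u • v)) u s|) (𝓝[≠] u)
      (𝓝 |fderiv ℝ F (y + u • v) v|) := hslope.abs
  have hev : ∀ᶠ s in 𝓝[≠] u, y + s • v ∈ ball z₀ (4 * R) := by
    apply mem_nhdsWithin_of_mem_nhds
    have hc : Continuous (fun s : ℝ => y + s • v) := by fun_prop
    exact (isOpen_ball.preimage hc).mem_nhds hy
  have hne : ∀ᶠ s in 𝓝[≠] u, s ≠ u := self_mem_nhdsWithin
  have hbd : ∀ᶠ s in 𝓝[≠] u, m ≤ |slope (fun u : ℝ => F (y + u • v)) u s| ∧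
      |slope (fun u : ℝ => F (y + u • v)) u s| ≤ L := by
    filter_upwards [hev, hne] with s hs hsu
    have hsu' : 0 < |s - u| := abs_pos.2 (sub_ne_zero.2 hsu)
    have e1 : slope (fun u : ℝ => F (y + u • v)) u s = (F (y + s • v) - F (y + u • v)) / (s - u) :=
      slope_def_field _ _ _
    have e2 : y + s • v = (y + u • v) + (s - u) • v := by rw [sub_smul]; abel
    rw [e1, abs_div]
    constructor
    · rw [le_div_iff₀ hsu']
      have := h.anti _ hy (s - u) (by rw [← e2]; exact hs)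
      rw [← e2] at this
      exact this
    · rw [div_le_iff₀ hsu']
      have := h.lip _ hs _ hy
      rw [e2, add_sub_cancel_left, norm_smul, hv1, mul_one, Real.norm_eq_abs, ← e2] at this
      exact this
  exact ⟨ge_of_tendsto habs (hbd.mono fun s hs => hs.1),
    le_of_tendsto habs (hbd.mono fun s hs => hs.2)⟩

/-- smoothing of `g ∘ F` -/
theorem av_le (h : Chart F k z₀ R A L m i) {δ : ℝ} (hδ : 0 < δ) (hδR : δ ≤ R)
    (g : ℝ → ℝ) {K : Set (EuclideanSpace ℝ (Fin (d + 1)))} (hK : K ⊆ ball z₀ R)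
    (y : EuclideanSpace ℝ (Fin (d + 1))) :
    av δ (K.indicator fun x => g (F x)) (EuclideanSpace.single i (1:ℝ)) y ≤
      ENNReal.ofReal (1 / (2 * δ * m)) * (ball z₀ (2 * R)).indicator
        (fun y => ∫⁻ u in Icc (-(L * δ)) (L * δ), ‖g (F y + u)‖ₑ) y := by
  set v : EuclideanSpace ℝ (Fin (d + 1)) := EuclideanSpace.single i (1:ℝ) with hv
  have hv1 : ‖v‖ = 1 := by rw [hv]; simp
  have hm := h.m0
  have hR := h.R0
  have hnear : ∀ u ∈ Icc (-δ) δ, dist (y + u • v) y ≤ R := by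
    intro u hu
    rw [dist_eq_norm, add_sub_cancel_left, norm_smul, hv1, mul_one, Real.norm_eq_abs]
    exact (abs_le.2 hu).trans hδR
  by_cases hy : y ∈ ball z₀ (2 * R)
  · rw [indicator_of_mem hy]
    have hin : ∀ u ∈ Icc (-δ) δ, y + u • v ∈ ball z₀ (4 * R) := by
      intro u hu
      have h1 := hnear u hu
      rw [mem_ball] at hy ⊢
      linarith [dist_triangle (y + u • v) y z₀]
    have hy4 : y ∈ ball z₀ (4 * R) := by
      rw [mem_ball] at hy ⊢; linarith
    have h1 : ∫⁻ u in Icc (-δ) δ, ‖K.indicator (fun x => g (F x)) (y + u • v)‖ₑ ≤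
        ∫⁻ u in Icc (-δ) δ, ‖g (F (y + u • v))‖ₑ := by
      apply lintegral_mono
      intro u
      show ‖K.indicator (fun x => g (F x)) (y + u • v)‖ₑ ≤ ‖g (F (y + u • v))‖ₑ
      by_cases hu : y + u • v ∈ K
      · rw [indicator_of_mem hu]
      · rw [indicator_of_notMem hu, enorm_zero]; exact zero_le
    have h2 := lint_comp_le (I := Icc (-δ) δ) ordConnected_Icc (φ := fun u => F (y + u • v))
      (φ' := fun u => fderiv ℝ F (y + u • v) v) hm
      (fun u hu => (deriv_line h y u (hin u hu)).1) (fun u hu => (deriv_line h y u (hin u hu)).2.1)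
      (fun s => ‖g s‖ₑ) (J := Icc (F y - L * δ) (F y + L * δ)) (by
        intro u hu
        have h3 := h.lip _ (hin u hu) _ hy4
        rw [add_sub_cancel_left, norm_smul, hv1, mul_one, Real.norm_eq_abs] at h3
        have h4 : L * |u| ≤ L * δ := mul_le_mul_of_nonneg_left (abs_le.2 hu) h.L0
        have h5 := abs_le.1 (h3.trans h4)
        constructor
        · linarith [h5.1]
        · linarith [h5.2])
    rw [← lint_shift (fun s => ‖g s‖ₑ) (F y) (L * δ)] at h2
    unfold av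
    calc ENNReal.ofReal (1 / (2 * δ)) *
          ∫⁻ u in Icc (-δ) δ, ‖K.indicator (fun x => g (F x)) (y + u • v)‖ₑ
        ≤ ENNReal.ofReal (1 / (2 * δ)) * (ENNReal.ofReal (1 / m) *
          ∫⁻ u in Icc (-(L * δ)) (L * δ), ‖g (F y + u)‖ₑ) := by
          gcongr
          exact h1.trans h2
      _ = _ := by
          rw [← mul_assoc, ← ENNReal.ofReal_mul (by positivity)]
          congr 2
          field_simp
  · rw [indicator_of_notMem hy, mul_zero]
    have h5 : ∀ u ∈ Icc (-δ) δ, ‖K.indicator (fun x => g (F x)) (y + u • v)‖ₑ = 0 := by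
      intro u hu
      rw [indicator_of_notMem, enorm_zero]
      intro hmem
      apply hy
      have h6 := hK hmem
      have h7 := hnear u hu
      rw [mem_ball] at h6 ⊢
      rw [dist_comm] at h7
      linarith [dist_triangle y (y + u • v) z₀]
    unfold av
    rw [setLIntegral_congr_fun measurableSet_Icc h5]
    simp

theorem mem_JJ {s x : ℝ} {j : ℤ} : x ∈ JJ s j ↔ |x - ((j : ℝ) + 1) * s| < s := by
  unfold JJ
  rw [abs_lt, mem_Ioo]
  constructor
  · rintro ⟨h1, h2⟩
    constructor <;> nlinarith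
  · rintro ⟨h1, h2⟩
    constructor <;> nlinarith

/-- the part of a line in a small ball -/
theorem line_ball (h : Chart F k z₀ R A L m i) {δ r : ℝ} (hδ : 0 < δ) (hδ1 : δ ≤ 1)
    (hr : 0 < r) (hrR : r ≤ R) (hrδ : A * (2 * r) ^ (k + 1) ≤ δ) {K K' : ℕ}
    (hK : (1 / 2 : ℝ) ^ K ≤ δ) (hK' : 4 * L + 12 < 2 ^ K' * δ)
    {p : EuclideanSpace ℝ (Fin (d + 1))} (hp : p ∈ ball z₀ (2 * R))
    {e : EuclideanSpace ℝ (Fin (d + 1))} (he : ‖e‖ = 1) (z : EuclideanSpace ℝ (Fin (d + 1)))
    (G : ℝ → ℝ≥0∞) (hG : Measurable G) (W : ℝ≥0∞)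
    (hW : ∀ kk < K', ∀ j : ℤ, ENNReal.ofReal (1 / sc (2 * (2 * L + 5)) δ kk) *
      (∫⁻ s in JJ (sc (2 * (2 * L + 5)) δ kk) j, G s) *
        segMax (pc F k p (((j : ℝ) + 1) * sc (2 * (2 * L + 5)) δ kk) r
          (sc (2 * (2 * L + 5)) δ kk)) e ≤ W) :
    ∫⁻ t in {t : ℝ | t ∈ Icc (0:ℝ) 1 ∧ ‖z + t • e - p‖ < 2 * r},
        (∫⁻ u in Icc (-(L * δ)) (L * δ), G (F (z + t • e) + u)) ≤
      ((2 * k * (K + 1) + 1 : ℕ) : ℝ≥0∞) *
        (ENNReal.ofReal ((2 * L + 3) * δ * (4 * (2 * L + 5))) * W) := by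
  obtain ⟨q, hqd, hq⟩ := exists_line (tp F k p) z e
  have hqd' : q.natDegree ≤ k := hqd.trans (tp_deg F k p)
  have hL := h.L0
  set T : Set ℝ := {t : ℝ | t ∈ Icc (0:ℝ) 1 ∧ ‖z + t • e - p‖ < 2 * r} with hT
  have hTo : T.OrdConnected := by
    have h1 : T = Icc 0 1 ∩ (fun t : ℝ => AffineMap.lineMap z (z + e) t) ⁻¹' ball p (2 * r) := by
      ext t
      simp only [hT, mem_ofPred_eq, mem_inter_iff, mem_preimage, mem_ball, dist_eq_norm,
        AffineMap.lineMap_apply, vsub_eq_sub, vadd_eq_add, add_sub_cancel_left]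
      rw [add_comm (t • e) z]
    rw [h1]
    apply OrdConnected.inter ordConnected_Icc
    exact ((convex_ball p (2 * r)).affine_preimage (AffineMap.lineMap z (z + e))).ordConnected
  have hT01 : T ⊆ Icc 0 1 := fun t ht => ht.1
  have hball : ∀ t ∈ T, z + t • e ∈ ball z₀ (4 * R) := by
    intro t ht
    have h1 := ht.2
    rw [mem_ball] at hp ⊢
    rw [← dist_eq_norm] at h1
    linarith [dist_triangle (z + t • e) p z₀]
  have hpb : p ∈ ball z₀ (4 * R) := by
    have := h.R0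
    rw [mem_ball] at hp ⊢; linarith
  have htay : ∀ t ∈ T, |F (z + t • e) - q.eval t| ≤ δ := by
    intro t ht
    have h1 := taylor (convex_ball z₀ (4 * R)) h.smooth h.bound (hball t ht) hpb
    rw [hq]
    refine h1.trans (le_trans ?_ hrδ)
    have := h.A0
    gcongr
    exact ht.2.le
  have hlip : ∀ t ∈ T, ∀ t' ∈ T, |q.eval t - q.eval t'| ≤ L * |t - t'| + 2 * δ := by
    intro t ht t' ht'
    have h1 := abs_le.1 (htay t ht)
    have h2 := abs_le.1 (htay t' ht')
    have h3 := h.lip _ (hball t ht) _ (hball t' ht')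
    have h4 : z + t • e - (z + t' • e) = (t - t') • e := by rw [sub_smul]; abel
    rw [h4, norm_smul, he, mul_one, Real.norm_eq_abs] at h3
    have h5 := abs_le.1 h3
    rw [abs_le]
    constructor <;> linarith [h1.1, h1.2, h2.1, h2.2, h5.1, h5.2]
  have h1 := oneD q hqd' (M := L + 1) hδ hδ1 hL (by linarith) hK hK' hTo hT01 hlip G hG W (by
    intro kk hkk j
    have e0 : 2 * (L + 4 + (L + 1)) = 2 * (2 * L + 5) := by ring
    rw [e0]
    refine le_trans ?_ (hW kk hkk j)
    gcongr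
    refine le_trans (measure_mono ?_) (le_iSup (fun z : EuclideanSpace ℝ (Fin (d + 1)) =>
      volume {s : ℝ | s ∈ Icc 0 1 ∧ z + s • e ∈ pc F k p (((j : ℝ) + 1) *
        sc (2 * (2 * L + 5)) δ kk) r (sc (2 * (2 * L + 5)) δ kk)}) z)
    rintro t ⟨ht1, ht2⟩
    refine ⟨ht1.1, ht1.2, ?_⟩
    rw [mem_JJ, hq] at ht2
    exact ht2)
  have e1 : (1 + 2 * (L + 1)) * δ * (4 * (L + 4 + (L + 1))) =
      (2 * L + 3) * δ * (4 * (2 * L + 5)) := by ring
  rw [e1] at h1
  refine le_trans (setLIntegral_mono' hTo.measurableSet ?_) h1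
  intro t ht
  rw [lint_shift, lint_shift]
  apply lintegral_mono_set
  have h2 := abs_le.1 (htay t ht)
  intro x hx
  constructor
  · linarith [h2.1, h2.2, hx.1]
  · linarith [h2.1, h2.2, hx.2]

end Pool.Agent.H668.Fol
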