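import Pool.Agent.H668.Fol.Params

/-!
# Foliated functions: the local estimate
-/

set_option autoImplicit false

open MeasureTheory Set Filter Topology ENNReal NNReal Metric

namespace Pool.Agent.H668.Fol

open Pool.Agent.W770.SA Pool.Agent.R251.Lam

variable {d : ℕ} {F : EuclideanSpace ℝ (Fin (d + 1)) → ℝ} {k : ℕ}
  {z₀ : EuclideanSpace ℝ (Fin (d + 1))} {R A L m : ℝ} {i : Fin (d + 1)}

/-- the real form of the constant -/
theorem const_real {δ₀ : ℝ} (hδ₀ : 0 < δ₀) (hm : 0 < m) (hL : 0 ≤ L) (N K : ℕ) (I : ℝ≥0∞) :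
    (6 * 2 ^ (d + 1) * ENNReal.ofReal (1 / (2 * δ₀ * m))) ^ (d + 1) *
      ((6 * (N : ℝ≥0∞) ^ d * (((2 * k * (K + 1) + 1 : ℕ) : ℝ≥0∞) *
        ENNReal.ofReal ((2 * L + 3) * δ₀ * (4 * (2 * L + 5)))) ^ (d + 1)) *
      (K * (Gam d k K m * (2 ^ (d + 1) * I)))) =
    ENNReal.ofReal ((6 * 2 ^ (d + 1) * (1 / (2 * δ₀ * m))) ^ (d + 1) *
      ((6 * (N : ℝ) ^ d * (((2 * k * (K + 1) + 1 : ℕ) : ℝ) *
        ((2 * L + 3) * δ₀ * (4 * (2 * L + 5)))) ^ (d + 1)) *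
      (K * ((6 ^ (d + 1) * (sig (d + 1) univ).toReal +
        K * (cD d k * (6 ^ (d + 1) * 8 ^ (d + 1) / m))) * 2 ^ (d + 1))))) * I := by
  have hcD := cD_nonneg d k
  have e6 : (6:ℝ≥0∞) * 2 ^ (d + 1) = ENNReal.ofReal (6 * 2 ^ (d + 1)) := by
    rw [ENNReal.ofReal_mul (by norm_num), ENNReal.ofReal_pow (by norm_num)]
    simp
  have e2 : (2:ℝ≥0∞) ^ (d + 1) = ENNReal.ofReal (2 ^ (d + 1)) := by
    rw [ENNReal.ofReal_pow (by norm_num)]
    simp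
  have eN : 6 * (N : ℝ≥0∞) ^ d = ENNReal.ofReal (6 * (N : ℝ) ^ d) := by
    rw [ENNReal.ofReal_mul (by norm_num), ENNReal.ofReal_pow (by positivity),
      ENNReal.ofReal_natCast]
    simp
  have eG : Gam d k K m = ENNReal.ofReal (6 ^ (d + 1) * (sig (d + 1) univ).toReal +
        K * (cD d k * (6 ^ (d + 1) * 8 ^ (d + 1) / m))) := by
    unfold Gam
    rw [ENNReal.ofReal_add (by positivity) (by positivity),
      ENNReal.ofReal_mul (p := 6 ^ (d + 1)) (by positivity),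
      ENNReal.ofReal_toReal sig_univ_lt_top.ne, ENNReal.ofReal_mul (Nat.cast_nonneg K),
      ENNReal.ofReal_natCast]
  rw [e6, e2, eG, eN, ← ENNReal.ofReal_mul (by positivity), ← ENNReal.ofReal_pow (by positivity),
    ← ENNReal.ofReal_natCast (2 * k * (K + 1) + 1),
    ← ENNReal.ofReal_natCast K,
    ← ENNReal.ofReal_mul (p := ((2 * k * (K + 1) + 1 : ℕ) : ℝ)) (by positivity),
    ← ENNReal.ofReal_pow (by positivity),
    ← ENNReal.ofReal_mul (p := 6 * (N : ℝ) ^ d) (by positivity)]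
  rw [ENNReal.ofReal_mul (p := (6 * 2 ^ (d + 1) * (1 / (2 * δ₀ * m))) ^ (d + 1)) (by positivity),
    ENNReal.ofReal_mul (p := 6 * (N : ℝ) ^ d * (((2 * k * (K + 1) + 1 : ℕ) : ℝ) *
        ((2 * L + 3) * δ₀ * (4 * (2 * L + 5)))) ^ (d + 1)) (by positivity),
    ENNReal.ofReal_mul (p := (K : ℝ)) (by positivity),
    ENNReal.ofReal_mul (p := 6 ^ (d + 1) * (sig (d + 1) univ).toReal +
        K * (cD d k * (6 ^ (d + 1) * 8 ^ (d + 1) / m))) (by positivity)]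
  ring

theorem local_bound (h : Chart F k z₀ R A L m i) (ε : ℝ) (hε : 0 < ε) :
    ∃ C : ℝ, 0 < C ∧ ∀ δ : ℝ, 0 < δ → δ < 1 → ∀ B : Set (EuclideanSpace ℝ (Fin (d + 1))),
      B ⊆ ball z₀ R → MeasurableSet B → ∀ g : ℝ → ℝ, Measurable g →
      ∃ Ψ : sphere (0 : EuclideanSpace ℝ (Fin (d + 1))) 1 → ℝ≥0∞, Measurable Ψ ∧
        (∀ e : sphere (0 : EuclideanSpace ℝ (Fin (d + 1))) 1,
        kakeyaMax δ (B.indicator fun x => g (F x)) (e : EuclideanSpace ℝ (Fin (d + 1))) ^ (d + 1)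
          ≤ Ψ e) ∧
        ∫⁻ e, Ψ e ∂(sig (d + 1)) ≤
        ENNReal.ofReal (C * δ ^ (-((d:ℝ) / (k + 1) + ε))) *
          ∫⁻ x, ‖g x‖ₑ ^ (d + 1) := by
  have hR := h.R0
  have hR1 := h.R1
  have hm := h.m0
  have hA := h.A0
  have hL := h.L0
  have hcD := cD_nonneg d k
  set ε' : ℝ := ε / (2 * (d + 3)) with hε'
  have hε'0 : 0 < ε' := by positivity
  obtain ⟨C₀, hC₀, hsc⟩ := few_scales ε' hε'0
  set c₀ : ℝ := R / (2 * (A + 1)) with hc₀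
  have hc₀0 : 0 < c₀ := by positivity
  have hc₀R : c₀ ≤ R := by
    rw [hc₀, div_le_iff₀ (by positivity)]
    nlinarith
  set c₁ : ℝ := c₀ * R / (4 * L + 13) with hc₁
  have hc₁0 : 0 < c₁ := by positivity
  set C₂ : ℝ := 6 * 2 ^ (d + 1) * (2 * k + 1) * ((2 * L + 3) * (2 * (2 * L + 5)) / m) with hC₂
  have hC₂0 : 0 < C₂ := by positivity
  set C₃ : ℝ := 6 ^ (d + 1) * (sig (d + 1) univ).toReal +
        cD d k * (6 ^ (d + 1) * 8 ^ (d + 1) / m) with hC₃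
  have hC₃0 : 0 ≤ C₃ := by positivity
  set C₄ : ℝ := 6 * (2 / c₀) ^ d * C₂ ^ (d + 1) * (C₃ * 2 ^ (d + 1)) with hC₄
  have hC₄0 : 0 ≤ C₄ := by positivity
  set C₅ : ℝ := C₀ * c₁ ^ (-ε') with hC₅
  have hC₅0 : 0 < C₅ := by positivity
  refine ⟨C₄ * C₅ ^ (d + 3) + 1, by positivity, ?_⟩
  intro δ hδ hδ1 B hB hBm g hg
  set α : ℝ := 1 / ((k:ℝ) + 1) with hα
  have hα0 : 0 < α := by positivity
  have hα1 : α ≤ 1 := by
    rw [hα, div_le_one (by positivity)]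
    have : (0:ℝ) ≤ k := Nat.cast_nonneg k
    linarith
  set y : ℝ := δ ^ α with hy
  have hy0 : 0 < y := by positivity
  have hy1 : y ≤ 1 := Real.rpow_le_one hδ.le hδ1.le hα0.le
  have hyk : y ^ (k + 1) = δ := by
    rw [hy, ← Real.rpow_natCast, ← Real.rpow_mul hδ.le, hα]
    push_cast
    rw [one_div_mul_cancel (by positivity), Real.rpow_one]
  have hδy : δ ≤ y := by
    calc δ = δ ^ (1:ℝ) := (Real.rpow_one δ).symm
      _ ≤ δ ^ α := Real.rpow_le_rpow_of_exponent_ge hδ hδ1.le hα1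
  set r : ℝ := c₀ * y with hr
  have hr0 : 0 < r := by positivity
  have hrc : r ≤ c₀ := by
    calc r = c₀ * y := rfl
      _ ≤ c₀ * 1 := by gcongr
      _ = c₀ := mul_one _
  have hrR : r ≤ R := hrc.trans hc₀R
  set δ₀ : ℝ := R * δ with hδ₀
  have hδ₀0 : 0 < δ₀ := by positivity
  have hδ₀δ : δ₀ ≤ δ := by
    calc δ₀ = R * δ := rfl
      _ ≤ 1 * δ := by gcongr
      _ = δ := one_mul _
  have hδ₀R : δ₀ ≤ R := by
    calc δ₀ = R * δ := rfl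
      _ ≤ R * 1 := by gcongr
      _ = R := mul_one _
  have hrδ : A * (2 * r) ^ (k + 1) ≤ δ₀ := by
    have h1 : 2 * r = (R / (A + 1)) * y := by
      rw [hr, hc₀]
      field_simp
    have h2 : (R / (A + 1)) ^ (k + 1) ≤ R / (A + 1) := by
      have h3 : R / (A + 1) ≤ 1 := by
        rw [div_le_one (by positivity)]; linarith
      calc (R / (A + 1)) ^ (k + 1) ≤ (R / (A + 1)) ^ 1 :=
            pow_le_pow_of_le_one (by positivity) h3 (by omega)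
        _ = _ := pow_one _
    have h4 : A * (R / (A + 1)) ≤ R := by
      rw [← mul_div_assoc, div_le_iff₀ (by positivity)]
      nlinarith
    rw [h1, mul_pow, hyk]
    calc A * ((R / (A + 1)) ^ (k + 1) * δ) ≤ A * ((R / (A + 1)) * δ) := by gcongr
      _ = (A * (R / (A + 1))) * δ := by ring
      _ ≤ R * δ := by gcongr
  set x : ℝ := r * δ₀ / (4 * L + 13) with hx
  have hx0 : 0 < x := by positivity
  have hx1 : x ≤ 1 := by
    rw [hx, div_le_one (by positivity)]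
    have : r * δ₀ ≤ 1 * 1 := by
      apply mul_le_mul (hrR.trans hR1) (hδ₀R.trans hR1) hδ₀0.le zero_le_one
    linarith
  have hxc : c₁ * (δ * δ) ≤ x := by
    have h1 : x = c₁ * (y * δ) := by
      rw [hx, hc₁, hr, hδ₀]
      field_simp
    rw [h1]
    gcongr
  obtain ⟨K, hK1, hK2⟩ := hsc x hx0 hx1
  have hKC : (K : ℝ) + 1 ≤ C₅ * δ ^ (-(2 * ε')) := by
    refine hK2.trans ?_
    have h1 : x ^ (-ε') ≤ (c₁ * (δ * δ)) ^ (-ε') :=
      Real.rpow_le_rpow_of_nonpos (by positivity) hxc (by linarith)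
    have h2 : (c₁ * (δ * δ)) ^ (-ε') = c₁ ^ (-ε') * δ ^ (-(2 * ε')) := by
      rw [Real.mul_rpow (by positivity) (by positivity), Real.mul_rpow hδ.le hδ.le,
        ← Real.rpow_add hδ]
      congr 2
      ring
    calc C₀ * x ^ (-ε') ≤ C₀ * (c₁ ^ (-ε') * δ ^ (-(2 * ε'))) := by
          gcongr
          exact h1.trans h2.le
      _ = _ := by rw [hC₅]; ring
  set N : ℕ := ⌈1 / r⌉₊ with hN
  have hN0 : 0 < N := Nat.ceil_pos.2 (by positivity)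
  have hN0' : (0:ℝ) < N := by exact_mod_cast hN0
  have hNr : 1 / (N : ℝ) ≤ r := by
    rw [div_le_iff₀ hN0']
    have := Nat.le_ceil (1 / r)
    rw [div_le_iff₀ hr0] at this
    linarith
  have hN2 : (N : ℝ) ≤ (2 / c₀) * y⁻¹ := by
    have h1 : (N : ℝ) < 1 / r + 1 := Nat.ceil_lt_add_one (by positivity)
    have h2 : 1 ≤ 1 / r := by
      rw [le_div_iff₀ hr0]; linarith
    have h3 : (2 / c₀) * y⁻¹ = 2 * (1 / r) := by
      rw [hr]; field_simp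
    linarith
  have hNr2 : (N : ℝ) * r ≤ 2 := by
    have h1 : (N : ℝ) < 1 / r + 1 := Nat.ceil_lt_add_one (by positivity)
    calc (N : ℝ) * r ≤ (1 / r + 1) * r := by gcongr
      _ = 1 + r := by field_simp
      _ ≤ 2 := by linarith
  obtain ⟨Ψ, hΨ1, hΨ2, hΨ3⟩ :=
    chart_bound h hδ1.le hδ₀0 hδ₀δ hδ₀R hr0 hrR hrδ hK1 hN0 hNr hNr2 hB hBm hg
  refine ⟨Ψ, hΨ1, hΨ2, hΨ3.trans ?_⟩
  rw [const_real hδ₀0 hm hL]
  refine mul_le_mul_left (ENNReal.ofReal_le_ofReal ?_) _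
  -- the real inequality
  have hK0 : (0:ℝ) ≤ K := Nat.cast_nonneg K
  have hk0 : (0:ℝ) ≤ k := Nat.cast_nonneg k
  have e1 : (6 * 2 ^ (d + 1) * (1 / (2 * δ₀ * m))) * (((2 * k * (K + 1) + 1 : ℕ) : ℝ) *
        ((2 * L + 3) * δ₀ * (4 * (2 * L + 5)))) =
      6 * 2 ^ (d + 1) * (2 * k * (K + 1) + 1) * ((2 * L + 3) * (2 * (2 * L + 5)) / m) := by
    push_cast
    field_simp
    ring
  have e2 : 6 * 2 ^ (d + 1) * (2 * k * ((K:ℝ) + 1) + 1) * ((2 * L + 3) * (2 * (2 * L + 5)) / m) ≤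
      C₂ * (K + 1) := by
    have h1 : 2 * (k:ℝ) * ((K:ℝ) + 1) + 1 ≤ (2 * k + 1) * (K + 1) := by nlinarith
    calc 6 * 2 ^ (d + 1) * (2 * k * ((K:ℝ) + 1) + 1) * ((2 * L + 3) * (2 * (2 * L + 5)) / m)
        ≤ 6 * 2 ^ (d + 1) * ((2 * k + 1) * (K + 1)) * ((2 * L + 3) * (2 * (2 * L + 5)) / m) := by
          gcongr
      _ = _ := by rw [hC₂]; ring
  have eN : 6 * (N:ℝ) ^ d ≤ 6 * ((2 / c₀) * y⁻¹) ^ d := by gcongr
  have e3 : (K:ℝ) * ((6 ^ (d + 1) * (sig (d + 1) univ).toReal +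
        K * (cD d k * (6 ^ (d + 1) * 8 ^ (d + 1) / m))) * 2 ^ (d + 1)) ≤
      (K + 1) ^ 2 * (C₃ * 2 ^ (d + 1)) := by
    have h1 : 6 ^ (d + 1) * (sig (d + 1) univ).toReal +
        K * (cD d k * (6 ^ (d + 1) * 8 ^ (d + 1) / m)) ≤ (K + 1) * C₃ := by
      have h2 : 0 ≤ 6 ^ (d + 1) * (sig (d + 1) univ).toReal := by positivity
      have h3 : 0 ≤ cD d k * (6 ^ (d + 1) * 8 ^ (d + 1) / m) := by positivity
      rw [hC₃]
      nlinarith [mul_nonneg hK0 h2]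
    calc (K:ℝ) * ((6 ^ (d + 1) * (sig (d + 1) univ).toReal +
        K * (cD d k * (6 ^ (d + 1) * 8 ^ (d + 1) / m))) * 2 ^ (d + 1))
        ≤ (K + 1) * (((K + 1) * C₃) * 2 ^ (d + 1)) := by
          gcongr
          linarith
      _ = _ := by ring
  have hδe : (δ ^ (-(2 * ε'))) ^ (d + 3) = δ ^ (-ε) := by
    rw [← Real.rpow_natCast, ← Real.rpow_mul hδ.le]
    congr 1
    rw [hε']
    push_cast
    field_simp
  have hye : (y⁻¹) ^ d = δ ^ (-((d:ℝ) / (k + 1))) := by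
    rw [hy, ← Real.rpow_neg hδ.le, ← Real.rpow_natCast, ← Real.rpow_mul hδ.le]
    congr 1
    rw [hα]
    push_cast
    field_simp
  calc (6 * 2 ^ (d + 1) * (1 / (2 * δ₀ * m))) ^ (d + 1) *
      ((6 * (N : ℝ) ^ d * (((2 * k * (K + 1) + 1 : ℕ) : ℝ) *
        ((2 * L + 3) * δ₀ * (4 * (2 * L + 5)))) ^ (d + 1)) *
      (K * ((6 ^ (d + 1) * (sig (d + 1) univ).toReal +
        K * (cD d k * (6 ^ (d + 1) * 8 ^ (d + 1) / m))) * 2 ^ (d + 1))))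
      = (6 * (N : ℝ) ^ d) * ((6 * 2 ^ (d + 1) * (1 / (2 * δ₀ * m))) *
        (((2 * k * (K + 1) + 1 : ℕ) : ℝ) *
        ((2 * L + 3) * δ₀ * (4 * (2 * L + 5))))) ^ (d + 1) *
        (K * ((6 ^ (d + 1) * (sig (d + 1) univ).toReal +
        K * (cD d k * (6 ^ (d + 1) * 8 ^ (d + 1) / m))) * 2 ^ (d + 1))) := by
        rw [mul_pow (6 * 2 ^ (d + 1) * (1 / (2 * δ₀ * m)))]
        ring
    _ ≤ (6 * ((2 / c₀) * y⁻¹) ^ d) * (C₂ * (K + 1)) ^ (d + 1) *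
          ((K + 1) ^ 2 * (C₃ * 2 ^ (d + 1))) := by
        rw [e1]
        gcongr
    _ = C₄ * (y⁻¹) ^ d * ((K:ℝ) + 1) ^ (d + 3) := by
        rw [hC₄, mul_pow, mul_pow]
        ring
    _ ≤ C₄ * (y⁻¹) ^ d * (C₅ * δ ^ (-(2 * ε'))) ^ (d + 3) := by gcongr
    _ = C₄ * C₅ ^ (d + 3) * (δ ^ (-((d:ℝ) / (k + 1))) * δ ^ (-ε)) := by
        rw [mul_pow, hδe, hye]
        ring
    _ = C₄ * C₅ ^ (d + 3) * δ ^ (-((d:ℝ) / (k + 1) + ε)) := by
        rw [← Real.rpow_add hδ]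
        congr 2
        ring
    _ ≤ (C₄ * C₅ ^ (d + 3) + 1) * δ ^ (-((d:ℝ) / (k + 1) + ε)) := by
        gcongr
        linarith

end Pool.Agent.H668.Fol
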