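import Pool.Agent.H668.Fol.Local

/-!
# Foliated functions: the norm of `g` and the norm of `g ∘ F`
-/

set_option autoImplicit false

open MeasureTheory Set Filter Topology ENNReal NNReal Metric

namespace Pool.Agent.H668.Fol

open Pool.Agent.W770.SA Pool.Agent.R251.Lam

variable {d : ℕ} {F : EuclideanSpace ℝ (Fin (d + 1)) → ℝ} {k : ℕ}
  {z₀ : EuclideanSpace ℝ (Fin (d + 1))} {R A L m : ℝ} {i : Fin (d + 1)}

theorem shrink (h : Chart F k z₀ R A L m i) {R' : ℝ} (hR' : 0 < R') (hle : R' ≤ R) :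
    Chart F k z₀ R' A L m i := by
  have hs : ball z₀ (4 * R') ⊆ ball z₀ (4 * R) := ball_subset_ball (by linarith)
  exact ⟨hR', hle.trans h.R1, h.m0, h.A0, h.L0, fun x hx => h.smooth x (hs hx),
    fun x hx => h.bound x (hs hx), fun x hx y hy => h.lip x (hs hx) y (hs hy),
    fun x hx t ht => h.anti x (hs hx) t (hs ht)⟩

/-- on the lines of the coordinate direction `F` takes all the values near `F z₀` -/
theorem line_lower (h : Chart F k z₀ R A L m i) {y : EuclideanSpace ℝ (Fin (d + 1))}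
    (hy : y ∈ ball z₀ R) (hyF : |F y - F z₀| ≤ m * R / 2) (H : ℝ → ℝ≥0∞) :
    ∫⁻ s in Icc (F z₀ - m * R / 2) (F z₀ + m * R / 2), H s ≤
      ENNReal.ofReal L * ∫⁻ t in Icc (-R) R, H (F (y + t • EuclideanSpace.single i (1:ℝ))) := by
  have hR := h.R0
  have hm := h.m0
  set v : EuclideanSpace ℝ (Fin (d + 1)) := EuclideanSpace.single i (1:ℝ) with hv
  have hv1 : ‖v‖ = 1 := by rw [hv]; simp
  have hin : ∀ t ∈ Icc (-R) R, y + t • v ∈ ball z₀ (4 * R) := by
    intro t ht
    have h1 : dist (y + t • v) y ≤ R := by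
      rw [dist_eq_norm, add_sub_cancel_left, norm_smul, hv1, mul_one, Real.norm_eq_abs]
      exact abs_le.2 ht
    rw [mem_ball] at hy ⊢
    linarith [dist_triangle (y + t • v) y z₀]
  set φ : ℝ → ℝ := fun t => F (y + t • v) with hφ
  have hder : ∀ t ∈ Icc (-R) R, HasDerivAt φ (fderiv ℝ F (y + t • v) v) t := fun t ht =>
    (deriv_line h y t (hin t ht)).1
  have hcont : ContinuousOn φ (Icc (-R) R) := fun t ht =>
    (hder t ht).continuousAt.continuousWithinAt
  have hexp : ∀ t ∈ Icc (-R) R, ∀ t' ∈ Icc (-R) R, m * |t - t'| ≤ |φ t - φ t'| := by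
    intro t ht t' ht'
    have e1 : y + t • v = (y + t' • v) + (t - t') • v := by rw [sub_smul]; abel
    have := h.anti _ (hin t' ht') (t - t') (by rw [← e1]; exact hin t ht)
    rw [← e1] at this
    exact this
  have hinj : InjOn φ (Icc (-R) R) := by
    intro t ht t' ht' heq
    have h1 := hexp t ht t' ht'
    have h2 : φ t - φ t' = 0 := sub_eq_zero.2 heq
    rw [h2, abs_zero] at h1
    have h3 : |t - t'| ≤ 0 := by
      by_contra hcon
      push Not at hcon
      have := mul_pos hm hcon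
      linarith
    exact sub_eq_zero.1 (abs_nonpos_iff.1 h3)
  have h0 : (0:ℝ) ∈ Icc (-R) R := ⟨by linarith, hR.le⟩
  have hRm : R ∈ Icc (-R) R := ⟨by linarith, le_rfl⟩
  have hRn : -R ∈ Icc (-R) R := ⟨le_rfl, by linarith⟩
  have hφ0 : φ 0 = F y := by simp [hφ]
  have e1 := hexp R hRm 0 h0
  have e2 := hexp 0 h0 (-R) hRn
  rw [hφ0] at e1 e2
  rw [sub_zero, abs_of_pos hR] at e1
  rw [zero_sub, neg_neg, abs_of_pos hR] at e2
  have hyF' := abs_le.1 hyF
  have hsub : Icc (F z₀ - m * R / 2) (F z₀ + m * R / 2) ⊆ φ '' Icc (-R) R := by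
    rcases hcont.strictMonoOn_of_injOn_Icc' (by linarith) hinj with hmono | hanti
    · have h1 : φ 0 < φ R := hmono h0 hRm hR
      have h2 : φ (-R) < φ 0 := hmono hRn h0 (by linarith)
      rw [hφ0] at h1 h2
      rw [abs_of_pos (by linarith)] at e1 e2
      refine subset_trans ?_ (intermediate_value_Icc (by linarith) hcont)
      apply Icc_subset_Icc <;> linarith [hyF'.1, hyF'.2]
    · have h1 : φ R < φ 0 := hanti h0 hRm hR
      have h2 : φ 0 < φ (-R) := hanti hRn h0 (by linarith)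
      rw [hφ0] at h1 h2
      rw [abs_of_neg (by linarith)] at e1 e2
      refine subset_trans ?_ (intermediate_value_Icc' (by linarith) hcont)
      apply Icc_subset_Icc <;> linarith [hyF'.1, hyF'.2]
  calc ∫⁻ s in Icc (F z₀ - m * R / 2) (F z₀ + m * R / 2), H s
      ≤ ∫⁻ s in φ '' Icc (-R) R, H s := lintegral_mono_set hsub
    _ = ∫⁻ t in Icc (-R) R, ENNReal.ofReal |fderiv ℝ F (y + t • v) v| * H (φ t) :=
        lintegral_image_eq_lintegral_abs_deriv_mul measurableSet_Icc
          (fun t ht => (hder t ht).hasDerivWithinAt) hinj H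
    _ ≤ ∫⁻ t in Icc (-R) R, ENNReal.ofReal L * H (φ t) := by
        apply setLIntegral_mono' measurableSet_Icc
        intro t ht
        gcongr
        exact (deriv_line h y t (hin t ht)).2.2
    _ = ENNReal.ofReal L * ∫⁻ t in Icc (-R) R, H (φ t) :=
        lintegral_const_mul' _ _ ENNReal.ofReal_ne_top

/-- the integral over the values is bounded by the integral over the points -/
theorem lower (h : Chart F k z₀ R A L m i) :
    ∃ ρ C : ℝ, 0 < ρ ∧ ρ ≤ R ∧ 0 < C ∧ (∀ x ∈ ball z₀ ρ, |F x - F z₀| ≤ m * R / 2) ∧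
      ∀ H : ℝ → ℝ≥0∞, Measurable H →
        ∫⁻ s in Icc (F z₀ - m * R / 2) (F z₀ + m * R / 2), H s ≤
          ENNReal.ofReal C * ∫⁻ x in ball z₀ (2 * R), H (F x) := by
  classical
  have hR := h.R0
  have hm := h.m0
  have hL := h.L0
  set ρ : ℝ := min R (m * R / (2 * (L + 1))) with hρ
  have hρ0 : 0 < ρ := lt_min hR (by positivity)
  have hρR : ρ ≤ R := min_le_left _ _
  have hρ2 : L * ρ ≤ m * R / 2 := by
    have h1 : ρ ≤ m * R / (2 * (L + 1)) := min_le_right _ _
    have h2 : L * ρ ≤ L * (m * R / (2 * (L + 1))) := by gcongr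
    have h3 : L * (m * R / (2 * (L + 1))) ≤ m * R / 2 := by
      rw [← mul_div_assoc, div_le_div_iff₀ (by positivity) (by norm_num)]
      have : 0 < m * R := by positivity
      nlinarith
    linarith
  have hval : ∀ x ∈ ball z₀ ρ, |F x - F z₀| ≤ m * R / 2 := by
    intro x hx
    rw [mem_ball, dist_eq_norm] at hx
    have h1 := h.lip x (by rw [mem_ball, dist_eq_norm]; linarith) z₀
      (mem_ball_self (by linarith))
    have h2 : L * ‖x - z₀‖ ≤ L * ρ := by gcongr
    linarith
  set V : ℝ := ρ ^ (d + 1) * omg d with hV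
  have hV0 : 0 < V := by
    have := omg_pos (d := d)
    positivity
  refine ⟨ρ, (2 * R * L + 1) / V, hρ0, hρR, by positivity, hval, ?_⟩
  intro H hH
  set v : EuclideanSpace ℝ (Fin (d + 1)) := EuclideanSpace.single i (1:ℝ) with hv
  have hv1 : ‖v‖ = 1 := by rw [hv]; simp
  set I₀ : ℝ≥0∞ := ∫⁻ s in Icc (F z₀ - m * R / 2) (F z₀ + m * R / 2), H s with hI₀
  set Φ : EuclideanSpace ℝ (Fin (d + 1)) → ℝ≥0∞ := (ball z₀ (2 * R)).indicator fun x => H (F x)
    with hΦ
  have hc : ContinuousOn F (ball z₀ (2 * R)) := fun x hx =>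
    (h.smooth x (ball_subset_ball (by linarith) hx)).continuousAt.continuousWithinAt
  have h1 : Measurable ((ball z₀ (2 * R)).piecewise F (fun _ => 0)) :=
    hc.measurable_piecewise continuousOn_const measurableSet_ball
  have hΦm : Measurable Φ := by
    have h2 : Φ = (ball z₀ (2 * R)).indicator
        fun x => H ((ball z₀ (2 * R)).piecewise F (fun _ => 0) x) := by
      ext x
      by_cases hx : x ∈ ball z₀ (2 * R)
      · rw [hΦ, indicator_of_mem hx, indicator_of_mem hx, piecewise_eq_of_mem _ _ _ hx]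
      · rw [hΦ, indicator_of_notMem hx, indicator_of_notMem hx]
    rw [h2]
    exact (hH.comp h1).indicator measurableSet_ball
  have hline : ∀ y ∈ ball z₀ ρ, I₀ ≤ ENNReal.ofReal L * ∫⁻ t in Icc (-R) R, Φ (y + t • v) := by
    intro y hy
    refine (line_lower h (ball_subset_ball hρR hy) (hval y hy) H).trans (le_of_eq ?_)
    congr 1
    apply setLIntegral_congr_fun measurableSet_Icc
    intro t ht
    have h3 : y + t • v ∈ ball z₀ (2 * R) := by
      have h4 : dist (y + t • v) y ≤ R := by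
        rw [dist_eq_norm, add_sub_cancel_left, norm_smul, hv1, mul_one, Real.norm_eq_abs]
        exact abs_le.2 ht
      rw [mem_ball] at hy ⊢
      linarith [dist_triangle (y + t • v) y z₀]
    show H (F (y + t • v)) = Φ (y + t • v)
    rw [hΦ, indicator_of_mem h3]
  have hmeas : Measurable fun y => ∫⁻ t in Icc (-R) R, Φ (y + t • v) := by
    apply Measurable.lintegral_prod_right'
      (f := fun q : EuclideanSpace ℝ (Fin (d + 1)) × ℝ => Φ (q.1 + q.2 • v))
    exact hΦm.comp (by fun_prop)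
  have hsw : ∫⁻ y, ∫⁻ t in Icc (-R) R, Φ (y + t • v) =
      ∫⁻ t in Icc (-R) R, ∫⁻ y, Φ (y + t • v) := by
    apply lintegral_lintegral_swap
    exact (hΦm.comp (f := fun q : EuclideanSpace ℝ (Fin (d + 1)) × ℝ => q.1 + q.2 • v)
      (by fun_prop)).aemeasurable
  have htr : ∀ t : ℝ, ∫⁻ y, Φ (y + t • v) = ∫⁻ y, Φ y := fun t =>
    lintegral_add_right_eq_self (μ := (volume : Measure (EuclideanSpace ℝ (Fin (d + 1))))) Φ (t • v)
  have key : ENNReal.ofReal V * I₀ ≤ ENNReal.ofReal (2 * R * L) * ∫⁻ y, Φ y := by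
    calc ENNReal.ofReal V * I₀ = ∫⁻ _y in ball z₀ ρ, I₀ := by
          rw [setLIntegral_const, vol_ball z₀ hρ0, mul_comm]
      _ ≤ ∫⁻ y in ball z₀ ρ, ENNReal.ofReal L * ∫⁻ t in Icc (-R) R, Φ (y + t • v) :=
          setLIntegral_mono' measurableSet_ball hline
      _ ≤ ∫⁻ y, ENNReal.ofReal L * ∫⁻ t in Icc (-R) R, Φ (y + t • v) :=
          setLIntegral_le_lintegral _ _
      _ = ENNReal.ofReal L * ∫⁻ t in Icc (-R) R, ∫⁻ y, Φ (y + t • v) := by
          rw [lintegral_const_mul _ hmeas, hsw]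
      _ = ENNReal.ofReal (2 * R * L) * ∫⁻ y, Φ y := by
          simp only [htr]
          rw [setLIntegral_const, Real.volume_Icc, ENNReal.ofReal_mul (by positivity)]
          have : R - -R = 2 * R := by ring
          rw [this]
          ring
  have hΦi : ∫⁻ y, Φ y = ∫⁻ x in ball z₀ (2 * R), H (F x) := by
    rw [hΦ, lintegral_indicator measurableSet_ball]
  rw [hΦi] at key
  calc I₀ = ENNReal.ofReal (1 / V) * (ENNReal.ofReal V * I₀) := by
        rw [← mul_assoc, ← ENNReal.ofReal_mul (by positivity), one_div_mul_cancel hV0.ne',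
          ENNReal.ofReal_one, one_mul]
    _ ≤ ENNReal.ofReal (1 / V) * (ENNReal.ofReal (2 * R * L) *
        ∫⁻ x in ball z₀ (2 * R), H (F x)) := by gcongr
    _ = ENNReal.ofReal (1 / V * (2 * R * L)) * ∫⁻ x in ball z₀ (2 * R), H (F x) := by
        rw [← mul_assoc, ← ENNReal.ofReal_mul (by positivity)]
    _ ≤ _ := by
        gcongr
        rw [div_mul_eq_mul_div, one_mul]
        gcongr
        linarith

end Pool.Agent.H668.Fol
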