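import Pool.Agent.R251.Lam.Main

/-!
# Foliated functions: rescaled charts
-/

set_option autoImplicit false

open MeasureTheory Set Filter Topology ENNReal NNReal Metric

namespace Pool.Agent.H668.Fol

open Pool.Agent.W770.SA Pool.Agent.R251.Lam

variable {d : ℕ} {F : EuclideanSpace ℝ (Fin (d + 1)) → ℝ} {k : ℕ}
  {x : EuclideanSpace ℝ (Fin (d + 1))} {R A L m : ℝ} {i : Fin (d + 1)}

theorem iter_resc (F : EuclideanSpace ℝ (Fin (d + 1)) → ℝ) (z₀ y : EuclideanSpace ℝ (Fin (d + 1)))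
    {ρ s : ℝ} (hρ : 0 < ρ) (hs : 0 < s) (l : ℕ) (hF : ContDiffAt ℝ l F (z₀ + ρ • y)) :
    ‖iteratedFDeriv ℝ l (fun y => s * F (z₀ + ρ • y)) y‖ ≤
      s * ρ ^ l * ‖iteratedFDeriv ℝ l F (z₀ + ρ • y)‖ := by
  set g : EuclideanSpace ℝ (Fin (d + 1)) ≃L[ℝ] EuclideanSpace ℝ (Fin (d + 1)) :=
    ContinuousLinearEquiv.smulLeft (Units.mk0 ρ hρ.ne') with hg
  have hgy : ∀ y, g y = ρ • y := fun y => rfl
  set F₁ : EuclideanSpace ℝ (Fin (d + 1)) → ℝ := fun z => F (z₀ + z) with hF₁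
  have hcomp : (fun y => F (z₀ + ρ • y)) = F₁ ∘ g := by
    ext y; rfl
  have hF' : ContDiffAt ℝ l (fun y => F (z₀ + ρ • y)) y :=
    hF.comp y (by fun_prop)
  have h1 : iteratedFDeriv ℝ l (fun y => s * F (z₀ + ρ • y)) y =
      s • iteratedFDeriv ℝ l (fun y => F (z₀ + ρ • y)) y :=
    iteratedFDeriv_const_smul_apply' (a := s) hF'
  have h2 : iteratedFDeriv ℝ l (F₁ ∘ g) y =
      (iteratedFDeriv ℝ l F₁ (g y)).compContinuousLinearMap fun _ => (g : _ →L[ℝ] _) := by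
    have := g.iteratedFDerivWithin_comp_right (f := F₁) (s := univ) uniqueDiffOn_univ
      (x := y) (mem_univ _) l
    simpa [iteratedFDerivWithin_univ] using this
  have h3 : iteratedFDeriv ℝ l F₁ (g y) = iteratedFDeriv ℝ l F (z₀ + ρ • y) := by
    have := congrFun (iteratedFDeriv_comp_add_left' (𝕜 := ℝ) (f := F) l z₀) (g y)
    exact this
  rw [h1, hcomp, h2, h3, norm_smul, Real.norm_of_nonneg hs.le]
  have hgn : ‖(g : EuclideanSpace ℝ (Fin (d + 1)) →L[ℝ] EuclideanSpace ℝ (Fin (d + 1)))‖ ≤ ρ := by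
    apply ContinuousLinearMap.opNorm_le_bound _ hρ.le
    intro v
    show ‖g v‖ ≤ ρ * ‖v‖
    rw [hgy, norm_smul, Real.norm_of_nonneg hρ.le]
  have h4 := ContinuousMultilinearMap.norm_compContinuousLinearMap_le
    (iteratedFDeriv ℝ l F (z₀ + ρ • y)) (fun _ => (g : EuclideanSpace ℝ (Fin (d + 1)) →L[ℝ]
      EuclideanSpace ℝ (Fin (d + 1))))
  have h5 : ∏ _i : Fin l, ‖(g : EuclideanSpace ℝ (Fin (d + 1)) →L[ℝ]
      EuclideanSpace ℝ (Fin (d + 1)))‖ ≤ ρ ^ l := by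
    rw [Finset.prod_const, Finset.card_univ, Fintype.card_fin]
    gcongr
  calc s * ‖(iteratedFDeriv ℝ l F (z₀ + ρ • y)).compContinuousLinearMap fun _ => (g : _ →L[ℝ] _)‖
      ≤ s * (‖iteratedFDeriv ℝ l F (z₀ + ρ • y)‖ * ρ ^ l) := by
        gcongr
        exact h4.trans (mul_le_mul_of_nonneg_left h5 (norm_nonneg _))
    _ = s * ρ ^ l * ‖iteratedFDeriv ℝ l F (z₀ + ρ • y)‖ := by ring

/-- rescaling of a chart -/
theorem rescale (h : Chart F k x R A L m i) {ρ s : ℝ} (hρ : 0 < ρ) (hs : 0 < s)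
    (z₀ : EuclideanSpace ℝ (Fin (d + 1))) {R' A' L' m' : ℝ} (hR' : R' * ρ = R) (hR'1 : R' ≤ 1)
    (hA' : s * ρ ^ (k + 1) * A ≤ A') (hL' : s * ρ * L = L') (hm' : s * ρ * m = m') :
    Chart (fun y => s * F (z₀ + ρ • y)) k (ρ⁻¹ • (x - z₀)) R' A' L' m' i := by
  have hR := h.R0
  have hR'0 : 0 < R' := by
    by_contra hcon
    push Not at hcon
    nlinarith
  have hball : ∀ y ∈ ball (ρ⁻¹ • (x - z₀)) (4 * R'), z₀ + ρ • y ∈ ball x (4 * R) := by
    intro y hy
    rw [mem_ball, dist_eq_norm] at hy ⊢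
    have h1 : z₀ + ρ • y - x = ρ • (y - ρ⁻¹ • (x - z₀)) := by
      rw [smul_sub, smul_smul, mul_inv_cancel₀ hρ.ne', one_smul]
      abel
    rw [h1, norm_smul, Real.norm_of_nonneg hρ.le, ← hR']
    nlinarith
  refine ⟨hR'0, hR'1, ?_, ?_, ?_, ?_, ?_, ?_, ?_⟩
  · rw [← hm']; have := h.m0; positivity
  · have := h.A0
    exact le_trans (by positivity) hA'
  · rw [← hL']; have := h.L0; positivity
  · intro y hy
    have h1 := h.smooth _ (hball y hy)
    exact contDiffAt_const.mul (h1.comp y (by fun_prop))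
  · intro y hy
    have h1 : ContDiffAt ℝ ((k + 1 : ℕ) : WithTop ℕ∞) F (z₀ + ρ • y) := by
      have := h.smooth _ (hball y hy)
      exact_mod_cast this
    refine (iter_resc F z₀ y hρ hs (k + 1) h1).trans (le_trans ?_ hA')
    have h2 := h.bound _ (hball y hy)
    gcongr
  · intro y hy y' hy'
    have h1 := h.lip _ (hball y hy) _ (hball y' hy')
    have h2 : z₀ + ρ • y - (z₀ + ρ • y') = ρ • (y - y') := by rw [smul_sub]; abel
    rw [h2, norm_smul, Real.norm_of_nonneg hρ.le] at h1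
    rw [← mul_sub, abs_mul, abs_of_pos hs, ← hL']
    calc s * |F (z₀ + ρ • y) - F (z₀ + ρ • y')| ≤ s * (L * (ρ * ‖y - y'‖)) := by gcongr
      _ = _ := by ring
  · intro y hy t ht
    have e1 : z₀ + ρ • (y + t • EuclideanSpace.single i (1:ℝ)) =
        (z₀ + ρ • y) + (ρ * t) • EuclideanSpace.single i (1:ℝ) := by
      rw [smul_add, smul_smul, ← add_assoc]
    have h1 := h.anti _ (hball y hy) (ρ * t) (by rw [← e1]; exact hball _ ht)
    rw [← mul_sub, abs_mul, abs_of_pos hs, ← hm', e1]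
    rw [abs_mul, abs_of_pos hρ] at h1
    calc s * ρ * m * |t| = s * (m * (ρ * |t|)) := by ring
      _ ≤ _ := by gcongr

/-- charts near a nondegenerate critical point, at the right scale -/
theorem crit_charts {U : Set (EuclideanSpace ℝ (Fin (d + 1)))} (hU : IsOpen U) (hk : 1 ≤ k)
    (hF : ContDiffOn ℝ ((k + 1 : ℕ) : ℕ∞) F U) {z₀ : EuclideanSpace ℝ (Fin (d + 1))}
    (hz : z₀ ∈ U) (hcrit : fderiv ℝ F z₀ = 0) {c : ℝ} (hc : 0 < c)
    (hnd : ∀ᶠ y in 𝓝 z₀, c * ‖y - z₀‖ ≤ ‖fderiv ℝ F y‖) :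
    ∃ ρ₀ R A L m : ℝ, 0 < ρ₀ ∧ ρ₀ ≤ 1 ∧ ball z₀ (2 * ρ₀) ⊆ U ∧ 0 < R ∧ R ≤ 1 / 8 ∧ 0 ≤ A ∧ 0 ≤ L ∧
      0 < m ∧ ∀ ρ : ℝ, 0 < ρ → ρ ≤ ρ₀ → ∀ x : EuclideanSpace ℝ (Fin (d + 1)),
        ρ / 2 ≤ ‖x - z₀‖ → ‖x - z₀‖ ≤ ρ →
        ∃ i, Chart (fun y => (ρ⁻¹ ^ 2) * F (z₀ + ρ • y)) k (ρ⁻¹ • (x - z₀)) R A L m i := by
  have hFy : ∀ y ∈ U, ContDiffAt ℝ (k + 1) F y := fun y hy => by
    have := hF.contDiffAt (hU.mem_nhds hy)
    exact_mod_cast this
  have c2 : ContinuousAt (iteratedFDeriv ℝ (k + 1) F) z₀ :=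
    (hFy z₀ hz).continuousAt_iteratedFDeriv (by norm_cast)
  -- the derivative is Lipschitz near the critical point
  have hC1 : ContDiffAt ℝ 1 (fderiv ℝ F) z₀ := (hFy z₀ hz).fderiv_right (by norm_cast; omega)
  obtain ⟨Λ, V, hV, hLip⟩ := hC1.exists_lipschitzOnWith
  have e0 : ∀ᶠ y in 𝓝 z₀, y ∈ U := hU.mem_nhds hz
  have e2 : ∀ᶠ y in 𝓝 z₀, ‖iteratedFDeriv ℝ (k + 1) F y‖ < ‖iteratedFDeriv ℝ (k + 1) F z₀‖ + 1 :=
    c2.norm.eventually_lt_const (by linarith)
  have e3 : ∀ᶠ y in 𝓝 z₀, y ∈ V := hV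
  obtain ⟨η, hη, hball⟩ := Metric.eventually_nhds_iff_ball.1 (e0.and (e2.and (e3.and hnd)))
  set ρ₀ : ℝ := min 1 (η / 2) with hρ₀
  have hρ₀0 : 0 < ρ₀ := lt_min one_pos (by positivity)
  have hρ₀η : 2 * ρ₀ ≤ η := by
    have : ρ₀ ≤ η / 2 := min_le_right _ _
    linarith
  set lam : ℝ := (Λ : ℝ) + 1 with hlam
  have hlam0 : 0 < lam := by positivity
  have hlipf : ∀ y ∈ ball z₀ (2 * ρ₀), ∀ y' ∈ ball z₀ (2 * ρ₀),
      ‖fderiv ℝ F y - fderiv ℝ F y'‖ ≤ lam * ‖y - y'‖ := by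
    intro y hy y' hy'
    have h1 := hLip.dist_le_mul y (hball y (ball_subset_ball hρ₀η hy)).2.2.1 y'
      (hball y' (ball_subset_ball hρ₀η hy')).2.2.1
    rw [dist_eq_norm, dist_eq_norm] at h1
    refine h1.trans ?_
    gcongr
    rw [hlam]; linarith
  set n : ℝ := (d : ℝ) + 1 with hn
  have hn0 : 0 < n := by positivity
  set R : ℝ := min (1 / 8) (c / (16 * n * lam)) with hR
  have hR0 : 0 < R := lt_min (by norm_num) (by positivity)
  have hR8 : R ≤ 1 / 8 := min_le_left _ _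
  have hRc : 4 * R * lam ≤ c / (4 * n) := by
    have h1 : R ≤ c / (16 * n * lam) := min_le_right _ _
    calc 4 * R * lam ≤ 4 * (c / (16 * n * lam)) * lam := by gcongr
      _ = c / (4 * n) := by field_simp; norm_num
  refine ⟨ρ₀, R, ‖iteratedFDeriv ℝ (k + 1) F z₀‖ + 1, 2 * lam, c / (4 * n), hρ₀0, min_le_left _ _,
    fun y hy => (hball y (ball_subset_ball hρ₀η hy)).1, hR0, hR8, by positivity, by positivity,
    by positivity, ?_⟩
  intro ρ hρ hρρ₀ x hx1 hx2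
  have hρ1 : ρ ≤ 1 := hρρ₀.trans (min_le_left _ _)
  have hsub : ball x (4 * (R * ρ)) ⊆ ball z₀ (2 * ρ₀) := by
    intro y hy
    rw [mem_ball] at hy ⊢
    have h1 := dist_triangle y x z₀
    rw [dist_eq_norm x z₀] at h1
    nlinarith
  have hxb : x ∈ ball x (4 * (R * ρ)) := mem_ball_self (by positivity)
  -- the coordinate
  obtain ⟨i, hi⟩ : ∃ i : Fin (d + 1), c * ρ / (2 * n) ≤
      |fderiv ℝ F x (EuclideanSpace.single i (1:ℝ))| := by
    by_contra hcon
    push Not at hcon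
    have h1 := (hball x (ball_subset_ball hρ₀η (hsub hxb))).2.2.2
    have h2 : ‖fderiv ℝ F x‖ ≤ ∑ j, |fderiv ℝ F x (EuclideanSpace.single j (1:ℝ))| := by
      apply ContinuousLinearMap.opNorm_le_bound _ (Finset.sum_nonneg fun j _ => abs_nonneg _)
      intro v
      have hv : v = ∑ j, v j • EuclideanSpace.single j (1:ℝ) := by
        ext j
        simp [Finset.sum_apply, Pi.single_apply]
      calc ‖fderiv ℝ F x v‖ = ‖∑ j, v j • fderiv ℝ F x (EuclideanSpace.single j (1:ℝ))‖ := by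
            conv_lhs => rw [hv, map_sum]
            congr 1
            exact Finset.sum_congr rfl fun j _ => map_smul _ _ _
        _ ≤ ∑ j, ‖v j • fderiv ℝ F x (EuclideanSpace.single j (1:ℝ))‖ := norm_sum_le _ _
        _ ≤ ∑ j, |fderiv ℝ F x (EuclideanSpace.single j (1:ℝ))| * ‖v‖ := by
            apply Finset.sum_le_sum
            intro j _
            rw [norm_smul, Real.norm_eq_abs, Real.norm_eq_abs, mul_comm]
            gcongr
            have := PiLp.norm_apply_le v j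
            rwa [Real.norm_eq_abs] at this
        _ = _ := by rw [Finset.sum_mul]
    have h3 : ∑ j, |fderiv ℝ F x (EuclideanSpace.single j (1:ℝ))| <
        ∑ _j : Fin (d + 1), c * ρ / (2 * n) :=
      Finset.sum_lt_sum_of_nonempty ⟨0, Finset.mem_univ _⟩ fun j _ => hcon j
    rw [Finset.sum_const, Finset.card_univ, Fintype.card_fin, nsmul_eq_mul] at h3
    have h4 : ((d + 1 : ℕ) : ℝ) * (c * ρ / (2 * n)) = c * (ρ / 2) := by
      push_cast
      rw [hn]
      field_simp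
    rw [h4] at h3
    have h5 : c * (ρ / 2) ≤ c * ‖x - z₀‖ := by gcongr
    linarith
  refine ⟨i, ?_⟩
  have hdiff : ∀ y ∈ ball x (4 * (R * ρ)), DifferentiableAt ℝ F y := fun y hy =>
    (hFy y (hball y (ball_subset_ball hρ₀η (hsub hy))).1).differentiableAt (by simp)
  have hz0b : z₀ ∈ ball z₀ (2 * ρ₀) := mem_ball_self (by positivity)
  have hch : Chart F k x (R * ρ) (‖iteratedFDeriv ℝ (k + 1) F z₀‖ + 1) (2 * lam * ρ)
      (c / (4 * n) * ρ) i := by
    refine ⟨by positivity, by nlinarith, by positivity, by positivity, by positivity, ?_, ?_, ?_,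
      ?_⟩
    · exact fun y hy => hFy y (hball y (ball_subset_ball hρ₀η (hsub hy))).1
    · exact fun y hy => (hball y (ball_subset_ball hρ₀η (hsub hy))).2.1.le
    · intro y hy y' hy'
      rw [← Real.norm_eq_abs]
      refine (convex_ball x (4 * (R * ρ))).norm_image_sub_le_of_norm_fderiv_le hdiff
        (C := 2 * lam * ρ) ?_ hy' hy
      intro w hw
      have h1 := hlipf w (hsub hw) z₀ hz0b
      rw [hcrit, sub_zero] at h1
      have h2 : ‖w - z₀‖ ≤ 2 * ρ := by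
        rw [← dist_eq_norm]
        have h3 := dist_triangle w x z₀
        rw [dist_eq_norm x z₀] at h3
        rw [mem_ball] at hw
        nlinarith
      calc ‖fderiv ℝ F w‖ ≤ lam * ‖w - z₀‖ := h1
        _ ≤ lam * (2 * ρ) := by gcongr
        _ = _ := by ring
    · intro y hy t ht
      obtain ⟨w, hw, hwe⟩ := domain_mvt (f := F) (f' := fun y => fderiv ℝ F y)
        (fun w hw => (hdiff w hw).hasFDerivAt.hasFDerivWithinAt)
        (convex_ball x (4 * (R * ρ))) hy ht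
      have hwb : w ∈ ball x (4 * (R * ρ)) := (convex_ball x _).segment_subset hy ht hw
      have h1 := hlipf w (hsub hwb) x (hsub hxb)
      have h2 : ‖w - x‖ ≤ 4 * (R * ρ) := by
        rw [mem_ball, dist_eq_norm] at hwb
        exact hwb.le
      have h3 : |fderiv ℝ F w (EuclideanSpace.single i (1:ℝ)) -
          fderiv ℝ F x (EuclideanSpace.single i (1:ℝ))| ≤ c / (4 * n) * ρ := by
        have h4 := (fderiv ℝ F w - fderiv ℝ F x).le_opNorm (EuclideanSpace.single i (1:ℝ))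
        rw [sub_apply, Real.norm_eq_abs] at h4
        have h5 : ‖(EuclideanSpace.single i (1:ℝ) : EuclideanSpace ℝ (Fin (d + 1)))‖ = 1 := by simp
        rw [h5, mul_one] at h4
        calc _ ≤ lam * ‖w - x‖ := h4.trans h1
          _ ≤ lam * (4 * (R * ρ)) := by gcongr
          _ = (4 * R * lam) * ρ := by ring
          _ ≤ _ := by gcongr
      have h6 : c / (4 * n) * ρ ≤ |fderiv ℝ F w (EuclideanSpace.single i (1:ℝ))| := by
        have h7 : c * ρ / (2 * n) = c / (4 * n) * ρ + c / (4 * n) * ρ := by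
          field_simp
          norm_num
        have h8 := abs_sub_abs_le_abs_sub (fderiv ℝ F x (EuclideanSpace.single i (1:ℝ)))
          (fderiv ℝ F w (EuclideanSpace.single i (1:ℝ)))
        rw [abs_sub_comm] at h8
        linarith
      rw [hwe, add_sub_cancel_left, map_smul, smul_eq_mul, abs_mul, mul_comm]
      gcongr
  have hs : (0:ℝ) < ρ⁻¹ ^ 2 := by positivity
  refine rescale hch hρ hs z₀ rfl (by linarith) ?_ ?_ ?_
  · have h1 : ρ⁻¹ ^ 2 * ρ ^ (k + 1) = ρ ^ (k - 1) := by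
      obtain ⟨l, rfl⟩ : ∃ l, k = l + 1 := ⟨k - 1, by omega⟩
      rw [Nat.add_sub_cancel]
      field_simp
      ring
    rw [h1]
    have h2 : ρ ^ (k - 1) ≤ 1 := pow_le_one₀ hρ.le hρ1
    have h3 : 0 ≤ ‖iteratedFDeriv ℝ (k + 1) F z₀‖ + 1 := by positivity
    nlinarith
  · field_simp
  · field_simp

end Pool.Agent.H668.Fol
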