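import Pool.Agent.H668.Fol.Lower

/-!
# Foliated functions: uniform constants
-/

set_option autoImplicit false

open MeasureTheory Set Filter Topology ENNReal NNReal Metric

namespace Pool.Agent.H668.Fol

open Pool.Agent.W770.SA Pool.Agent.R251.Lam

/-- the constant depends only on the constants of the chart -/
theorem local_unif (d k : ℕ) {R A L m : ℝ} (hR : 0 < R) (hR1 : R ≤ 1) (hm : 0 < m) (hA : 0 ≤ A)
    (hL : 0 ≤ L) (ε : ℝ) (hε : 0 < ε) :
    ∃ C : ℝ, 0 < C ∧ ∀ (F : EuclideanSpace ℝ (Fin (d + 1)) → ℝ)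
      (z₀ : EuclideanSpace ℝ (Fin (d + 1))) (i : Fin (d + 1)), Chart F k z₀ R A L m i →
      ∀ δ : ℝ, 0 < δ → δ < 1 → ∀ B : Set (EuclideanSpace ℝ (Fin (d + 1))),
      B ⊆ ball z₀ R → MeasurableSet B → ∀ g : ℝ → ℝ, Measurable g →
      ∃ Ψ : sphere (0 : EuclideanSpace ℝ (Fin (d + 1))) 1 → ℝ≥0∞, Measurable Ψ ∧
        (∀ e : sphere (0 : EuclideanSpace ℝ (Fin (d + 1))) 1,
        kakeyaMax δ (B.indicator fun x => g (F x)) (e : EuclideanSpace ℝ (Fin (d + 1))) ^ (d + 1)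
          ≤ Ψ e) ∧
        ∫⁻ e, Ψ e ∂(sig (d + 1)) ≤
        ENNReal.ofReal (C * δ ^ (-((d:ℝ) / (k + 1) + ε))) *
          ∫⁻ x, ‖g x‖ₑ ^ (d + 1) := by
  have hcD := cD_nonneg d k
  set ε' : ℝ := ε / (2 * (d + 3)) with hε'
  have hε'0 : 0 < ε' := by positivity
  obtain ⟨C₀, hC₀, hsc⟩ := few_scales ε' hε'0
  set c₀ : ℝ := R / (2 * (A + 1)) with hc₀
  have hc₀0 : 0 < c₀ := by positivity
  have hc₀R : c₀ ≤ R := by
    rw [hc₀, div_le_iff₀ (by positivity)]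
    nlinarith
  set c₁ : ℝ := c₀ * R / (4 * L + 13) with hc₁
  have hc₁0 : 0 < c₁ := by positivity
  set C₂ : ℝ := 6 * 2 ^ (d + 1) * (2 * k + 1) * ((2 * L + 3) * (2 * (2 * L + 5)) / m) with hC₂
  have hC₂0 : 0 < C₂ := by positivity
  set C₃ : ℝ := 6 ^ (d + 1) * (sig (d + 1) univ).toReal +
        cD d k * (6 ^ (d + 1) * 8 ^ (d + 1) / m) with hC₃
  have hC₃0 : 0 ≤ C₃ := by positivity
  set C₄ : ℝ := 6 * (2 / c₀) ^ d * C₂ ^ (d + 1) * (C₃ * 2 ^ (d + 1)) with hC₄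
  have hC₄0 : 0 ≤ C₄ := by positivity
  set C₅ : ℝ := C₀ * c₁ ^ (-ε') with hC₅
  have hC₅0 : 0 < C₅ := by positivity
  refine ⟨C₄ * C₅ ^ (d + 3) + 1, by positivity, ?_⟩
  intro F z₀ i h δ hδ hδ1 B hB hBm g hg
  set α : ℝ := 1 / ((k:ℝ) + 1) with hα
  have hα0 : 0 < α := by positivity
  have hα1 : α ≤ 1 := by
    rw [hα, div_le_one (by positivity)]
    have : (0:ℝ) ≤ k := Nat.cast_nonneg k
    linarith
  set y : ℝ := δ ^ α with hy
  have hy0 : 0 < y := by positivity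
  have hy1 : y ≤ 1 := Real.rpow_le_one hδ.le hδ1.le hα0.le
  have hyk : y ^ (k + 1) = δ := by
    rw [hy, ← Real.rpow_natCast, ← Real.rpow_mul hδ.le, hα]
    push_cast
    rw [one_div_mul_cancel (by positivity), Real.rpow_one]
  have hδy : δ ≤ y := by
    calc δ = δ ^ (1:ℝ) := (Real.rpow_one δ).symm
      _ ≤ δ ^ α := Real.rpow_le_rpow_of_exponent_ge hδ hδ1.le hα1
  set r : ℝ := c₀ * y with hr
  have hr0 : 0 < r := by positivity
  have hrc : r ≤ c₀ := by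
    calc r = c₀ * y := rfl
      _ ≤ c₀ * 1 := by gcongr
      _ = c₀ := mul_one _
  have hrR : r ≤ R := hrc.trans hc₀R
  set δ₀ : ℝ := R * δ with hδ₀
  have hδ₀0 : 0 < δ₀ := by positivity
  have hδ₀δ : δ₀ ≤ δ := by
    calc δ₀ = R * δ := rfl
      _ ≤ 1 * δ := by gcongr
      _ = δ := one_mul _
  have hδ₀R : δ₀ ≤ R := by
    calc δ₀ = R * δ := rfl
      _ ≤ R * 1 := by gcongr
      _ = R := mul_one _
  have hrδ : A * (2 * r) ^ (k + 1) ≤ δ₀ := by
    have h1 : 2 * r = (R / (A + 1)) * y := by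
      rw [hr, hc₀]
      field_simp
    have h2 : (R / (A + 1)) ^ (k + 1) ≤ R / (A + 1) := by
      have h3 : R / (A + 1) ≤ 1 := by
        rw [div_le_one (by positivity)]; linarith
      calc (R / (A + 1)) ^ (k + 1) ≤ (R / (A + 1)) ^ 1 :=
            pow_le_pow_of_le_one (by positivity) h3 (by omega)
        _ = _ := pow_one _
    have h4 : A * (R / (A + 1)) ≤ R := by
      rw [← mul_div_assoc, div_le_iff₀ (by positivity)]
      nlinarith
    rw [h1, mul_pow, hyk]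
    calc A * ((R / (A + 1)) ^ (k + 1) * δ) ≤ A * ((R / (A + 1)) * δ) := by gcongr
      _ = (A * (R / (A + 1))) * δ := by ring
      _ ≤ R * δ := by gcongr
  set x : ℝ := r * δ₀ / (4 * L + 13) with hx
  have hx0 : 0 < x := by positivity
  have hx1 : x ≤ 1 := by
    rw [hx, div_le_one (by positivity)]
    have : r * δ₀ ≤ 1 * 1 := by
      apply mul_le_mul (hrR.trans hR1) (hδ₀R.trans hR1) hδ₀0.le zero_le_one
    linarith
  have hxc : c₁ * (δ * δ) ≤ x := by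
    have h1 : x = c₁ * (y * δ) := by
      rw [hx, hc₁, hr, hδ₀]
      field_simp
    rw [h1]
    gcongr
  obtain ⟨K, hK1, hK2⟩ := hsc x hx0 hx1
  have hKC : (K : ℝ) + 1 ≤ C₅ * δ ^ (-(2 * ε')) := by
    refine hK2.trans ?_
    have h1 : x ^ (-ε') ≤ (c₁ * (δ * δ)) ^ (-ε') :=
      Real.rpow_le_rpow_of_nonpos (by positivity) hxc (by linarith)
    have h2 : (c₁ * (δ * δ)) ^ (-ε') = c₁ ^ (-ε') * δ ^ (-(2 * ε')) := by
      rw [Real.mul_rpow (by positivity) (by positivity), Real.mul_rpow hδ.le hδ.le,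
        ← Real.rpow_add hδ]
      congr 2
      ring
    calc C₀ * x ^ (-ε') ≤ C₀ * (c₁ ^ (-ε') * δ ^ (-(2 * ε'))) := by
          gcongr
          exact h1.trans h2.le
      _ = _ := by rw [hC₅]; ring
  set N : ℕ := ⌈1 / r⌉₊ with hN
  have hN0 : 0 < N := Nat.ceil_pos.2 (by positivity)
  have hN0' : (0:ℝ) < N := by exact_mod_cast hN0
  have hNr : 1 / (N : ℝ) ≤ r := by
    rw [div_le_iff₀ hN0']
    have := Nat.le_ceil (1 / r)
    rw [div_le_iff₀ hr0] at this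
    linarith
  have hN2 : (N : ℝ) ≤ (2 / c₀) * y⁻¹ := by
    have h1 : (N : ℝ) < 1 / r + 1 := Nat.ceil_lt_add_one (by positivity)
    have h2 : 1 ≤ 1 / r := by
      rw [le_div_iff₀ hr0]; linarith
    have h3 : (2 / c₀) * y⁻¹ = 2 * (1 / r) := by
      rw [hr]; field_simp
    linarith
  have hNr2 : (N : ℝ) * r ≤ 2 := by
    have h1 : (N : ℝ) < 1 / r + 1 := Nat.ceil_lt_add_one (by positivity)
    calc (N : ℝ) * r ≤ (1 / r + 1) * r := by gcongr
      _ = 1 + r := by field_simp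
      _ ≤ 2 := by linarith
  obtain ⟨Ψ, hΨ1, hΨ2, hΨ3⟩ :=
    chart_bound h hδ1.le hδ₀0 hδ₀δ hδ₀R hr0 hrR hrδ hK1 hN0 hNr hNr2 hB hBm hg
  refine ⟨Ψ, hΨ1, hΨ2, hΨ3.trans ?_⟩
  rw [const_real hδ₀0 hm hL]
  refine mul_le_mul_left (ENNReal.ofReal_le_ofReal ?_) _
  -- the real inequality
  have hK0 : (0:ℝ) ≤ K := Nat.cast_nonneg K
  have hk0 : (0:ℝ) ≤ k := Nat.cast_nonneg k
  have e1 : (6 * 2 ^ (d + 1) * (1 / (2 * δ₀ * m))) * (((2 * k * (K + 1) + 1 : ℕ) : ℝ) *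
        ((2 * L + 3) * δ₀ * (4 * (2 * L + 5)))) =
      6 * 2 ^ (d + 1) * (2 * k * (K + 1) + 1) * ((2 * L + 3) * (2 * (2 * L + 5)) / m) := by
    push_cast
    field_simp
    ring
  have e2 : 6 * 2 ^ (d + 1) * (2 * k * ((K:ℝ) + 1) + 1) * ((2 * L + 3) * (2 * (2 * L + 5)) / m) ≤
      C₂ * (K + 1) := by
    have h1 : 2 * (k:ℝ) * ((K:ℝ) + 1) + 1 ≤ (2 * k + 1) * (K + 1) := by nlinarith
    calc 6 * 2 ^ (d + 1) * (2 * k * ((K:ℝ) + 1) + 1) * ((2 * L + 3) * (2 * (2 * L + 5)) / m)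
        ≤ 6 * 2 ^ (d + 1) * ((2 * k + 1) * (K + 1)) * ((2 * L + 3) * (2 * (2 * L + 5)) / m) := by
          gcongr
      _ = _ := by rw [hC₂]; ring
  have eN : 6 * (N:ℝ) ^ d ≤ 6 * ((2 / c₀) * y⁻¹) ^ d := by gcongr
  have e3 : (K:ℝ) * ((6 ^ (d + 1) * (sig (d + 1) univ).toReal +
        K * (cD d k * (6 ^ (d + 1) * 8 ^ (d + 1) / m))) * 2 ^ (d + 1)) ≤
      (K + 1) ^ 2 * (C₃ * 2 ^ (d + 1)) := by
    have h1 : 6 ^ (d + 1) * (sig (d + 1) univ).toReal +
        K * (cD d k * (6 ^ (d + 1) * 8 ^ (d + 1) / m)) ≤ (K + 1) * C₃ := by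
      have h2 : 0 ≤ 6 ^ (d + 1) * (sig (d + 1) univ).toReal := by positivity
      have h3 : 0 ≤ cD d k * (6 ^ (d + 1) * 8 ^ (d + 1) / m) := by positivity
      rw [hC₃]
      nlinarith [mul_nonneg hK0 h2]
    calc (K:ℝ) * ((6 ^ (d + 1) * (sig (d + 1) univ).toReal +
        K * (cD d k * (6 ^ (d + 1) * 8 ^ (d + 1) / m))) * 2 ^ (d + 1))
        ≤ (K + 1) * (((K + 1) * C₃) * 2 ^ (d + 1)) := by
          gcongr
          linarith
      _ = _ := by ring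
  have hδe : (δ ^ (-(2 * ε'))) ^ (d + 3) = δ ^ (-ε) := by
    rw [← Real.rpow_natCast, ← Real.rpow_mul hδ.le]
    congr 1
    rw [hε']
    push_cast
    field_simp
  have hye : (y⁻¹) ^ d = δ ^ (-((d:ℝ) / (k + 1))) := by
    rw [hy, ← Real.rpow_neg hδ.le, ← Real.rpow_natCast, ← Real.rpow_mul hδ.le]
    congr 1
    rw [hα]
    push_cast
    field_simp
  calc (6 * 2 ^ (d + 1) * (1 / (2 * δ₀ * m))) ^ (d + 1) *
      ((6 * (N : ℝ) ^ d * (((2 * k * (K + 1) + 1 : ℕ) : ℝ) *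
        ((2 * L + 3) * δ₀ * (4 * (2 * L + 5)))) ^ (d + 1)) *
      (K * ((6 ^ (d + 1) * (sig (d + 1) univ).toReal +
        K * (cD d k * (6 ^ (d + 1) * 8 ^ (d + 1) / m))) * 2 ^ (d + 1))))
      = (6 * (N : ℝ) ^ d) * ((6 * 2 ^ (d + 1) * (1 / (2 * δ₀ * m))) *
        (((2 * k * (K + 1) + 1 : ℕ) : ℝ) *
        ((2 * L + 3) * δ₀ * (4 * (2 * L + 5))))) ^ (d + 1) *
        (K * ((6 ^ (d + 1) * (sig (d + 1) univ).toReal +
        K * (cD d k * (6 ^ (d + 1) * 8 ^ (d + 1) / m))) * 2 ^ (d + 1))) := by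
        rw [mul_pow (6 * 2 ^ (d + 1) * (1 / (2 * δ₀ * m)))]
        ring
    _ ≤ (6 * ((2 / c₀) * y⁻¹) ^ d) * (C₂ * (K + 1)) ^ (d + 1) *
          ((K + 1) ^ 2 * (C₃ * 2 ^ (d + 1))) := by
        rw [e1]
        gcongr
    _ = C₄ * (y⁻¹) ^ d * ((K:ℝ) + 1) ^ (d + 3) := by
        rw [hC₄, mul_pow, mul_pow]
        ring
    _ ≤ C₄ * (y⁻¹) ^ d * (C₅ * δ ^ (-(2 * ε'))) ^ (d + 3) := by gcongr
    _ = C₄ * C₅ ^ (d + 3) * (δ ^ (-((d:ℝ) / (k + 1))) * δ ^ (-ε)) := by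
        rw [mul_pow, hδe, hye]
        ring
    _ = C₄ * C₅ ^ (d + 3) * δ ^ (-((d:ℝ) / (k + 1) + ε)) := by
        rw [← Real.rpow_add hδ]
        congr 2
        ring
    _ ≤ (C₄ * C₅ ^ (d + 3) + 1) * δ ^ (-((d:ℝ) / (k + 1) + ε)) := by
        gcongr
        linarith


/-- the integral over the values is bounded by the integral over the points -/
theorem lower_unif (d k : ℕ) {R A L m : ℝ} (hR : 0 < R) (hm : 0 < m) (hL : 0 ≤ L) :
    ∃ ρ C : ℝ, 0 < ρ ∧ ρ ≤ R ∧ 0 < C ∧ ∀ (F : EuclideanSpace ℝ (Fin (d + 1)) → ℝ)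
      (z₀ : EuclideanSpace ℝ (Fin (d + 1))) (i : Fin (d + 1)), Chart F k z₀ R A L m i →
      (∀ x ∈ ball z₀ ρ, |F x - F z₀| ≤ m * R / 2) ∧
      ∀ H : ℝ → ℝ≥0∞, Measurable H →
        ∫⁻ s in Icc (F z₀ - m * R / 2) (F z₀ + m * R / 2), H s ≤
          ENNReal.ofReal C * ∫⁻ x in ball z₀ (2 * R), H (F x) := by
  classical
  set ρ : ℝ := min R (m * R / (2 * (L + 1))) with hρ
  have hρ0 : 0 < ρ := lt_min hR (by positivity)
  have hρR : ρ ≤ R := min_le_left _ _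
  have hρ2 : L * ρ ≤ m * R / 2 := by
    have h1 : ρ ≤ m * R / (2 * (L + 1)) := min_le_right _ _
    have h2 : L * ρ ≤ L * (m * R / (2 * (L + 1))) := by gcongr
    have h3 : L * (m * R / (2 * (L + 1))) ≤ m * R / 2 := by
      rw [← mul_div_assoc, div_le_div_iff₀ (by positivity) (by norm_num)]
      have : 0 < m * R := by positivity
      nlinarith
    linarith
  set V : ℝ := ρ ^ (d + 1) * omg d with hV
  have hV0 : 0 < V := by
    have := omg_pos (d := d)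
    positivity
  refine ⟨ρ, (2 * R * L + 1) / V, hρ0, hρR, by positivity, ?_⟩
  intro F z₀ i h
  have hval : ∀ x ∈ ball z₀ ρ, |F x - F z₀| ≤ m * R / 2 := by
    intro x hx
    rw [mem_ball, dist_eq_norm] at hx
    have h1 := h.lip x (by rw [mem_ball, dist_eq_norm]; linarith) z₀
      (mem_ball_self (by linarith))
    have h2 : L * ‖x - z₀‖ ≤ L * ρ := by gcongr
    linarith
  refine ⟨hval, ?_⟩
  intro H hH
  set v : EuclideanSpace ℝ (Fin (d + 1)) := EuclideanSpace.single i (1:ℝ) with hv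
  have hv1 : ‖v‖ = 1 := by rw [hv]; simp
  set I₀ : ℝ≥0∞ := ∫⁻ s in Icc (F z₀ - m * R / 2) (F z₀ + m * R / 2), H s with hI₀
  set Φ : EuclideanSpace ℝ (Fin (d + 1)) → ℝ≥0∞ := (ball z₀ (2 * R)).indicator fun x => H (F x)
    with hΦ
  have hc : ContinuousOn F (ball z₀ (2 * R)) := fun x hx =>
    (h.smooth x (ball_subset_ball (by linarith) hx)).continuousAt.continuousWithinAt
  have h1 : Measurable ((ball z₀ (2 * R)).piecewise F (fun _ => 0)) :=
    hc.measurable_piecewise continuousOn_const measurableSet_ball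
  have hΦm : Measurable Φ := by
    have h2 : Φ = (ball z₀ (2 * R)).indicator
        fun x => H ((ball z₀ (2 * R)).piecewise F (fun _ => 0) x) := by
      ext x
      by_cases hx : x ∈ ball z₀ (2 * R)
      · rw [hΦ, indicator_of_mem hx, indicator_of_mem hx, piecewise_eq_of_mem _ _ _ hx]
      · rw [hΦ, indicator_of_notMem hx, indicator_of_notMem hx]
    rw [h2]
    exact (hH.comp h1).indicator measurableSet_ball
  have hline : ∀ y ∈ ball z₀ ρ, I₀ ≤ ENNReal.ofReal L * ∫⁻ t in Icc (-R) R, Φ (y + t • v) := by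
    intro y hy
    refine (line_lower h (ball_subset_ball hρR hy) (hval y hy) H).trans (le_of_eq ?_)
    congr 1
    apply setLIntegral_congr_fun measurableSet_Icc
    intro t ht
    have h3 : y + t • v ∈ ball z₀ (2 * R) := by
      have h4 : dist (y + t • v) y ≤ R := by
        rw [dist_eq_norm, add_sub_cancel_left, norm_smul, hv1, mul_one, Real.norm_eq_abs]
        exact abs_le.2 ht
      rw [mem_ball] at hy ⊢
      linarith [dist_triangle (y + t • v) y z₀]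
    show H (F (y + t • v)) = Φ (y + t • v)
    rw [hΦ, indicator_of_mem h3]
  have hmeas : Measurable fun y => ∫⁻ t in Icc (-R) R, Φ (y + t • v) := by
    apply Measurable.lintegral_prod_right'
      (f := fun q : EuclideanSpace ℝ (Fin (d + 1)) × ℝ => Φ (q.1 + q.2 • v))
    exact hΦm.comp (by fun_prop)
  have hsw : ∫⁻ y, ∫⁻ t in Icc (-R) R, Φ (y + t • v) =
      ∫⁻ t in Icc (-R) R, ∫⁻ y, Φ (y + t • v) := by
    apply lintegral_lintegral_swap
    exact (hΦm.comp (f := fun q : EuclideanSpace ℝ (Fin (d + 1)) × ℝ => q.1 + q.2 • v)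
      (by fun_prop)).aemeasurable
  have htr : ∀ t : ℝ, ∫⁻ y, Φ (y + t • v) = ∫⁻ y, Φ y := fun t =>
    lintegral_add_right_eq_self (μ := (volume : Measure (EuclideanSpace ℝ (Fin (d + 1))))) Φ (t • v)
  have key : ENNReal.ofReal V * I₀ ≤ ENNReal.ofReal (2 * R * L) * ∫⁻ y, Φ y := by
    calc ENNReal.ofReal V * I₀ = ∫⁻ _y in ball z₀ ρ, I₀ := by
          rw [setLIntegral_const, vol_ball z₀ hρ0, mul_comm]
      _ ≤ ∫⁻ y in ball z₀ ρ, ENNReal.ofReal L * ∫⁻ t in Icc (-R) R, Φ (y + t • v) :=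
          setLIntegral_mono' measurableSet_ball hline
      _ ≤ ∫⁻ y, ENNReal.ofReal L * ∫⁻ t in Icc (-R) R, Φ (y + t • v) :=
          setLIntegral_le_lintegral _ _
      _ = ENNReal.ofReal L * ∫⁻ t in Icc (-R) R, ∫⁻ y, Φ (y + t • v) := by
          rw [lintegral_const_mul _ hmeas, hsw]
      _ = ENNReal.ofReal (2 * R * L) * ∫⁻ y, Φ y := by
          simp only [htr]
          rw [setLIntegral_const, Real.volume_Icc, ENNReal.ofReal_mul (by positivity)]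
          have : R - -R = 2 * R := by ring
          rw [this]
          ring
  have hΦi : ∫⁻ y, Φ y = ∫⁻ x in ball z₀ (2 * R), H (F x) := by
    rw [hΦ, lintegral_indicator measurableSet_ball]
  rw [hΦi] at key
  calc I₀ = ENNReal.ofReal (1 / V) * (ENNReal.ofReal V * I₀) := by
        rw [← mul_assoc, ← ENNReal.ofReal_mul (by positivity), one_div_mul_cancel hV0.ne',
          ENNReal.ofReal_one, one_mul]
    _ ≤ ENNReal.ofReal (1 / V) * (ENNReal.ofReal (2 * R * L) *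
        ∫⁻ x in ball z₀ (2 * R), H (F x)) := by gcongr
    _ = ENNReal.ofReal (1 / V * (2 * R * L)) * ∫⁻ x in ball z₀ (2 * R), H (F x) := by
        rw [← mul_assoc, ← ENNReal.ofReal_mul (by positivity)]
    _ ≤ _ := by
        gcongr
        rw [div_mul_eq_mul_div, one_mul]
        gcongr
        linarith


/-- the estimate near the centre of a chart, with uniform constants -/
theorem near_unif (d k : ℕ) {R A L m : ℝ} (hR : 0 < R) (hR1 : R ≤ 1) (hm : 0 < m) (hA : 0 ≤ A)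
    (hL : 0 ≤ L) (ε : ℝ) (hε : 0 < ε) :
    ∃ ρ C : ℝ, 0 < ρ ∧ 0 < C ∧ ∀ (F : EuclideanSpace ℝ (Fin (d + 1)) → ℝ)
      (z₀ : EuclideanSpace ℝ (Fin (d + 1))) (i : Fin (d + 1)), Chart F k z₀ R A L m i →
      ∀ B : Set (EuclideanSpace ℝ (Fin (d + 1))),
      B ⊆ ball z₀ ρ → MeasurableSet B → ∀ g : ℝ → ℝ, Measurable g →
      Measurable (B.indicator fun x => g (F x)) ∧ ∀ δ : ℝ, 0 < δ → δ < 1 →
      ∃ Ψ : sphere (0 : EuclideanSpace ℝ (Fin (d + 1))) 1 → ℝ≥0∞, Measurable Ψ ∧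
        (∀ e : sphere (0 : EuclideanSpace ℝ (Fin (d + 1))) 1,
        kakeyaMax δ (B.indicator fun x => g (F x)) (e : EuclideanSpace ℝ (Fin (d + 1))) ^ (d + 1)
          ≤ Ψ e) ∧
        ∫⁻ e, Ψ e ∂(sig (d + 1)) ≤
        ENNReal.ofReal (C * δ ^ (-((d:ℝ) / (k + 1) + ε))) *
          ∫⁻ x in ball z₀ (2 * R), ‖g (F x)‖ₑ ^ (d + 1) := by
  obtain ⟨ρ, C', hρ, hρR, hC', hlowU⟩ := lower_unif d k (A := A) hR hm hL
  obtain ⟨C, hC, hlocU⟩ := local_unif d k hR hR1 hm hA hL ε hε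
  refine ⟨ρ, C * C', hρ, by positivity, ?_⟩
  intro F x i h B hB hBm g hg
  obtain ⟨hval, hlow⟩ := hlowU F x i h
  have hloc := hlocU F x i h
  have hBR : B ⊆ ball x R := hB.trans (ball_subset_ball hρR)
  refine ⟨meas_ind h hBR hBm hg, ?_⟩
  intro δ hδ hδ1
  set W : Set ℝ := Icc (F x - m * R / 2) (F x + m * R / 2) with hW
  have hWm : MeasurableSet W := measurableSet_Icc
  have heq : (B.indicator fun y => g (F y)) = B.indicator fun y => W.indicator g (F y) := by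
    ext y
    by_cases hy : y ∈ B
    · rw [indicator_of_mem hy, indicator_of_mem hy, indicator_of_mem]
      have h1 := abs_le.1 (hval y (hB hy))
      exact ⟨by linarith [h1.1], by linarith [h1.2]⟩
    · rw [indicator_of_notMem hy, indicator_of_notMem hy]
  obtain ⟨Ψ, hΨ1, hΨ2, hΨ3⟩ := hloc δ hδ hδ1 B hBR hBm (W.indicator g) (hg.indicator hWm)
  refine ⟨Ψ, hΨ1, fun e => ?_, hΨ3.trans ?_⟩
  · rw [heq]; exact hΨ2 e
  · have h1 : ∫⁻ s, ‖W.indicator g s‖ₑ ^ (d + 1) = ∫⁻ s in W, ‖g s‖ₑ ^ (d + 1) := by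
      rw [← lintegral_indicator hWm]
      apply lintegral_congr
      intro s
      by_cases hs : s ∈ W
      · rw [indicator_of_mem hs, indicator_of_mem hs]
      · rw [indicator_of_notMem hs, indicator_of_notMem hs, enorm_zero, zero_pow (by omega)]
    rw [h1]
    have h2 := hlow (fun s => ‖g s‖ₑ ^ (d + 1)) (hg.enorm.pow_const _)
    calc ENNReal.ofReal (C * δ ^ (-((d:ℝ) / (k + 1) + ε))) * ∫⁻ s in W, ‖g s‖ₑ ^ (d + 1)
        ≤ ENNReal.ofReal (C * δ ^ (-((d:ℝ) / (k + 1) + ε))) * (ENNReal.ofReal C' *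
          ∫⁻ y in ball x (2 * R), ‖g (F y)‖ₑ ^ (d + 1)) := mul_le_mul_right h2 _
      _ = _ := by
          rw [← mul_assoc, ← ENNReal.ofReal_mul (by positivity)]
          congr 2
          ring

end Pool.Agent.H668.Fol
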