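import Pool.Agent.H668.Fol.Global
import Pool.Agent.H668.Fol.Unif
import Pool.Agent.H668.Fol.Resc
import Pool.Agent.H668.Fol.KScale

/-!
# Foliated functions: near a nondegenerate critical point
-/

set_option autoImplicit false

open MeasureTheory Set Filter Topology ENNReal NNReal Metric

namespace Pool.Agent.H668.Fol

open Pool.Agent.W770.SA Pool.Agent.R251.Lam

variable {d : ℕ}

/-- the `n`-th power of the maximal function has a measurable majorant with integral `≤ M` -/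
def Maj (δ : ℝ) (f : EuclideanSpace ℝ (Fin (d + 1)) → ℝ) (M : ℝ≥0∞) : Prop :=
  ∃ Ψ : sphere (0 : EuclideanSpace ℝ (Fin (d + 1))) 1 → ℝ≥0∞, Measurable Ψ ∧
    (∀ e : sphere (0 : EuclideanSpace ℝ (Fin (d + 1))) 1,
      kakeyaMax δ f (e : EuclideanSpace ℝ (Fin (d + 1))) ^ (d + 1) ≤ Ψ e) ∧
    ∫⁻ e, Ψ e ∂(sig (d + 1)) ≤ M

theorem Maj.mono {δ : ℝ} {f : EuclideanSpace ℝ (Fin (d + 1)) → ℝ} {M M' : ℝ≥0∞}
    (h : Maj δ f M) (hM : M ≤ M') : Maj δ f M' := by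
  obtain ⟨Ψ, h1, h2, h3⟩ := h
  exact ⟨Ψ, h1, h2, h3.trans hM⟩

theorem Maj.sum {ι : Type*} {δ : ℝ} {f : EuclideanSpace ℝ (Fin (d + 1)) → ℝ} (t : Finset ι)
    (fs : ι → EuclideanSpace ℝ (Fin (d + 1)) → ℝ) (hmeas : ∀ x ∈ t, Measurable (fs x))
    (hpt : ∀ y, ‖f y‖ₑ ≤ ∑ x ∈ t, ‖fs x y‖ₑ) (M : ι → ℝ≥0∞) (h : ∀ x ∈ t, Maj δ (fs x) (M x)) :
    Maj δ f ((t.card : ℝ≥0∞) ^ (d + 1) * ∑ x ∈ t, M x) := by
  classical
  have hch : ∀ x : ι, ∃ Ψ : sphere (0 : EuclideanSpace ℝ (Fin (d + 1))) 1 → ℝ≥0∞, x ∈ t →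
    Measurable Ψ ∧ (∀ e : sphere (0 : EuclideanSpace ℝ (Fin (d + 1))) 1,
      kakeyaMax δ (fs x) (e : EuclideanSpace ℝ (Fin (d + 1))) ^ (d + 1) ≤ Ψ e) ∧
    ∫⁻ e, Ψ e ∂(sig (d + 1)) ≤ M x := by
    intro x
    by_cases hx : x ∈ t
    · obtain ⟨Ψ, h1, h2, h3⟩ := h x hx
      exact ⟨Ψ, fun _ => ⟨h1, h2, h3⟩⟩
    · exact ⟨fun _ => 0, fun hx' => absurd hx' hx⟩
  choose Ψ hΨ using hch
  have hsum : ∀ e : sphere (0 : EuclideanSpace ℝ (Fin (d + 1))) 1,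
      kakeyaMax δ f (e : EuclideanSpace ℝ (Fin (d + 1))) ≤
      ∑ x ∈ t, kakeyaMax δ (fs x) (e : EuclideanSpace ℝ (Fin (d + 1))) := by
    intro e
    apply iSup_le
    intro a
    set T := tube δ (e : EuclideanSpace ℝ (Fin (d + 1))) a with hT
    calc (volume T)⁻¹ * ∫⁻ y in T, ‖f y‖ₑ
        ≤ (volume T)⁻¹ * ∫⁻ y in T, ∑ x ∈ t, ‖fs x y‖ₑ := by
          gcongr with y
          exact hpt y
      _ = ∑ x ∈ t, (volume T)⁻¹ * ∫⁻ y in T, ‖fs x y‖ₑ := by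
          rw [lintegral_finsetSum' _ (fun x hx => (hmeas x hx).enorm.aemeasurable),
            Finset.mul_sum]
      _ ≤ _ := by
          apply Finset.sum_le_sum
          intro x _
          exact le_iSup (fun a : EuclideanSpace ℝ (Fin (d + 1)) =>
            (volume (tube δ (e : EuclideanSpace ℝ (Fin (d + 1))) a))⁻¹ *
              ∫⁻ y in tube δ (e : EuclideanSpace ℝ (Fin (d + 1))) a, ‖fs x y‖ₑ) a
  refine ⟨fun e => (t.card : ℝ≥0∞) ^ (d + 1) * ∑ x ∈ t, Ψ x e, ?_, ?_, ?_⟩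
  · exact (Finset.measurable_fun_sum _ fun x hx => (hΨ x hx).1).const_mul _
  · intro e
    refine (pow_le_pow_left' (hsum e) (d + 1)).trans ?_
    refine (pow_sum_le t _ (by omega)).trans ?_
    exact mul_le_mul_right (Finset.sum_le_sum fun x hx => (hΨ x hx).2.1 e) _
  · rw [lintegral_const_mul' _ _ (ENNReal.pow_ne_top (ENNReal.natCast_ne_top _)),
      lintegral_finsetSum' _ (fun x hx => (hΨ x hx).1.aemeasurable)]
    exact mul_le_mul_right (Finset.sum_le_sum fun x hx => (hΨ x hx).2.2) _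

theorem Maj.scale (d : ℕ) : ∃ C : ℝ, 0 < C ∧ ∀ (δ ρ : ℝ), 0 < δ → 0 < ρ →
    ∀ (z₀ : EuclideanSpace ℝ (Fin (d + 1))) (f : EuclideanSpace ℝ (Fin (d + 1)) → ℝ),
      Measurable f → (∀ y, f y ≠ 0 → ‖y - z₀‖ ≤ ρ) → ∀ M : ℝ≥0∞,
      Maj (δ / ρ) (fun w => f (z₀ + ρ • w)) M →
      Maj δ f (ENNReal.ofReal ((C * ρ) ^ (d + 1)) * M) := by
  obtain ⟨C, hC, h⟩ := kak_scale d
  refine ⟨C, hC, ?_⟩
  intro δ ρ hδ hρ z₀ f hf hsupp M hM
  obtain ⟨Ψ, h1, h2, h3⟩ := hM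
  refine ⟨fun e => ENNReal.ofReal ((C * ρ) ^ (d + 1)) * Ψ e, h1.const_mul _, fun e => ?_, ?_⟩
  · refine (pow_le_pow_left' (h δ ρ hδ hρ z₀ f hf hsupp _ (by simp)) (d + 1)).trans ?_
    rw [mul_pow, ENNReal.ofReal_pow (by positivity)]
    exact mul_le_mul_right (h2 e) _
  · rw [lintegral_const_mul _ h1]
    exact mul_le_mul_right h3 _

/-- functions supported in a ball of radius `δ` -/
theorem Maj.small (d : ℕ) : ∃ C : ℝ, 0 < C ∧ ∀ (δ : ℝ), 0 < δ →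
    ∀ (z₀ : EuclideanSpace ℝ (Fin (d + 1))) (f : EuclideanSpace ℝ (Fin (d + 1)) → ℝ),
      Measurable f → (∀ y, f y ≠ 0 → ‖y - z₀‖ ≤ δ) →
      Maj δ f (ENNReal.ofReal C * ∫⁻ y, ‖f y‖ₑ ^ (d + 1)) := by
  obtain ⟨c, hc, hvol⟩ := Pool.Agent.H742R2.Kk.volume_tube d
  have homg := omg_pos (d := d)
  set C : ℝ := (c⁻¹) ^ (d + 1) * (2 ^ (d + 1) * omg d) ^ d with hC
  have hC0 : 0 < C := by positivity
  refine ⟨C * ((sig (d + 1) univ).toReal + 1), by positivity, ?_⟩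
  intro δ hδ z₀ f hf hsupp
  set I : ℝ≥0∞ := ∫⁻ y, ‖f y‖ₑ ^ (d + 1) with hI
  refine ⟨fun _ => ENNReal.ofReal C * I, measurable_const, fun e => ?_, ?_⟩
  · have he : ‖(e : EuclideanSpace ℝ (Fin (d + 1)))‖ = 1 := by simp
    set B := ball z₀ (2 * δ) with hB
    have h1 : kakeyaMax δ f (e : EuclideanSpace ℝ (Fin (d + 1))) ≤
        ENNReal.ofReal ((c * δ ^ d)⁻¹) * ∫⁻ y in B, ‖f y‖ₑ := by
      apply iSup_le
      intro a
      have h2 := hvol δ (e : EuclideanSpace ℝ (Fin (d + 1))) a hδ he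
      have h3 : ∫⁻ y in tube δ (e : EuclideanSpace ℝ (Fin (d + 1))) a, ‖f y‖ₑ ≤
          ∫⁻ y in B, ‖f y‖ₑ := by
        refine (setLIntegral_le_lintegral _ _).trans ?_
        rw [← lintegral_indicator measurableSet_ball]
        apply lintegral_mono
        intro y
        by_cases hy : f y = 0
        · show ‖f y‖ₑ ≤ _
          rw [hy, enorm_zero]; exact zero_le
        · have h4 := hsupp y hy
          have h5 : y ∈ B := by
            rw [hB, mem_ball, dist_eq_norm]; linarith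
          show ‖f y‖ₑ ≤ _
          rw [indicator_of_mem h5]
      rw [ENNReal.ofReal_inv_of_pos (by positivity)]
      gcongr
      exact h2
    have h6 := pow_lint_le (volume.restrict B) d (f := fun y => ‖f y‖ₑ) hf.enorm.aemeasurable
    have h7 : volume.restrict B univ = ENNReal.ofReal ((2 * δ) ^ (d + 1) * omg d) := by
      rw [Measure.restrict_apply_univ, hB, vol_ball z₀ (by positivity)]
    rw [h7] at h6
    calc kakeyaMax δ f (e : EuclideanSpace ℝ (Fin (d + 1))) ^ (d + 1)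
        ≤ (ENNReal.ofReal ((c * δ ^ d)⁻¹) * ∫⁻ y in B, ‖f y‖ₑ) ^ (d + 1) :=
          pow_le_pow_left' h1 _
      _ ≤ ENNReal.ofReal ((c * δ ^ d)⁻¹) ^ (d + 1) *
          (ENNReal.ofReal ((2 * δ) ^ (d + 1) * omg d) ^ d * ∫⁻ y in B, ‖f y‖ₑ ^ (d + 1)) := by
          rw [mul_pow]
          gcongr
      _ ≤ ENNReal.ofReal ((c * δ ^ d)⁻¹) ^ (d + 1) *
          (ENNReal.ofReal ((2 * δ) ^ (d + 1) * omg d) ^ d * I) := by
          gcongr
          exact setLIntegral_le_lintegral _ _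
      _ = ENNReal.ofReal C * I := by
          rw [← mul_assoc, ← ENNReal.ofReal_pow (by positivity), ← ENNReal.ofReal_pow (by positivity),
            ← ENNReal.ofReal_mul (by positivity)]
          congr 2
          rw [hC]
          have e1 : ((c * δ ^ d)⁻¹) ^ (d + 1) * ((2 * δ) ^ (d + 1) * omg d) ^ d =
              (c⁻¹) ^ (d + 1) * (2 ^ (d + 1) * omg d) ^ d *
                (((δ ^ d)⁻¹) ^ (d + 1) * (δ ^ (d + 1)) ^ d) := by
            rw [mul_inv, mul_pow, mul_pow 2 δ, mul_assoc (2 ^ (d + 1)), mul_pow (2 ^ (d + 1)),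
              mul_pow (δ ^ (d + 1)), mul_pow (2 ^ (d + 1))]
            ring
          have e2 : ((δ ^ d)⁻¹) ^ (d + 1) * (δ ^ (d + 1)) ^ d = 1 := by
            rw [inv_pow, ← pow_mul, ← pow_mul, mul_comm (d + 1) d]
            exact inv_mul_cancel₀ (by positivity)
          rw [e1, e2, mul_one]
  · rw [lintegral_const, ENNReal.ofReal_mul (p := C) hC0.le]
    have h1 : sig (d + 1) univ ≤ ENNReal.ofReal ((sig (d + 1) univ).toReal + 1) := by
      rw [← ENNReal.ofReal_toReal (a := sig (d + 1) univ) sig_univ_lt_top.ne]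
      apply ENNReal.ofReal_le_ofReal
      rw [ENNReal.toReal_ofReal ENNReal.toReal_nonneg]
      linarith
    calc ENNReal.ofReal C * I * sig (d + 1) univ = ENNReal.ofReal C * sig (d + 1) univ * I := by ring
      _ ≤ _ := by gcongr

end Pool.Agent.H668.Fol
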