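import Pool.Agent.H668.Fol.CritPt

/-!
# Foliated functions: the estimate near a critical point and the global estimate
-/

set_option autoImplicit false

open MeasureTheory Set Filter Topology ENNReal NNReal Metric

namespace Pool.Agent.H668.Fol

open Pool.Agent.W770.SA Pool.Agent.R251.Lam

variable {d : ℕ} {F : EuclideanSpace ℝ (Fin (d + 1)) → ℝ} {k : ℕ}
  {U : Set (EuclideanSpace ℝ (Fin (d + 1)))}

theorem Maj.empty (δ : ℝ) (f : EuclideanSpace ℝ (Fin (d + 1)) → ℝ) (M : ℝ≥0∞) :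
    Maj δ ((∅ : Set (EuclideanSpace ℝ (Fin (d + 1)))).indicator f) M := by
  refine ⟨fun _ => 0, measurable_const, fun e => ?_, by simp⟩
  have h1 : kakeyaMax δ ((∅ : Set (EuclideanSpace ℝ (Fin (d + 1)))).indicator f)
      (e : EuclideanSpace ℝ (Fin (d + 1))) = 0 := by
    refine le_antisymm (iSup_le fun a => ?_) zero_le
    simp
  rw [h1, zero_pow (by omega)]

theorem near_crit (hU : IsOpen U) (hk : 1 ≤ k)
    (hF : ContDiffOn ℝ ((k + 1 : ℕ) : ℕ∞) F U) {z₀ : EuclideanSpace ℝ (Fin (d + 1))}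
    (hz : z₀ ∈ U) (hcrit : fderiv ℝ F z₀ = 0) {c : ℝ} (hc : 0 < c)
    (hnd : ∀ᶠ y in 𝓝 z₀, c * ‖y - z₀‖ ≤ ‖fderiv ℝ F y‖) (ε : ℝ) (hε : 0 < ε) :
    ∃ ρ C : ℝ, 0 < ρ ∧ 0 < C ∧ ball z₀ ρ ⊆ U ∧ ∀ B : Set (EuclideanSpace ℝ (Fin (d + 1))),
      B ⊆ ball z₀ ρ → MeasurableSet B → ∀ g : ℝ → ℝ, Measurable g →
      ∀ δ : ℝ, 0 < δ → δ < 1 →
      Maj δ (B.indicator fun x => g (F x))
        (ENNReal.ofReal (C * δ ^ (-((d:ℝ) / (k + 1) + ε))) *
          ∫⁻ x in U, ‖g (F x)‖ₑ ^ (d + 1)) := by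
  classical
  have hcont : ContinuousOn F U := hF.continuousOn
  obtain ⟨ρ₀, C₁, hρ₀, hρ₀1, hρ₀U, hC₁, hann⟩ :=
    annulus hU hk hF hz hcrit hc hnd (ε / 2) (by positivity)
  obtain ⟨C₂, hC₂, hsmall⟩ := Maj.small d
  obtain ⟨C₃, hC₃, hsc⟩ := few_scales (ε / (2 * (d + 2))) (by positivity)
  have hρ₀U' : ball z₀ ρ₀ ⊆ U := (ball_subset_ball (by linarith)).trans hρ₀U
  refine ⟨ρ₀, C₃ ^ (d + 2) * (C₁ + C₂), hρ₀, by positivity, hρ₀U', ?_⟩
  intro B hB hBm g hg δ hδ hδ1
  have hBU : B ⊆ U := hB.trans hρ₀U'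
  set α : ℝ := (d:ℝ) / (k + 1) + ε / 2 with hα
  have hα0 : 0 < α := by positivity
  set I : ℝ≥0∞ := ∫⁻ x in U, ‖g (F x)‖ₑ ^ (d + 1) with hI
  obtain ⟨K, hK1, hK2⟩ := hsc δ hδ hδ1.le
  set ρ : ℕ → ℝ := fun j => ρ₀ * (1 / 2) ^ j with hρ
  have hρ0 : ∀ j, 0 < ρ j := fun j => by simp only [hρ]; positivity
  have hρle : ∀ j, ρ j ≤ ρ₀ := fun j => by
    have : (1 / 2 : ℝ) ^ j ≤ 1 := pow_le_one₀ (by norm_num) (by norm_num)
    simp only [hρ]
    nlinarith
  set Bs : ℕ → Set (EuclideanSpace ℝ (Fin (d + 1))) := fun j =>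
    if j = K then B ∩ closedBall z₀ δ else
    if δ < ρ j then B ∩ {x | ρ j / 2 ≤ ‖x - z₀‖ ∧ ‖x - z₀‖ ≤ ρ j} else ∅ with hBs
  have hBsm : ∀ j, MeasurableSet (Bs j) := by
    intro j
    simp only [hBs]
    split_ifs
    · exact hBm.inter measurableSet_closedBall
    · have hc1 : Continuous fun x : EuclideanSpace ℝ (Fin (d + 1)) => ‖x - z₀‖ := by fun_prop
      exact hBm.inter ((isClosed_le continuous_const hc1).inter
        (isClosed_le hc1 continuous_const)).measurableSet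
    · exact MeasurableSet.empty
  have hBsB : ∀ j, Bs j ⊆ B := by
    intro j
    simp only [hBs]
    split_ifs
    · exact inter_subset_left
    · exact inter_subset_left
    · exact empty_subset _
  set M : ℝ≥0∞ := ENNReal.ofReal ((C₁ + C₂) * δ ^ (-α)) * I with hM
  have hδα : 1 ≤ δ ^ (-α) := Real.one_le_rpow_of_pos_of_le_one_of_nonpos hδ hδ1.le (by linarith)
  have hmaj : ∀ j ∈ Finset.range (K + 1), Maj δ ((Bs j).indicator fun x => g (F x)) M := by
    intro j _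
    by_cases h1 : j = K
    · have e1 : Bs j = B ∩ closedBall z₀ δ := by simp only [hBs]; rw [if_pos h1]
      rw [e1]
      set B' := B ∩ closedBall z₀ δ with hB'
      have hB'm : MeasurableSet B' := hBm.inter measurableSet_closedBall
      have hB'U : B' ⊆ U := inter_subset_left.trans hBU
      refine Maj.mono (hsmall δ hδ z₀ _ (meas_indU hcont hB'U hB'm hg) ?_) ?_
      · intro y hy
        have h2 : y ∈ B' := by
          by_contra hcon
          exact hy (indicator_of_notMem hcon _)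
        have h3 := h2.2
        rwa [mem_closedBall, dist_eq_norm] at h3
      · have h2 : ∫⁻ y, ‖B'.indicator (fun x => g (F x)) y‖ₑ ^ (d + 1) ≤ I := by
          rw [hI, ← lintegral_indicator hU.measurableSet]
          apply lintegral_mono
          intro y
          by_cases hy : y ∈ B'
          · show ‖B'.indicator (fun x => g (F x)) y‖ₑ ^ (d + 1) ≤ _
            rw [indicator_of_mem hy, indicator_of_mem (hB'U hy)]
          · show ‖B'.indicator (fun x => g (F x)) y‖ₑ ^ (d + 1) ≤ _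
            rw [indicator_of_notMem hy, enorm_zero, zero_pow (by omega)]
            exact zero_le
        rw [hM]
        gcongr
        nlinarith
    · by_cases h2 : δ < ρ j
      · have e1 : Bs j = B ∩ {x | ρ j / 2 ≤ ‖x - z₀‖ ∧ ‖x - z₀‖ ≤ ρ j} := by
          simp only [hBs]; rw [if_neg h1, if_pos h2]
        have h3 := hann (ρ j) (hρ0 j) (hρle j) (Bs j) (by
          intro x hx
          rw [e1] at hx
          exact hx.2) (hBsm j) g hg δ hδ h2
        refine Maj.mono h3 ?_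
        rw [hM]
        refine mul_le_mul_left (ENNReal.ofReal_le_ofReal ?_) _
        have h4 : (δ / ρ j) ^ (-α) ≤ δ ^ (-α) := by
          apply Real.rpow_le_rpow_of_nonpos hδ _ (by linarith)
          rw [le_div_iff₀ (hρ0 j)]
          have : ρ j ≤ 1 := (hρle j).trans hρ₀1
          nlinarith
        have h5 : 0 < δ ^ (-α) := by positivity
        calc C₁ * (δ / ρ j) ^ (-α) ≤ C₁ * δ ^ (-α) := by gcongr
          _ ≤ _ := by nlinarith
      · have e1 : Bs j = ∅ := by simp only [hBs]; rw [if_neg h1, if_neg h2]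
        rw [e1]
        exact Maj.empty δ _ M
  have hpt : ∀ y, ‖B.indicator (fun x => g (F x)) y‖ₑ ≤
      ∑ j ∈ Finset.range (K + 1), ‖(Bs j).indicator (fun x => g (F x)) y‖ₑ := by
    intro y
    by_cases hy : y ∈ B
    · have hex : ∃ j ∈ Finset.range (K + 1), y ∈ Bs j := by
        by_cases h1 : ‖y - z₀‖ ≤ δ
        · refine ⟨K, Finset.mem_range.2 (by omega), ?_⟩
          simp only [hBs]
          rw [if_true]
          exact ⟨hy, by rwa [mem_closedBall, dist_eq_norm]⟩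
        · push Not at h1
          have h2 : ‖y - z₀‖ < ρ₀ := by
            have := hB hy
            rwa [mem_ball, dist_eq_norm] at this
          obtain ⟨n, hn1, hn2⟩ := exists_nat_pow_near_of_lt_one (x := ‖y - z₀‖ / ρ₀)
            (y := (1 / 2 : ℝ)) (div_pos (hδ.trans h1) hρ₀) (by rw [div_le_one hρ₀]; exact h2.le)
            (by norm_num) (by norm_num)
          rw [lt_div_iff₀ hρ₀] at hn1
          rw [div_le_iff₀ hρ₀] at hn2
          have h3 : ‖y - z₀‖ ≤ ρ n := by simp only [hρ]; linarith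
          have h4 : ρ n / 2 ≤ ‖y - z₀‖ := by
            simp only [hρ]
            rw [pow_succ] at hn1
            linarith
          have h5 : δ < ρ n := by linarith
          have h6 : n < K := by
            have h7 : (1 / 2 : ℝ) ^ K < (1 / 2) ^ n := by
              have h8 : ρ n ≤ (1 / 2) ^ n := by
                simp only [hρ]
                have : 0 < (1 / 2 : ℝ) ^ n := by positivity
                nlinarith
              linarith
            exact (pow_lt_pow_iff_right_of_lt_one₀ (by norm_num) (by norm_num)).1 h7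
          refine ⟨n, Finset.mem_range.2 (by omega), ?_⟩
          simp only [hBs]
          rw [if_neg (by omega), if_pos h5]
          exact ⟨hy, h4, h3⟩
      obtain ⟨j, hj, hyj⟩ := hex
      have h1 : ‖B.indicator (fun x => g (F x)) y‖ₑ =
          ‖(Bs j).indicator (fun x => g (F x)) y‖ₑ := by
        rw [indicator_of_mem hy, indicator_of_mem hyj]
      rw [h1]
      exact Finset.single_le_sum (f := fun j => ‖(Bs j).indicator (fun x => g (F x)) y‖ₑ)
        (fun _ _ => zero_le) hj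
    · rw [indicator_of_notMem hy, enorm_zero]
      exact zero_le
  have hsum := Maj.sum (Finset.range (K + 1)) (fun j => (Bs j).indicator fun x => g (F x))
    (fun j _ => meas_indU hcont ((hBsB j).trans hBU) (hBsm j) hg) hpt (fun _ => M) hmaj
  refine Maj.mono hsum ?_
  rw [Finset.sum_const, Finset.card_range, nsmul_eq_mul]
  have hpow : ((K:ℝ) + 1) ^ (d + 2) ≤ C₃ ^ (d + 2) * δ ^ (-(ε / 2)) := by
    calc ((K:ℝ) + 1) ^ (d + 2) ≤ (C₃ * δ ^ (-(ε / (2 * (d + 2))))) ^ (d + 2) := by gcongr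
      _ = C₃ ^ (d + 2) * δ ^ (-(ε / 2)) := by
          rw [mul_pow]
          congr 1
          rw [← Real.rpow_natCast, ← Real.rpow_mul hδ.le]
          congr 1
          push_cast
          field_simp
  calc ((K + 1 : ℕ) : ℝ≥0∞) ^ (d + 1) * (((K + 1 : ℕ) : ℝ≥0∞) * M)
      = ENNReal.ofReal (((K:ℝ) + 1) ^ (d + 2) * ((C₁ + C₂) * δ ^ (-α))) * I := by
        rw [hM, ENNReal.ofReal_mul (p := ((K:ℝ) + 1) ^ (d + 2)) (by positivity),
          ENNReal.ofReal_pow (by positivity)]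
        have e1 : ENNReal.ofReal ((K:ℝ) + 1) = ((K + 1 : ℕ) : ℝ≥0∞) := by
          rw [← ENNReal.ofReal_natCast]; push_cast; rfl
        rw [e1]
        ring
    _ ≤ ENNReal.ofReal (C₃ ^ (d + 2) * (C₁ + C₂) *
        δ ^ (-((d:ℝ) / (k + 1) + ε))) * I := by
        refine mul_le_mul_left (ENNReal.ofReal_le_ofReal ?_) _
        have e2 : δ ^ (-((d:ℝ) / (k + 1) + ε)) = δ ^ (-(ε / 2)) * δ ^ (-α) := by
          rw [← Real.rpow_add hδ]
          congr 1
          rw [hα]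
          ring
        rw [e2]
        calc ((K:ℝ) + 1) ^ (d + 2) * ((C₁ + C₂) * δ ^ (-α))
            ≤ (C₃ ^ (d + 2) * δ ^ (-(ε / 2))) * ((C₁ + C₂) * δ ^ (-α)) := by gcongr
          _ = _ := by ring

/-- the global estimate, for functions with nondegenerate critical points -/
theorem global_morse (hU : IsOpen U) (hk : 1 ≤ k) (hF : ContDiffOn ℝ ((k + 1 : ℕ) : ℕ∞) F U)
    (hnd : ∀ x ∈ U, fderiv ℝ F x = 0 → ∃ c : ℝ, 0 < c ∧
      ∀ᶠ y in 𝓝 x, c * ‖y - x‖ ≤ ‖fderiv ℝ F y‖)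
    {K : Set (EuclideanSpace ℝ (Fin (d + 1)))}
    (hK : IsCompact K) (hKU : K ⊆ U) (ε : ℝ) (hε : 0 < ε) :
    ∃ C : ℝ, 0 < C ∧ ∀ (δ : ℝ) (g : ℝ → ℝ), 0 < δ → δ < 1 → Measurable g →
      ∫⁻ e : sphere (0 : EuclideanSpace ℝ (Fin (d + 1))) 1,
        kakeyaMax δ (K.indicator fun x => g (F x)) (e : EuclideanSpace ℝ (Fin (d + 1))) ^ (d + 1)
          ∂(sig (d + 1)) ≤
        ENNReal.ofReal (C * δ ^ (-((d:ℝ) / (k + 1) + ε))) *
          ∫⁻ x in U, ‖g (F x)‖ₑ ^ (d + 1) := by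
  classical
  have hcont : ContinuousOn F U := hF.continuousOn
  have hloc : ∀ x ∈ K, ∃ ρ C : ℝ, 0 < ρ ∧ 0 < C ∧
      ∀ B : Set (EuclideanSpace ℝ (Fin (d + 1))), B ⊆ ball x ρ → MeasurableSet B →
      ∀ g : ℝ → ℝ, Measurable g → ∀ δ : ℝ, 0 < δ → δ < 1 →
      Maj δ (B.indicator fun x => g (F x))
        (ENNReal.ofReal (C * δ ^ (-((d:ℝ) / (k + 1) + ε))) *
          ∫⁻ x in U, ‖g (F x)‖ₑ ^ (d + 1)) := by
    intro x hx
    by_cases h0 : fderiv ℝ F x = 0
    · obtain ⟨c, hc, hc2⟩ := hnd x (hKU hx) h0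
      obtain ⟨ρ, C, h1, h2, -, h3⟩ := near_crit hU hk hF (hKU hx) h0 hc hc2 ε hε
      exact ⟨ρ, C, h1, h2, h3⟩
    · obtain ⟨ρ, C, h1, h2, h3⟩ := near hU hF (hKU hx) h0 ε hε
      exact ⟨ρ, C, h1, h2, fun B hB hBm g hg δ hδ hδ1 => (h3 B hB hBm g hg).2 δ hδ hδ1⟩
  choose! ρ C hρ hC hnear using hloc
  obtain ⟨t, htK, hcov⟩ := hK.elim_nhds_subcover (fun x => ball x (ρ x))
    (fun x hx => ball_mem_nhds x (hρ x hx))
  have hCs : 0 ≤ ∑ x ∈ t, C x := Finset.sum_nonneg fun x hx => (hC x (htK x hx)).le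
  refine ⟨(t.card : ℝ) ^ (d + 1) * (∑ x ∈ t, C x) + 1, by positivity, ?_⟩
  intro δ g hδ hδ1 hg
  set B : EuclideanSpace ℝ (Fin (d + 1)) → Set (EuclideanSpace ℝ (Fin (d + 1))) :=
    fun x => K ∩ ball x (ρ x) with hB
  have hBm : ∀ x, MeasurableSet (B x) := fun x => hK.measurableSet.inter measurableSet_ball
  have hBb : ∀ x, B x ⊆ ball x (ρ x) := fun x => inter_subset_right
  have hBU : ∀ x, B x ⊆ U := fun x => inter_subset_left.trans hKU
  set I : ℝ≥0∞ := ∫⁻ x in U, ‖g (F x)‖ₑ ^ (d + 1) with hI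
  have hpt : ∀ y, ‖K.indicator (fun x => g (F x)) y‖ₑ ≤
      ∑ x ∈ t, ‖(B x).indicator (fun y => g (F y)) y‖ₑ := by
    intro y
    by_cases hy : y ∈ K
    · obtain ⟨x, hx, hyx⟩ := mem_iUnion₂.1 (hcov hy)
      have h1 : ‖K.indicator (fun x => g (F x)) y‖ₑ =
          ‖(B x).indicator (fun y => g (F y)) y‖ₑ := by
        rw [indicator_of_mem hy, indicator_of_mem (show y ∈ B x from ⟨hy, hyx⟩)]
      rw [h1]
      exact Finset.single_le_sum (f := fun x => ‖(B x).indicator (fun y => g (F y)) y‖ₑ)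
        (fun _ _ => zero_le) hx
    · rw [indicator_of_notMem hy, enorm_zero]
      exact zero_le
  obtain ⟨Ψ, -, hΨ2, hΨ3⟩ := Maj.sum t (fun x => (B x).indicator fun y => g (F y))
    (fun x _ => meas_indU hcont (hBU x) (hBm x) hg) hpt _
    (fun x hx => hnear x (htK x hx) (B x) (hBb x) (hBm x) g hg δ hδ hδ1)
  refine (lintegral_mono hΨ2).trans (hΨ3.trans ?_)
  calc (t.card : ℝ≥0∞) ^ (d + 1) * ∑ x ∈ t,
        ENNReal.ofReal (C x * δ ^ (-((d:ℝ) / (k + 1) + ε))) * I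
      = ENNReal.ofReal ((t.card : ℝ) ^ (d + 1) * (∑ x ∈ t, C x) *
        δ ^ (-((d:ℝ) / (k + 1) + ε))) * I := by
        rw [← Finset.sum_mul, ← ENNReal.ofReal_sum_of_nonneg (fun x hx => by
          have := hC x (htK x hx)
          positivity), ← Finset.sum_mul, ← mul_assoc, ← ENNReal.ofReal_natCast,
          ← ENNReal.ofReal_pow (by positivity), ← ENNReal.ofReal_mul (by positivity)]
        congr 2
        ring
    _ ≤ ENNReal.ofReal (((t.card : ℝ) ^ (d + 1) * (∑ x ∈ t, C x) + 1) *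
        δ ^ (-((d:ℝ) / (k + 1) + ε))) * I := by
        refine mul_le_mul_left (ENNReal.ofReal_le_ofReal ?_) _
        have : 0 < δ ^ (-((d:ℝ) / (k + 1) + ε)) := by positivity
        nlinarith

end Pool.Agent.H668.Fol
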