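import Mathlib

/-!
# Foliated functions: integrals along a segment
-/

set_option autoImplicit false

open MeasureTheory Set Filter Topology ENNReal NNReal Metric

namespace Pool.Agent.H668.Fol

/-- splitting an interval at finitely many points -/
theorem split (H : ℝ → ℝ≥0∞) (B : ℝ≥0∞) : ∀ (m : ℕ) (R : Finset ℝ) (T : Set ℝ), R.card ≤ m →
    T.OrdConnected →
    (∀ I : Set ℝ, I ⊆ T → I.OrdConnected → (∀ ρ ∈ R, ρ ∉ I) → ∫⁻ t in I, H t ≤ B) →
    ∫⁻ t in T, H t ≤ ((m + 1 : ℕ) : ℝ≥0∞) * B := by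
  classical
  intro m
  induction m using Nat.strong_induction_on with
  | _ m ih =>
    intro R T hR hT h
    by_cases hc : ∃ ρ ∈ R, ρ ∈ T
    · obtain ⟨ρ, hρR, hρT⟩ := hc
      set R1 := R.filter (fun x => x < ρ) with hR1
      set R2 := R.filter (fun x => ρ < x) with hR2
      have hcard : R1.card + R2.card + 1 ≤ R.card := by
        have h1 : R1 ∪ (R2 ∪ {ρ}) ⊆ R := by
          intro x hx
          rcases Finset.mem_union.1 hx with hx | hx
          · exact (Finset.mem_filter.1 hx).1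
          · rcases Finset.mem_union.1 hx with hx | hx
            · exact (Finset.mem_filter.1 hx).1
            · rw [Finset.mem_singleton] at hx
              exact hx ▸ hρR
        have h2 : (R2 ∪ {ρ}).card = R2.card + 1 := by
          rw [Finset.card_union_of_disjoint, Finset.card_singleton]
          rw [Finset.disjoint_singleton_right, hR2, Finset.mem_filter]
          exact fun h => lt_irrefl _ h.2
        have h3 : (R1 ∪ (R2 ∪ {ρ})).card = R1.card + (R2.card + 1) := by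
          rw [Finset.card_union_of_disjoint, h2]
          rw [Finset.disjoint_left]
          intro x hx1 hx2
          have hx1' := (Finset.mem_filter.1 hx1).2
          rcases Finset.mem_union.1 hx2 with hx2 | hx2
          · exact lt_asymm hx1' (Finset.mem_filter.1 hx2).2
          · rw [Finset.mem_singleton] at hx2
            exact absurd hx1' (by rw [hx2]; exact lt_irrefl _)
        have h4 := Finset.card_le_card h1
        omega
      have h1 := ih R1.card (by omega) R1 (T ∩ Iio ρ) le_rfl (hT.inter ordConnected_Iio)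
        (fun I hI hIo hIR => h I (hI.trans inter_subset_left) hIo (by
          intro r hr hrI
          exact hIR r (Finset.mem_filter.2 ⟨hr, (hI hrI).2⟩) hrI))
      have h2 := ih R2.card (by omega) R2 (T ∩ Ioi ρ) le_rfl (hT.inter ordConnected_Ioi)
        (fun I hI hIo hIR => h I (hI.trans inter_subset_left) hIo (by
          intro r hr hrI
          exact hIR r (Finset.mem_filter.2 ⟨hr, (hI hrI).2⟩) hrI))
      have hsub : T ⊆ (T ∩ Iio ρ) ∪ ({ρ} ∪ (T ∩ Ioi ρ)) := by
        intro x hx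
        rcases lt_trichotomy x ρ with hlt | heq | hgt
        · exact Or.inl ⟨hx, hlt⟩
        · exact Or.inr (Or.inl heq)
        · exact Or.inr (Or.inr ⟨hx, hgt⟩)
      calc ∫⁻ t in T, H t ≤ ∫⁻ t in (T ∩ Iio ρ) ∪ ({ρ} ∪ (T ∩ Ioi ρ)), H t :=
            lintegral_mono_set hsub
        _ ≤ (∫⁻ t in T ∩ Iio ρ, H t) + ((∫⁻ t in {ρ}, H t) + ∫⁻ t in T ∩ Ioi ρ, H t) :=
            (lintegral_union_le _ _ _).trans (add_le_add le_rfl (lintegral_union_le _ _ _))
        _ = (∫⁻ t in T ∩ Iio ρ, H t) + ∫⁻ t in T ∩ Ioi ρ, H t := by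
            rw [setLIntegral_measure_zero {ρ} _ (by simp), zero_add]
        _ ≤ ((R1.card + 1 : ℕ) : ℝ≥0∞) * B + ((R2.card + 1 : ℕ) : ℝ≥0∞) * B := add_le_add h1 h2
        _ = ((R1.card + 1 + (R2.card + 1) : ℕ) : ℝ≥0∞) * B := by rw [← add_mul]; push_cast; rfl
        _ ≤ ((m + 1 : ℕ) : ℝ≥0∞) * B := by
            have hle : R1.card + 1 + (R2.card + 1) ≤ m + 1 := by omega
            exact mul_le_mul_left (Nat.cast_le.2 hle) _
    · push Not at hc
      calc ∫⁻ t in T, H t ≤ B := h T subset_rfl hT hc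
        _ = ((1 : ℕ) : ℝ≥0∞) * B := by simp
        _ ≤ ((m + 1 : ℕ) : ℝ≥0∞) * B := by
            gcongr
            omega

/-- change of variables, as an inequality -/
theorem lint_comp_le {I : Set ℝ} (hI : I.OrdConnected) {φ φ' : ℝ → ℝ} {a : ℝ} (ha : 0 < a)
    (hφ : ∀ t ∈ I, HasDerivAt φ (φ' t) t) (hφ' : ∀ t ∈ I, a ≤ |φ' t|) (G : ℝ → ℝ≥0∞) {J : Set ℝ}
    (hJ : ∀ t ∈ I, φ t ∈ J) :
    ∫⁻ t in I, G (φ t) ≤ ENNReal.ofReal (1 / a) * ∫⁻ s in J, G s := by
  have hlt : ∀ x ∈ I, ∀ y ∈ I, x < y → φ x ≠ φ y := by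
    intro x hx y hy hxy hne
    obtain ⟨c, hc, hc0⟩ := exists_hasDerivAt_eq_zero hxy
      (fun z hz => (hφ z (hI.out hx hy hz)).continuousAt.continuousWithinAt) hne
      (fun z hz => hφ z (hI.out hx hy (Ioo_subset_Icc_self hz)))
    have := hφ' c (hI.out hx hy (Ioo_subset_Icc_self hc))
    rw [hc0, abs_zero] at this
    linarith
  have hinj : InjOn φ I := by
    intro x hx y hy hxy
    rcases lt_trichotomy x y with h | h | h
    · exact absurd hxy (hlt x hx y hy h)
    · exact h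
    · exact absurd hxy.symm (hlt y hy x hx h)
  have h1 := lintegral_image_eq_lintegral_abs_deriv_mul hI.measurableSet
    (fun t ht => (hφ t ht).hasDerivWithinAt) hinj G
  have himg : φ '' I ⊆ J := by
    rintro _ ⟨t, ht, rfl⟩
    exact hJ t ht
  calc ∫⁻ t in I, G (φ t)
      ≤ ∫⁻ t in I, ENNReal.ofReal (1 / a) * (ENNReal.ofReal |φ' t| * G (φ t)) := by
        apply setLIntegral_mono' hI.measurableSet
        intro t ht
        rw [← mul_assoc, ← ENNReal.ofReal_mul (by positivity)]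
        have h2 : 1 ≤ 1 / a * |φ' t| := by
          rw [div_mul_eq_mul_div, one_mul, le_div_iff₀ ha, one_mul]
          exact hφ' t ht
        calc G (φ t) = 1 * G (φ t) := (one_mul _).symm
          _ ≤ ENNReal.ofReal (1 / a * |φ' t|) * G (φ t) := by
              gcongr
              exact ENNReal.one_le_ofReal.2 h2
    _ = ENNReal.ofReal (1 / a) * ∫⁻ t in I, ENNReal.ofReal |φ' t| * G (φ t) :=
        lintegral_const_mul' _ _ ENNReal.ofReal_ne_top
    _ = ENNReal.ofReal (1 / a) * ∫⁻ s in φ '' I, G s := by rw [h1]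
    _ ≤ _ := by
        gcongr

/-- translation of an integral over an interval -/
theorem lint_shift (G : ℝ → ℝ≥0∞) (s ρ : ℝ) :
    ∫⁻ u in Icc (-ρ) ρ, G (s + u) = ∫⁻ u in Icc (s - ρ) (s + ρ), G u := by
  have h := (measurePreserving_add_left (volume : Measure ℝ) s).setLIntegral_comp_emb
    (measurableEmbedding_addLeft s) G (Icc (-ρ) ρ)
  rw [h]
  congr 2
  rw [image_const_add_Icc]
  congr 1

/-- one interval of monotonicity -/
theorem piece {I : Set ℝ} (hI : I.OrdConnected) {φ φ' : ℝ → ℝ} {a δ ρ ℓ Q t₀ : ℝ}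
    (ha : 0 < a) (hδ : 0 < δ) (hρ : 0 ≤ ρ) (hφm : Measurable φ)
    (hℓ : 0 ≤ ℓ) (hvol : volume I = ENNReal.ofReal ℓ)
    (hφ : ∀ t ∈ I, HasDerivAt φ (φ' t) t) (hφ' : a * ℓ ≤ δ ∨ ∀ t ∈ I, a ≤ |φ' t|)
    (hQ : ∀ t ∈ I, |φ t - φ t₀| ≤ Q) (G : ℝ → ℝ≥0∞) (hG : Measurable G) :
    ∫⁻ t in I, (∫⁻ u in Icc (-ρ) ρ, G (φ t + u)) ≤
      ENNReal.ofReal (ℓ * (δ + 2 * ρ) / max δ (a * ℓ)) *
        ∫⁻ s in Icc (φ t₀ - (Q + ρ)) (φ t₀ + (Q + ρ)), G s := by
  set J := Icc (φ t₀ - (Q + ρ)) (φ t₀ + (Q + ρ)) with hJ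
  by_cases hc : a * ℓ ≤ δ
  · rw [max_eq_left hc]
    have h1 : ∀ t ∈ I, ∫⁻ u in Icc (-ρ) ρ, G (φ t + u) ≤ ∫⁻ s in J, G s := by
      intro t ht
      rw [lint_shift]
      apply lintegral_mono_set
      intro s hs
      have h2 := hQ t ht
      rw [abs_le] at h2
      constructor
      · linarith [hs.1, h2.1]
      · linarith [hs.2, h2.2]
    calc ∫⁻ t in I, (∫⁻ u in Icc (-ρ) ρ, G (φ t + u)) ≤ ∫⁻ _t in I, ∫⁻ s in J, G s :=
          setLIntegral_mono' hI.measurableSet h1
      _ = (∫⁻ s in J, G s) * ENNReal.ofReal ℓ := by rw [setLIntegral_const, hvol]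
      _ = ENNReal.ofReal ℓ * ∫⁻ s in J, G s := mul_comm _ _
      _ ≤ _ := by
          gcongr
          rw [le_div_iff₀ hδ]
          nlinarith
  · have hφ'' : ∀ t ∈ I, a ≤ |φ' t| := by
      rcases hφ' with h | h
      · exact absurd h hc
      · exact h
    push Not at hc
    rw [max_eq_right hc.le]
    have hℓ0 : 0 < ℓ := by
      by_contra hcon
      have : ℓ = 0 := le_antisymm (not_lt.1 hcon) hℓ
      rw [this, mul_zero] at hc
      linarith
    have hsw : ∫⁻ t in I, (∫⁻ u in Icc (-ρ) ρ, G (φ t + u)) =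
        ∫⁻ u in Icc (-ρ) ρ, (∫⁻ t in I, G (φ t + u)) := by
      apply lintegral_lintegral_swap
      exact (hG.comp ((hφm.comp measurable_fst).add measurable_snd)).aemeasurable
    rw [hsw]
    have h1 : ∀ u ∈ Icc (-ρ) ρ, ∫⁻ t in I, G (φ t + u) ≤
        ENNReal.ofReal (1 / a) * ∫⁻ s in J, G s := by
      intro u hu
      apply lint_comp_le (φ := fun t => φ t + u) (φ' := φ') hI ha
        (fun t ht => (hφ t ht).add_const u) hφ'' G
      intro t ht
      have h2 := hQ t ht
      rw [abs_le] at h2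
      constructor
      · linarith [hu.1, h2.1]
      · linarith [hu.2, h2.2]
    calc ∫⁻ u in Icc (-ρ) ρ, (∫⁻ t in I, G (φ t + u))
        ≤ ∫⁻ _u in Icc (-ρ) ρ, ENNReal.ofReal (1 / a) * ∫⁻ s in J, G s :=
          setLIntegral_mono' measurableSet_Icc h1
      _ = (ENNReal.ofReal (1 / a) * ∫⁻ s in J, G s) * ENNReal.ofReal (ρ - -ρ) := by
          rw [setLIntegral_const, Real.volume_Icc]
      _ = ENNReal.ofReal (1 / a * (2 * ρ)) * ∫⁻ s in J, G s := by
          rw [ENNReal.ofReal_mul (by positivity)]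
          have : ρ - -ρ = 2 * ρ := by ring
          rw [this]
          ring
      _ ≤ _ := by
          gcongr
          rw [div_mul_eq_mul_div, one_mul, div_le_div_iff₀ ha (by positivity)]
          nlinarith [mul_pos ha hℓ0]

end Pool.Agent.H668.Fol
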