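import Pool.Agent.R251.Lam.Main

/-!
# Foliated functions: packing
-/

set_option autoImplicit false

open MeasureTheory Set Filter Topology ENNReal NNReal Metric

namespace Pool.Agent.H668.Fol

open Pool.Agent.W770.SA Pool.Agent.R251.Lam

variable {d : ℕ} {F : EuclideanSpace ℝ (Fin (d + 1)) → ℝ} {k : ℕ}
  {z₀ : EuclideanSpace ℝ (Fin (d + 1))} {R A L m : ℝ} {i : Fin (d + 1)}

theorem card_pack (s : Finset (EuclideanSpace ℝ (Fin (d + 1)))) {r ρ : ℝ} (hr : 0 < r)
    (hρ : 0 ≤ ρ) (x : EuclideanSpace ℝ (Fin (d + 1))) (hs : ∀ p ∈ s, dist p x ≤ ρ)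
    (hsep : ∀ p ∈ s, ∀ q ∈ s, p ≠ q → r ≤ dist p q) :
    (s.card : ℝ) * (r / 2) ^ (d + 1) ≤ (ρ + r) ^ (d + 1) := by
  classical
  have hsub : (⋃ p ∈ s, ball p (r / 2)) ⊆ ball x (ρ + r) := by
    intro y hy
    rw [mem_iUnion₂] at hy
    obtain ⟨p, hp, hyp⟩ := hy
    rw [mem_ball] at hyp ⊢
    have := hs p hp
    linarith [dist_triangle y p x]
  have h1 := measure_mono (μ := volume) hsub
  rw [measure_biUnion_finset, Finset.sum_congr rfl fun p _ => vol_ball p (by positivity : 0 < r / 2),
    Finset.sum_const, nsmul_eq_mul, vol_ball x (by positivity : 0 < ρ + r),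
    ← ENNReal.ofReal_natCast, ← ENNReal.ofReal_mul (by positivity), ENNReal.ofReal_le_ofReal_iff (by
      have := omg_pos (d := d)
      positivity), ← mul_assoc] at h1
  · exact le_of_mul_le_mul_right h1 omg_pos
  · intro p hp q hq hpq
    apply ball_disjoint_ball
    linarith [hsep p hp q hq hpq]
  · exact fun _ _ => measurableSet_ball

/-- the volume of a slab between two leaves -/
theorem vol_slab (h : Chart F k z₀ R A L m i) (c : ℝ) {η : ℝ} (hη : 0 < η) :
    volume {y : EuclideanSpace ℝ (Fin (d + 1)) | y ∈ ball z₀ (4 * R) ∧ |F y - c| < η} ≤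
      ENNReal.ofReal (4 * η / m * 8 ^ d) := by
  have hm := h.m0
  have hR := h.R0
  have hR1 := h.R1
  have hcont : ContinuousOn F (ball z₀ (4 * R)) := fun x hx =>
    (h.smooth x hx).continuousAt.continuousWithinAt
  have hopen : IsOpen {y : EuclideanSpace ℝ (Fin (d + 1)) | y ∈ ball z₀ (4 * R) ∧
      |F y - c| < η} :=
    (hcont.sub continuousOn_const).abs.isOpen_inter_preimage isOpen_ball isOpen_Iio
  have h1 := fib hopen.measurableSet (x₀ := z₀) (R := 4 * R)
    (fun y hy => (ball_subset_closedBall hy.1)) i (ℓ := 2 * η / m) (by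
      intro x hx t ht
      rw [le_div_iff₀ hm]
      have h2 := h.anti x hx.1 t ht.1
      have h3 := abs_lt.1 hx.2
      have h4 := abs_lt.1 ht.2
      have h5 : |F (x + t • EuclideanSpace.single i (1:ℝ)) - F x| ≤ 2 * η := by
        rw [abs_le]
        constructor <;> linarith [h3.1, h3.2, h4.1, h4.2]
      linarith)
  refine h1.trans ?_
  rw [← ENNReal.ofReal_pow (by positivity), ← ENNReal.ofReal_mul (by positivity)]
  apply ENNReal.ofReal_le_ofReal
  calc 2 * (2 * η / m) * (2 * (4 * R)) ^ d ≤ 2 * (2 * η / m) * 8 ^ d := by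
        gcongr
        linarith
    _ = _ := by ring

/-- the pieces at all the net points have small total volume -/
theorem vol_pieces (h : Chart F k z₀ R A L m i) {δ r : ℝ} (hδ : 0 < δ)
    (hr : 0 < r) (hrR : r ≤ R) (hrδ : A * (2 * r) ^ (k + 1) ≤ δ)
    (s : Finset (EuclideanSpace ℝ (Fin (d + 1)))) (hs : ∀ p ∈ s, p ∈ ball z₀ (2 * R))
    (hsep : ∀ p ∈ s, ∀ q ∈ s, p ≠ q → r ≤ dist p q) (c : ℝ) {η : ℝ} (hη : δ ≤ η) :
    ∑ p ∈ s, volume (pc F k p c r η) ≤ ENNReal.ofReal (6 ^ (d + 1) * 8 ^ (d + 1) / m * η) := by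
  classical
  have hm := h.m0
  have hR := h.R0
  have hη0 : 0 < η := lt_of_lt_of_le hδ hη
  set Y := {y : EuclideanSpace ℝ (Fin (d + 1)) | y ∈ ball z₀ (4 * R) ∧ |F y - c| < 2 * η} with hY
  have hcont : ContinuousOn F (ball z₀ (4 * R)) := fun x hx =>
    (h.smooth x hx).continuousAt.continuousWithinAt
  have hYo : IsOpen Y :=
    (hcont.sub continuousOn_const).abs.isOpen_inter_preimage isOpen_ball isOpen_Iio
  have hpo : ∀ p, IsOpen (pc F k p c r η) := fun p => (pc_basic p hr).isOpen
  have hsubY : ∀ p ∈ s, pc F k p c r η ⊆ Y := by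
    intro p hp y hy
    have hyb : y ∈ ball z₀ (4 * R) := by
      have h1 := hs p hp
      have h2 := hy.1
      rw [mem_ball] at h1 ⊢
      rw [← dist_eq_norm] at h2
      linarith [dist_triangle y p z₀]
    have hpb : p ∈ ball z₀ (4 * R) := by
      have h1 := hs p hp
      rw [mem_ball] at h1 ⊢
      linarith
    have h1 := taylor (convex_ball z₀ (4 * R)) h.smooth h.bound hyb hpb
    have h2 : |F y - evl (tp F k p) y| ≤ δ := by
      refine h1.trans (le_trans ?_ hrδ)
      have := h.A0
      have := hy.1.le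
      gcongr
    refine ⟨hyb, ?_⟩
    have h3 := abs_le.1 h2
    have h4 := abs_lt.1 hy.2
    rw [abs_lt]
    constructor <;> linarith [h3.1, h3.2, h4.1, h4.2]
  have hpt : ∀ y, ∑ p ∈ s, (pc F k p c r η).indicator (1 : EuclideanSpace ℝ (Fin (d + 1)) → ℝ≥0∞) y
      ≤ Y.indicator (fun _ => ENNReal.ofReal (6 ^ (d + 1))) y := by
    intro y
    by_cases hy : y ∈ Y
    · rw [indicator_of_mem hy]
      set s' := s.filter (fun p => y ∈ pc F k p c r η) with hs'
      have h1 : ∑ p ∈ s, (pc F k p c r η).indicator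
          (1 : EuclideanSpace ℝ (Fin (d + 1)) → ℝ≥0∞) y = (s'.card : ℝ≥0∞) := by
        have h2 : ∀ p ∈ s, (pc F k p c r η).indicator
            (1 : EuclideanSpace ℝ (Fin (d + 1)) → ℝ≥0∞) y =
            if y ∈ pc F k p c r η then 1 else 0 := fun p _ => by
          rw [indicator_apply]; rfl
        rw [Finset.sum_congr rfl h2, ← Finset.sum_filter, Finset.sum_const, nsmul_eq_mul, mul_one]
      rw [h1, ← ENNReal.ofReal_natCast]
      apply ENNReal.ofReal_le_ofReal
      have h3 := card_pack s' hr (by positivity : 0 ≤ 2 * r) y (by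
        intro p hp
        have := (Finset.mem_filter.1 hp).2.1
        rw [dist_comm, dist_eq_norm]
        exact this.le) (fun p hp q hq hpq => hsep p (Finset.mem_filter.1 hp).1 q
          (Finset.mem_filter.1 hq).1 hpq)
      have h4 : (2 * r + r) ^ (d + 1) = 6 ^ (d + 1) * (r / 2) ^ (d + 1) := by
        rw [← mul_pow]; congr 1; ring
      rw [h4] at h3
      exact le_of_mul_le_mul_right h3 (by positivity)
    · rw [indicator_of_notMem hy]
      apply le_of_eq
      apply Finset.sum_eq_zero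
      intro p hp
      exact indicator_of_notMem (fun hmem => hy (hsubY p hp hmem)) _
  calc ∑ p ∈ s, volume (pc F k p c r η)
      = ∫⁻ y, ∑ p ∈ s, (pc F k p c r η).indicator
        (1 : EuclideanSpace ℝ (Fin (d + 1)) → ℝ≥0∞) y := by
        rw [lintegral_finsetSum _ (fun p _ => measurable_one.indicator (hpo p).measurableSet)]
        exact Finset.sum_congr rfl fun p _ =>
          (lintegral_indicator_one (hpo p).measurableSet).symm
    _ ≤ ∫⁻ y, Y.indicator (fun _ => ENNReal.ofReal (6 ^ (d + 1))) y := lintegral_mono hpt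
    _ = ENNReal.ofReal (6 ^ (d + 1)) * volume Y := by
        rw [lintegral_indicator hYo.measurableSet, setLIntegral_const]
    _ ≤ ENNReal.ofReal (6 ^ (d + 1)) * ENNReal.ofReal (4 * (2 * η) / m * 8 ^ d) := by
        gcongr
        exact vol_slab h c (by positivity)
    _ = _ := by
        rw [← ENNReal.ofReal_mul (by positivity)]
        congr 1
        rw [pow_succ 8 d]
        ring

end Pool.Agent.H668.Fol
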