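import Pool.Agent.H668.Fol.Int

/-!
# Foliated functions: the choice of the parameters
-/

set_option autoImplicit false

open MeasureTheory Set Filter Topology ENNReal NNReal Metric

namespace Pool.Agent.H668.Fol

open Pool.Agent.W770.SA Pool.Agent.R251.Lam

/-- few dyadic scales -/
theorem few_scales (ε : ℝ) (hε : 0 < ε) : ∃ C : ℝ, 0 < C ∧ ∀ x : ℝ, 0 < x → x ≤ 1 →
    ∃ K : ℕ, (1 / 2 : ℝ) ^ K ≤ x ∧ (K : ℝ) + 1 ≤ C * x ^ (-ε) := by
  have hl2 : 0 < Real.log 2 := Real.log_pos (by norm_num)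
  refine ⟨2 + 1 / (ε * Real.log 2), by positivity, ?_⟩
  intro x hx hx1
  have hlx : 0 ≤ Real.log (1 / x) := Real.log_nonneg (by rw [le_div_iff₀ hx]; linarith)
  refine ⟨⌈Real.log (1 / x) / Real.log 2⌉₊, ?_, ?_⟩
  · have h1 : Real.log (1 / x) ≤ ⌈Real.log (1 / x) / Real.log 2⌉₊ * Real.log 2 := by
      have := Nat.le_ceil (Real.log (1 / x) / Real.log 2)
      rwa [div_le_iff₀ hl2] at this
    have h2 : 1 / x ≤ 2 ^ ⌈Real.log (1 / x) / Real.log 2⌉₊ := by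
      rw [← Real.log_le_log_iff (by positivity) (by positivity), Real.log_pow]
      exact h1
    rw [one_div, inv_pow, inv_le_comm₀ (by positivity) hx, ← one_div]
    exact h2
  · have h1 : (⌈Real.log (1 / x) / Real.log 2⌉₊ : ℝ) < Real.log (1 / x) / Real.log 2 + 1 :=
      Nat.ceil_lt_add_one (by positivity)
    have h2 : Real.log (1 / x) ≤ (1 / x) ^ ε / ε :=
      Real.log_le_rpow_div (by positivity) hε
    have h3 : (1 / x) ^ ε = x ^ (-ε) := by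
      rw [Real.rpow_neg hx.le, one_div, Real.inv_rpow hx.le]
    rw [h3] at h2
    have h4 : 1 ≤ x ^ (-ε) := by
      rw [← h3]
      apply Real.one_le_rpow _ hε.le
      rw [le_div_iff₀ hx]; linarith
    have h5 : Real.log (1 / x) / Real.log 2 ≤ x ^ (-ε) * (1 / (ε * Real.log 2)) := by
      calc Real.log (1 / x) / Real.log 2 ≤ (x ^ (-ε) / ε) / Real.log 2 := by gcongr
        _ = _ := by field_simp
    nlinarith

variable {d : ℕ} {F : EuclideanSpace ℝ (Fin (d + 1)) → ℝ} {k : ℕ}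
  {z₀ : EuclideanSpace ℝ (Fin (d + 1))} {R A L m : ℝ} {i : Fin (d + 1)}

/-- the function is measurable -/
theorem meas_ind (h : Chart F k z₀ R A L m i) {K : Set (EuclideanSpace ℝ (Fin (d + 1)))}
    (hK : K ⊆ ball z₀ R) (hKm : MeasurableSet K) {g : ℝ → ℝ} (hg : Measurable g) :
    Measurable (K.indicator fun x => g (F x)) := by
  classical
  have hR := h.R0
  have hc : ContinuousOn F K := fun x hx =>
    (h.smooth x (ball_subset_ball (by linarith) (hK hx))).continuousAt.continuousWithinAt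
  have h1 : Measurable (K.piecewise F (fun _ => 0)) :=
    hc.measurable_piecewise continuousOn_const hKm
  have h2 : (K.indicator fun x => g (F x)) =
      K.indicator fun x => g (K.piecewise F (fun _ => 0) x) := by
    ext x
    by_cases hx : x ∈ K
    · rw [indicator_of_mem hx, indicator_of_mem hx, piecewise_eq_of_mem _ _ _ hx]
    · rw [indicator_of_notMem hx, indicator_of_notMem hx]
  rw [h2]
  exact (hg.comp h1).indicator hKm

/-- nets exist -/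
theorem net (hR : 0 < R) {r : ℝ} (hr : 0 < r) :
    ∃ s : Finset (EuclideanSpace ℝ (Fin (d + 1))), (∀ p ∈ s, p ∈ ball z₀ (2 * R)) ∧
      (∀ p ∈ s, ∀ q ∈ s, p ≠ q → r ≤ dist p q) ∧
      ∀ x ∈ ball z₀ (2 * R), ∃ p ∈ s, dist x p < r := by
  obtain ⟨N, hN⟩ := exists_nat_ge ((2 * R + r) ^ (d + 1) / (r / 2) ^ (d + 1))
  obtain ⟨s, h1, h2, h3⟩ := exists_net (ball z₀ (2 * R)) r hr N (by
    intro s hs hsep
    have h4 := card_pack s hr (by positivity : 0 ≤ 2 * R) z₀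
      (fun p hp => (mem_ball.1 (hs p hp)).le) hsep
    rw [← le_div_iff₀ (by positivity)] at h4
    exact_mod_cast h4.trans hN)
  exact ⟨s, h1, h2, h3⟩

/-- from the tubes to the segments, for all parameters -/
theorem chart_bound (h : Chart F k z₀ R A L m i) {δ δ₀ r : ℝ} (hδ1 : δ ≤ 1) (hδ₀ : 0 < δ₀)
    (hδ₀δ : δ₀ ≤ δ) (hδ₀R : δ₀ ≤ R)
    (hr : 0 < r) (hrR : r ≤ R) (hrδ : A * (2 * r) ^ (k + 1) ≤ δ₀) {K : ℕ}
    (hK : (1 / 2 : ℝ) ^ K ≤ r * δ₀ / (4 * L + 13))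
    {N : ℕ} (hN : 0 < N) (hNr : 1 / (N : ℝ) ≤ r) (hNr2 : (N : ℝ) * r ≤ 2)
    {B : Set (EuclideanSpace ℝ (Fin (d + 1)))} (hB : B ⊆ ball z₀ R) (hBm : MeasurableSet B)
    {g : ℝ → ℝ} (hg : Measurable g) :
    ∃ Ψ : sphere (0 : EuclideanSpace ℝ (Fin (d + 1))) 1 → ℝ≥0∞, Measurable Ψ ∧
      (∀ e : sphere (0 : EuclideanSpace ℝ (Fin (d + 1))) 1,
      kakeyaMax δ (B.indicator fun x => g (F x)) (e : EuclideanSpace ℝ (Fin (d + 1))) ^ (d + 1)
        ≤ Ψ e) ∧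
      ∫⁻ e, Ψ e ∂(sig (d + 1)) ≤
      (6 * 2 ^ (d + 1) * ENNReal.ofReal (1 / (2 * δ₀ * m))) ^ (d + 1) *
      ((6 * (N : ℝ≥0∞) ^ d * (((2 * k * (K + 1) + 1 : ℕ) : ℝ≥0∞) *
        ENNReal.ofReal ((2 * L + 3) * δ₀ * (4 * (2 * L + 5)))) ^ (d + 1)) *
      (K * (Gam d k K m * (2 ^ (d + 1) * ∫⁻ x, ‖g x‖ₑ ^ (d + 1))))) := by
  have hL := h.L0
  have hR1 := h.R1
  have hδ₀1 : δ₀ ≤ 1 := hδ₀R.trans hR1
  have hr1 : r ≤ 1 := hrR.trans hR1
  have hrδ0 : r * δ₀ ≤ δ₀ := by nlinarith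
  have hx1 : r * δ₀ / (4 * L + 13) ≤ r * δ₀ := by
    rw [div_le_iff₀ (by linarith)]
    have : 0 < r * δ₀ := by positivity
    nlinarith
  have hKa : (1 / 2 : ℝ) ^ K ≤ δ₀ := by linarith
  have hKc : (1 / 2 : ℝ) ^ K ≤ r * δ₀ := by linarith
  have hKb : 4 * L + 12 < 2 ^ K * δ₀ := by
    rw [le_div_iff₀ (by linarith)] at hK
    have h1 : (2:ℝ) ^ K * ((1 / 2 : ℝ) ^ K * (4 * L + 13)) ≤ 2 ^ K * (r * δ₀) := by gcongr
    rw [← mul_assoc, ← mul_pow] at h1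
    norm_num at h1
    have h2 : (2:ℝ) ^ K * (r * δ₀) ≤ 2 ^ K * δ₀ := by gcongr
    linarith
  obtain ⟨s, hs1, hs2, hs3⟩ := net (d := d) (z₀ := z₀) h.R0 hr
  have hG : Measurable fun x => ‖g x‖ₑ := hg.enorm
  obtain ⟨Ψ, hΨm, hΨ, hint⟩ := int_all h hδ₀ hδ₀1 hr hrR hrδ hKa hKb hKc s hs1 hs2 hs3 hN hNr hNr2
    (fun x => ‖g x‖ₑ) hG
  have hf := meas_ind h hB hBm hg
  set c : ℝ≥0∞ := ENNReal.ofReal (1 / (2 * δ₀ * m)) with hc
  set Φ : EuclideanSpace ℝ (Fin (d + 1)) → ℝ≥0∞ := fun e =>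
    ⨆ z : EuclideanSpace ℝ (Fin (d + 1)), ∫⁻ t in Icc (0:ℝ) 1,
        (ball z₀ (2 * R)).indicator (fun y => ∫⁻ u in Icc (-(L * δ₀)) (L * δ₀), ‖g (F y + u)‖ₑ)
          (z + t • e) with hΦ
  have hpt : ∀ e : sphere (0 : EuclideanSpace ℝ (Fin (d + 1))) 1,
      kakeyaMax δ (B.indicator fun x => g (F x)) (e : EuclideanSpace ℝ (Fin (d + 1))) ≤
      6 * 2 ^ (d + 1) * c * Φ (e : EuclideanSpace ℝ (Fin (d + 1))) := by
    intro e
    have he : ‖(e : EuclideanSpace ℝ (Fin (d + 1)))‖ = 1 := by simp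
    refine (kakeyaMax_av (v := EuclideanSpace.single i (1:ℝ)) hδ1 hδ₀ hδ₀δ hf he
      (by simp)).trans ?_
    have e1 : 6 * 2 ^ (d + 1) * c * Φ (e : EuclideanSpace ℝ (Fin (d + 1))) =
        (6 * 2 ^ (d + 1)) * (c * Φ (e : EuclideanSpace ℝ (Fin (d + 1)))) := mul_assoc _ _ _
    rw [e1]
    refine mul_le_mul_right ?_ _
    apply iSup_le
    intro z
    calc ∫⁻ t in Icc (0:ℝ) 1, av δ₀ (B.indicator fun x => g (F x))
          (EuclideanSpace.single i (1:ℝ)) (z + t • (e : EuclideanSpace ℝ (Fin (d + 1))))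
        ≤ ∫⁻ t in Icc (0:ℝ) 1, c * (ball z₀ (2 * R)).indicator
          (fun y => ∫⁻ u in Icc (-(L * δ₀)) (L * δ₀), ‖g (F y + u)‖ₑ)
            (z + t • (e : EuclideanSpace ℝ (Fin (d + 1)))) := by
          apply lintegral_mono
          intro t
          exact av_le h hδ₀ hδ₀R g hB _
      _ = c * ∫⁻ t in Icc (0:ℝ) 1, (ball z₀ (2 * R)).indicator
          (fun y => ∫⁻ u in Icc (-(L * δ₀)) (L * δ₀), ‖g (F y + u)‖ₑ)
            (z + t • (e : EuclideanSpace ℝ (Fin (d + 1)))) :=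
          lintegral_const_mul' _ _ ENNReal.ofReal_ne_top
      _ ≤ c * Φ (e : EuclideanSpace ℝ (Fin (d + 1))) := by
          gcongr
          exact le_iSup (fun z : EuclideanSpace ℝ (Fin (d + 1)) => ∫⁻ t in Icc (0:ℝ) 1,
            (ball z₀ (2 * R)).indicator
              (fun y => ∫⁻ u in Icc (-(L * δ₀)) (L * δ₀), ‖g (F y + u)‖ₑ)
              (z + t • (e : EuclideanSpace ℝ (Fin (d + 1))))) z
  refine ⟨fun e => (6 * 2 ^ (d + 1) * c) ^ (d + 1) * Ψ e, hΨm.const_mul _, fun e => ?_, ?_⟩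
  · calc kakeyaMax δ (B.indicator fun x => g (F x)) (e : EuclideanSpace ℝ (Fin (d + 1))) ^ (d + 1)
        ≤ (6 * 2 ^ (d + 1) * c * Φ (e : EuclideanSpace ℝ (Fin (d + 1)))) ^ (d + 1) :=
          pow_le_pow_left' (hpt e) _
      _ = (6 * 2 ^ (d + 1) * c) ^ (d + 1) * Φ (e : EuclideanSpace ℝ (Fin (d + 1))) ^ (d + 1) :=
          mul_pow _ _ _
      _ ≤ _ := mul_le_mul_right (hΨ e) _
  · rw [lintegral_const_mul _ hΨm]
    gcongr

end Pool.Agent.H668.Fol
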