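import Pool.Agent.H668.Fol.OneD

/-!
# Foliated functions: polynomials of one variable
-/

set_option autoImplicit false

open MeasureTheory Set Filter Topology ENNReal NNReal Metric

namespace Pool.Agent.H668.Fol

open Polynomial in
/-- the points where `|q'|` equals one of the levels `2^{-j}`, `j ≤ K` -/
noncomputable def cuts (q : Polynomial ℝ) (K : ℕ) : Finset ℝ :=
  (Finset.range (K + 1)).biUnion fun j =>
    ((derivative q - C ((1 / 2 : ℝ) ^ j)).roots.toFinset ∪
      (derivative q + C ((1 / 2 : ℝ) ^ j)).roots.toFinset)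

open Polynomial in
theorem cuts_card (q : Polynomial ℝ) {D : ℕ} (hq : q.natDegree ≤ D) (K : ℕ) :
    (cuts q K).card ≤ 2 * D * (K + 1) := by
  classical
  have h0 : ∀ c : ℝ, (derivative q - C c).roots.toFinset.card ≤ D := by
    intro c
    refine (Multiset.toFinset_card_le _).trans ((Polynomial.card_roots' _).trans ?_)
    refine (natDegree_sub_C).le.trans ((natDegree_derivative_le q).trans ?_)
    omega
  have h1 : ∀ c : ℝ, (derivative q + C c).roots.toFinset.card ≤ D := by
    intro c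
    refine (Multiset.toFinset_card_le _).trans ((Polynomial.card_roots' _).trans ?_)
    refine (natDegree_add_C).le.trans ((natDegree_derivative_le q).trans ?_)
    omega
  calc (cuts q K).card ≤ ∑ j ∈ Finset.range (K + 1),
        ((derivative q - C ((1 / 2 : ℝ) ^ j)).roots.toFinset ∪
      (derivative q + C ((1 / 2 : ℝ) ^ j)).roots.toFinset).card := Finset.card_biUnion_le
    _ ≤ ∑ _j ∈ Finset.range (K + 1), 2 * D := by
        apply Finset.sum_le_sum
        intro j _
        refine (Finset.card_union_le _ _).trans ?_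
        have := h0 ((1 / 2 : ℝ) ^ j)
        have := h1 ((1 / 2 : ℝ) ^ j)
        omega
    _ = 2 * D * (K + 1) := by rw [Finset.sum_const, Finset.card_range, smul_eq_mul]; ring

open Polynomial in
/-- between the cuts every level is either above or below `|q'|` -/
theorem dich (q : Polynomial ℝ) (K : ℕ) {I : Set ℝ} (hI : I.OrdConnected)
    (hcut : ∀ ρ ∈ cuts q K, ρ ∉ I) {j : ℕ} (hj : j ≤ K) :
    (∀ t ∈ I, |(derivative q).eval t| ≤ (1 / 2 : ℝ) ^ j) ∨
      (∀ t ∈ I, (1 / 2 : ℝ) ^ j ≤ |(derivative q).eval t|) := by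
  classical
  by_contra hcon
  push Not at hcon
  obtain ⟨⟨t1, ht1, h1⟩, ⟨t2, ht2, h2⟩⟩ := hcon
  have hc : ContinuousOn (fun t => |(derivative q).eval t|) I :=
    ((derivative q).continuous.abs).continuousOn
  obtain ⟨t, ht, hteq⟩ := hI.isPreconnected.intermediate_value ht2 ht1 hc ⟨h2.le, h1.le⟩
  have hteq' : |(derivative q).eval t| = (1 / 2 : ℝ) ^ j := hteq
  apply hcut t _ ht
  rw [cuts, Finset.mem_biUnion]
  refine ⟨j, Finset.mem_range.2 (by omega), ?_⟩
  rw [Finset.mem_union, Multiset.mem_toFinset, Multiset.mem_toFinset]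
  rcases abs_choice ((derivative q).eval t) with h | h
  · left
    rw [h] at hteq'
    rw [mem_roots']
    refine ⟨?_, ?_⟩
    · intro h0
      have : (derivative q).eval t1 = (1 / 2 : ℝ) ^ j := by
        have := congrArg (eval t1) h0
        simpa [sub_eq_zero] using this
      rw [this, abs_of_nonneg (by positivity)] at h1
      exact lt_irrefl _ h1
    · simp [IsRoot.def, hteq']
  · right
    rw [h] at hteq'
    rw [mem_roots']
    refine ⟨?_, ?_⟩
    · intro h0
      have : (derivative q).eval t1 = -(1 / 2 : ℝ) ^ j := by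
        have := congrArg (eval t1) h0
        simp only [eval_add, eval_C, eval_zero] at this
        linarith
      rw [this, abs_neg, abs_of_nonneg (by positivity)] at h1
      exact lt_irrefl _ h1
    · rw [IsRoot.def, eval_add, eval_C]
      linarith

open Polynomial in
/-- the level of an interval between the cuts -/
theorem level (q : Polynomial ℝ) {K : ℕ} {δ L ℓ : ℝ} (hδ : 0 < δ) (hδ1 : δ ≤ 1) (hL : 0 ≤ L)
    (hK : (1 / 2 : ℝ) ^ K ≤ δ) {I : Set ℝ} (hI : I.OrdConnected)
    (hcut : ∀ ρ ∈ cuts q K, ρ ∉ I) (hℓ : 0 ≤ ℓ) (hℓ1 : ℓ ≤ 1)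
    (hlen : ∀ t ∈ I, ∀ t' ∈ I, |t - t'| ≤ ℓ)
    (hlip : ∀ t ∈ I, ∀ t' ∈ I, |q.eval t - q.eval t'| ≤ L * |t - t'| + 2 * δ) :
    ∃ a : ℝ, 0 < a ∧ (a * ℓ ≤ δ ∨ ∀ t ∈ I, a ≤ |(derivative q).eval t|) ∧
      ∀ t ∈ I, ∀ t' ∈ I, |q.eval t - q.eval t'| ≤ (L + 2) * (a * ℓ) + 2 * δ := by
  classical
  have hmv : ∀ c : ℝ, (∀ t ∈ I, |(derivative q).eval t| ≤ c) → ∀ t ∈ I, ∀ t' ∈ I,
      |q.eval t - q.eval t'| ≤ c * |t - t'| := by
    intro c hc t ht t' ht'
    have := hI.convex.norm_image_sub_le_of_norm_hasDerivWithin_le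
      (f := fun t => q.eval t) (f' := fun t => (derivative q).eval t) (C := c)
      (fun x _ => (q.hasDerivAt x).hasDerivWithinAt) hc ht' ht
    exact this
  by_cases hK0 : ∀ t ∈ I, |(derivative q).eval t| ≤ (1 / 2 : ℝ) ^ K
  · refine ⟨(1 / 2 : ℝ) ^ K, by positivity, Or.inl ?_, ?_⟩
    · calc (1 / 2 : ℝ) ^ K * ℓ ≤ δ * 1 := by gcongr
        _ = δ := mul_one _
    · intro t ht t' ht'
      refine (hmv _ hK0 t ht t' ht').trans ?_
      have h1 := hlen t ht t' ht'
      have h2 : (1 / 2 : ℝ) ^ K * |t - t'| ≤ (1 / 2 : ℝ) ^ K * ℓ := by gcongr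
      have h3 : 0 ≤ (1 / 2 : ℝ) ^ K * ℓ := by positivity
      nlinarith
  · have hKK : ∀ t ∈ I, (1 / 2 : ℝ) ^ K ≤ |(derivative q).eval t| := by
      rcases dich q K hI hcut le_rfl with h | h
      · exact absurd h hK0
      · exact h
    have hex : ∃ j, ∀ t ∈ I, (1 / 2 : ℝ) ^ j ≤ |(derivative q).eval t| := ⟨K, hKK⟩
    set j := Nat.find hex with hj
    have hjs := Nat.find_spec hex
    rw [← hj] at hjs
    have hjK : j ≤ K := Nat.find_min' hex hKK
    refine ⟨(1 / 2 : ℝ) ^ j, by positivity, Or.inr hjs, ?_⟩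
    intro t ht t' ht'
    have h1 := hlen t ht t' ht'
    rcases Nat.eq_zero_or_pos j with h0 | h0
    · rw [h0, pow_zero]
      refine (hlip t ht t' ht').trans ?_
      have h2 : L * |t - t'| ≤ L * ℓ := by gcongr
      nlinarith
    · obtain ⟨i, hi⟩ : ∃ i, j = i + 1 := ⟨j - 1, by omega⟩
      have hnot := Nat.find_min hex (m := i) (by omega)
      have hle : ∀ t ∈ I, |(derivative q).eval t| ≤ (1 / 2 : ℝ) ^ i := by
        rcases dich q K hI hcut (show i ≤ K by omega) with h | h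
        · exact h
        · exact absurd h hnot
      refine (hmv _ hle t ht t' ht').trans ?_
      have h2 : (1 / 2 : ℝ) ^ i * |t - t'| ≤ (1 / 2 : ℝ) ^ i * ℓ := by gcongr
      have h3 : (1 / 2 : ℝ) ^ j = (1 / 2) * (1 / 2 : ℝ) ^ i := by rw [hi, pow_succ]; ring
      have h4 : 0 ≤ (1 / 2 : ℝ) ^ j * ℓ := by positivity
      rw [h3] at h4 ⊢
      nlinarith

end Pool.Agent.H668.Fol
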