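import Pool.Agent.H668.Fol.Poly

/-!
# Foliated functions: the bound on one segment
-/

set_option autoImplicit false

open MeasureTheory Set Filter Topology ENNReal NNReal Metric

namespace Pool.Agent.H668.Fol

/-- standard intervals of length `2 s` -/
def JJ (s : ℝ) (i : ℤ) : Set ℝ := Ioo ((i : ℝ) * s) (((i : ℝ) + 2) * s)

/-- the scales -/
noncomputable def sc (c δ : ℝ) (k : ℕ) : ℝ := c * (2 ^ k * δ)

theorem exists_std {s a b : ℝ} (hs : 0 < s) (h : b - a < s) : ∃ i : ℤ, Icc a b ⊆ JJ s i := by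
  refine ⟨⌈a / s⌉ - 1, ?_⟩
  have h1 : a / s ≤ ⌈a / s⌉ := Int.le_ceil _
  have h2 : (⌈a / s⌉ : ℝ) < a / s + 1 := Int.ceil_lt_add_one _
  have h3 : a = a / s * s := by field_simp
  intro x hx
  unfold JJ
  push_cast
  constructor
  · have : ((⌈a / s⌉ : ℝ) - 1) * s < a / s * s := by
      apply mul_lt_mul_of_pos_right _ hs
      linarith
    linarith [hx.1]
  · have : a / s * s ≤ (⌈a / s⌉ : ℝ) * s := mul_le_mul_of_nonneg_right h1 hs.le
    have h4 : ((⌈a / s⌉ : ℝ) - 1 + 2) * s = (⌈a / s⌉ : ℝ) * s + s := by ring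
    linarith [hx.2]

open Polynomial in
theorem oneD (q : Polynomial ℝ) {D K K' : ℕ} (hq : q.natDegree ≤ D) {δ L M : ℝ} (hδ : 0 < δ)
    (hδ1 : δ ≤ 1) (hL : 0 ≤ L) (hM : 0 ≤ M) (hK : (1 / 2 : ℝ) ^ K ≤ δ)
    (hK' : 4 * L + 12 < 2 ^ K' * δ) {T : Set ℝ} (hT : T.OrdConnected) (hT01 : T ⊆ Icc 0 1)
    (hlip : ∀ t ∈ T, ∀ t' ∈ T, |q.eval t - q.eval t'| ≤ L * |t - t'| + 2 * δ)
    (G : ℝ → ℝ≥0∞) (hG : Measurable G) (W : ℝ≥0∞)
    (hW : ∀ k < K', ∀ i : ℤ, ENNReal.ofReal (1 / sc (2 * (L + 4 + M)) δ k) *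
      (∫⁻ s in JJ (sc (2 * (L + 4 + M)) δ k) i, G s) *
        volume {t | t ∈ T ∧ q.eval t ∈ JJ (sc (2 * (L + 4 + M)) δ k) i} ≤ W) :
    ∫⁻ t in T, (∫⁻ u in Icc (-(M * δ)) (M * δ), G (q.eval t + u)) ≤
      ((2 * D * (K + 1) + 1 : ℕ) : ℝ≥0∞) *
        (ENNReal.ofReal ((1 + 2 * M) * δ * (4 * (L + 4 + M))) * W) := by
  classical
  apply split _ _ (2 * D * (K + 1)) (cuts q K) T (cuts_card q hq K) hT
  intro I hIT hI hcut
  rcases I.eq_empty_or_nonempty with h0 | ⟨t₀, ht₀⟩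
  · rw [h0]; simp
  have hfin : volume I ≠ ∞ := by
    refine ((measure_mono (hIT.trans hT01)).trans_lt ?_).ne
    rw [Real.volume_Icc]; exact ENNReal.ofReal_lt_top
  set ℓ : ℝ := (volume I).toReal with hℓ
  have hvol : volume I = ENNReal.ofReal ℓ := (ENNReal.ofReal_toReal hfin).symm
  have hℓ0 : 0 ≤ ℓ := ENNReal.toReal_nonneg
  have hℓ1 : ℓ ≤ 1 := by
    have : volume I ≤ 1 := by
      refine (measure_mono (hIT.trans hT01)).trans ?_
      rw [Real.volume_Icc]; simp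
    rw [hℓ]
    exact ENNReal.toReal_le_of_le_ofReal (by norm_num) (by simpa using this)
  have hlen : ∀ t ∈ I, ∀ t' ∈ I, |t - t'| ≤ ℓ := by
    intro t ht t' ht'
    have h1 : uIcc t' t ⊆ I := hI.uIcc_subset ht' ht
    have h2 := measure_mono (μ := volume) h1
    rw [Real.volume_interval, hvol] at h2
    exact (ENNReal.ofReal_le_ofReal_iff hℓ0).1 h2
  have hlip' : ∀ t ∈ I, ∀ t' ∈ I, |q.eval t - q.eval t'| ≤ L * |t - t'| + 2 * δ :=
    fun t ht t' ht' => hlip t (hIT ht) t' (hIT ht')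
  obtain ⟨a, ha, haI, hQ⟩ := level q hδ hδ1 hL hK hI hcut hℓ0 hℓ1 hlen hlip'
  set τ : ℝ := max δ (a * ℓ) with hτ
  have hτδ : δ ≤ τ := le_max_left _ _
  have hτa : a * ℓ ≤ τ := le_max_right _ _
  have hτ0 : 0 < τ := lt_of_lt_of_le hδ hτδ
  have hτL : τ ≤ 2 * L + 4 := by
    rw [hτ]
    apply max_le
    · linarith
    · rcases haI with h | h
      · linarith
      · have h1 := lint_comp_le (φ := fun t => q.eval t) (φ' := fun t => (derivative q).eval t) hI ha
          (fun t _ => q.hasDerivAt t) h (fun _ => 1)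
          (J := Icc (q.eval t₀ - (L + 2)) (q.eval t₀ + (L + 2))) (by
            intro t ht
            have h2 := hlip' t ht t₀ ht₀
            have h3 := hlen t ht t₀ ht₀
            have h4 : L * |t - t₀| ≤ L * 1 := by
              gcongr
              linarith
            have h5 : |q.eval t - q.eval t₀| ≤ L + 2 := by linarith
            rw [abs_le] at h5
            constructor <;> linarith [h5.1, h5.2])
        simp only [lintegral_const, MeasurableSet.univ, Measure.restrict_apply, univ_inter,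
          one_mul] at h1
        rw [hvol, Real.volume_Icc, ← ENNReal.ofReal_mul (by positivity),
          ENNReal.ofReal_le_ofReal_iff (by
            have : 0 ≤ 1 / a := by positivity
            nlinarith)] at h1
        have h6 : q.eval t₀ + (L + 2) - (q.eval t₀ - (L + 2)) = 2 * L + 4 := by ring
        rw [h6, div_mul_eq_mul_div, one_mul, le_div_iff₀ ha] at h1
        linarith
  obtain ⟨n, hn1, hn2⟩ := exists_nat_pow_near (x := τ / δ) (y := (2:ℝ)) (by
    rw [le_div_iff₀ hδ]; linarith) (by norm_num)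
  rw [le_div_iff₀ hδ] at hn1
  rw [div_lt_iff₀ hδ] at hn2
  have hk2 : 2 ^ (n + 1) * δ ≤ 2 * τ := by
    rw [pow_succ]; linarith
  have hkK : n + 1 < K' := by
    have h1 : (2:ℝ) ^ (n + 1) * δ < 2 ^ K' * δ := by linarith
    have h2 : (2:ℝ) ^ (n + 1) < 2 ^ K' := lt_of_mul_lt_mul_right h1 hδ.le
    exact (pow_lt_pow_iff_right₀ (by norm_num : (1:ℝ) < 2)).1 h2
  set s : ℝ := sc (2 * (L + 4 + M)) δ (n + 1) with hs
  have hs' : s = 2 * (L + 4 + M) * (2 ^ (n + 1) * δ) := rfl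
  have hc0 : 0 < 2 * (L + 4 + M) := by linarith
  have hs0 : 0 < s := by rw [hs']; positivity
  set Q : ℝ := (L + 2) * (a * ℓ) + 2 * δ with hQd
  have hsQ : (q.eval t₀ + (Q + M * δ)) - (q.eval t₀ - (Q + M * δ)) < s := by
    have h1 : (L + 2) * (a * ℓ) ≤ (L + 2) * τ := by gcongr
    have h2 : M * δ ≤ M * τ := by gcongr
    have h3 : 2 * (L + 4 + M) * τ < s := by
      rw [hs']
      exact mul_lt_mul_of_pos_left hn2 hc0
    rw [hQd]
    nlinarith
  obtain ⟨i, hi⟩ := exists_std hs0 hsQ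
  have hp := piece (φ := fun t => q.eval t) (φ' := fun t => (derivative q).eval t) (Q := Q)
    (ρ := M * δ) (t₀ := t₀) hI ha hδ (by positivity) q.continuous.measurable hℓ0 hvol
    (fun t _ => q.hasDerivAt t) haI (fun t ht => hQ t ht t₀ ht₀) G hG
  refine hp.trans ?_
  have hIV : ENNReal.ofReal ℓ ≤ volume {t | t ∈ T ∧ q.eval t ∈ JJ s i} := by
    rw [← hvol]
    apply measure_mono
    intro t ht
    refine ⟨hIT ht, hi ?_⟩
    have h1 := hQ t ht t₀ ht₀
    rw [abs_le] at h1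
    have h2 : 0 ≤ M * δ := by positivity
    constructor <;> linarith [h1.1, h1.2]
  calc ENNReal.ofReal (ℓ * (δ + 2 * (M * δ)) / τ) *
        ∫⁻ s in Icc (q.eval t₀ - (Q + M * δ)) (q.eval t₀ + (Q + M * δ)), G s
      ≤ ENNReal.ofReal ((1 + 2 * M) * δ * (4 * (L + 4 + M)) * (1 / s * ℓ)) *
        ∫⁻ s in JJ s i, G s := by
        gcongr
        rw [hs', div_le_iff₀ hτ0]
        have h1 : 0 < 2 ^ (n + 1) * δ := by positivity
        have h2 : (1 + 2 * M) * δ * (4 * (L + 4 + M)) * (1 / (2 * (L + 4 + M) * (2 ^ (n + 1) * δ)) * ℓ)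
            * τ = (1 + 2 * M) * δ * ℓ * (2 * τ / (2 ^ (n + 1) * δ)) := by
          field_simp
          ring
        rw [h2]
        have h3 : 1 ≤ 2 * τ / (2 ^ (n + 1) * δ) := by
          rw [le_div_iff₀ h1]; linarith
        have h4 : 0 ≤ (1 + 2 * M) * δ * ℓ := by positivity
        nlinarith
    _ = ENNReal.ofReal ((1 + 2 * M) * δ * (4 * (L + 4 + M))) * (ENNReal.ofReal (1 / s) *
        (∫⁻ s in JJ s i, G s) * ENNReal.ofReal ℓ) := by
        rw [ENNReal.ofReal_mul (p := (1 + 2 * M) * δ * (4 * (L + 4 + M))) (by positivity),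
          ENNReal.ofReal_mul (p := 1 / s) (by positivity)]
        ring
    _ ≤ ENNReal.ofReal ((1 + 2 * M) * δ * (4 * (L + 4 + M))) * (ENNReal.ofReal (1 / s) *
        (∫⁻ s in JJ s i, G s) * volume {t | t ∈ T ∧ q.eval t ∈ JJ s i}) := by
        gcongr
    _ ≤ _ := by
        gcongr
        exact hW (n + 1) hkK i

end Pool.Agent.H668.Fol
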