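import Pool.Agent.H668.Fol.Line
import Pool.Agent.H668.Fol.Pack
import Pool.Agent.H668.Fol.Sum

/-!
# Foliated functions: the estimate in a chart
-/

set_option autoImplicit false

open MeasureTheory Set Filter Topology ENNReal NNReal Metric

namespace Pool.Agent.H668.Fol

open Pool.Agent.W770.SA Pool.Agent.R251.Lam

variable {d : ℕ} {F : EuclideanSpace ℝ (Fin (d + 1)) → ℝ} {k : ℕ}
  {z₀ : EuclideanSpace ℝ (Fin (d + 1))} {R A L m : ℝ} {i : Fin (d + 1)}

/-- power means -/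
theorem pow_sum_le' {N : ℕ} (a : Fin N → ℝ≥0∞) (d : ℕ) :
    (∑ j, a j) ^ (d + 1) ≤ (N : ℝ≥0∞) ^ d * ∑ j, a j ^ (d + 1) := by
  have h := pow_lint_le (Measure.count : Measure (Fin N)) d (f := a)
    (measurable_of_finite a).aemeasurable
  rw [lintegral_count, lintegral_count, tsum_fintype, tsum_fintype] at h
  have h2 : (Measure.count : Measure (Fin N)) univ = (N : ℝ≥0∞) := by
    rw [Measure.count_univ]
    simp
  rwa [h2] at h

/-- few pieces are close to a given point -/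
theorem few_near {N : ℕ} (hN : 0 < N) {r : ℝ} (hNr2 : (N : ℝ) * r ≤ 2)
    {e z p : EuclideanSpace ℝ (Fin (d + 1))} (he : ‖e‖ = 1) (J : Finset (Fin N))
    (hJ : ∀ j ∈ J, ∃ t : ℝ, (j : ℝ) / N ≤ t ∧ t ≤ ((j : ℝ) + 1) / N ∧ dist (z + t • e) p < r) :
    J.card ≤ 6 := by
  classical
  have hN0 : (0 : ℝ) < N := by exact_mod_cast hN
  rcases J.eq_empty_or_nonempty with h0 | hne
  · rw [h0]; simp
  obtain ⟨j₀, hj₀, hmin⟩ := J.exists_min_image (fun j => j.val) hne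
  have hsub : J.image (fun j => j.val) ⊆ Finset.Icc j₀.val (j₀.val + 5) := by
    intro x hx
    obtain ⟨j, hj, rfl⟩ := Finset.mem_image.1 hx
    rw [Finset.mem_Icc]
    refine ⟨hmin j hj, ?_⟩
    obtain ⟨t, h1, h2, h3⟩ := hJ j hj
    obtain ⟨t', h1', h2', h3'⟩ := hJ j₀ hj₀
    have h4 : |t - t'| < 2 * r := by
      have h5 : dist (z + t • e) (z + t' • e) = |t - t'| := by
        rw [dist_eq_norm, show z + t • e - (z + t' • e) = (t - t') • e by rw [sub_smul]; abel,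
          norm_smul, he, mul_one, Real.norm_eq_abs]
      rw [← h5]
      have h6 := dist_triangle (z + t • e) p (z + t' • e)
      rw [dist_comm p] at h6
      linarith
    have h7 := (abs_lt.1 h4).2
    rw [div_le_iff₀ hN0] at h1
    rw [le_div_iff₀ hN0] at h2'
    have h8 : ((j : ℕ) : ℝ) < (j₀ : ℕ) + 6 := by nlinarith
    have h9 : j.val < j₀.val + 6 := by exact_mod_cast h8
    omega
  have hinj : J.card = (J.image (fun j => j.val)).card :=
    (Finset.card_image_of_injective _ Fin.val_injective).symm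
  rw [hinj]
  refine (Finset.card_le_card hsub).trans ?_
  rw [Nat.card_Icc]
  omega

/-- the whole segment -/
theorem line_sum (h : Chart F k z₀ R A L m i) {δ r : ℝ} (hδ : 0 < δ) (hδ1 : δ ≤ 1)
    (hr : 0 < r) (hrR : r ≤ R) (hrδ : A * (2 * r) ^ (k + 1) ≤ δ) {K K' : ℕ}
    (hK : (1 / 2 : ℝ) ^ K ≤ δ) (hK' : 4 * L + 12 < 2 ^ K' * δ)
    (s : Finset (EuclideanSpace ℝ (Fin (d + 1)))) (hs : ∀ p ∈ s, p ∈ ball z₀ (2 * R))
    (hcov : ∀ x ∈ ball z₀ (2 * R), ∃ p ∈ s, dist x p < r)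
    {N : ℕ} (hN : 0 < N) (hNr : 1 / (N : ℝ) ≤ r) (hNr2 : (N : ℝ) * r ≤ 2)
    {e : EuclideanSpace ℝ (Fin (d + 1))} (he : ‖e‖ = 1) (z : EuclideanSpace ℝ (Fin (d + 1)))
    (G : ℝ → ℝ≥0∞) (hG : Measurable G) (W : EuclideanSpace ℝ (Fin (d + 1)) → ℝ≥0∞)
    (hW : ∀ p ∈ s, ∀ kk < K', ∀ j : ℤ, ENNReal.ofReal (1 / sc (2 * (2 * L + 5)) δ kk) *
      (∫⁻ s in JJ (sc (2 * (2 * L + 5)) δ kk) j, G s) *
        segMax (pc F k p (((j : ℝ) + 1) * sc (2 * (2 * L + 5)) δ kk) r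
          (sc (2 * (2 * L + 5)) δ kk)) e ≤ W p) :
    (∫⁻ t in Icc (0:ℝ) 1, (ball z₀ (2 * R)).indicator
        (fun y => ∫⁻ u in Icc (-(L * δ)) (L * δ), G (F y + u)) (z + t • e)) ^ (d + 1) ≤
      6 * (N : ℝ≥0∞) ^ d * (((2 * k * (K + 1) + 1 : ℕ) : ℝ≥0∞) *
        ENNReal.ofReal ((2 * L + 3) * δ * (4 * (2 * L + 5)))) ^ (d + 1) *
          ∑ p ∈ s, W p ^ (d + 1) := by
  classical
  have hN0 : (0 : ℝ) < N := by exact_mod_cast hN
  set Q : ℝ≥0∞ := ((2 * k * (K + 1) + 1 : ℕ) : ℝ≥0∞) *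
        ENNReal.ofReal ((2 * L + 3) * δ * (4 * (2 * L + 5))) with hQ
  set H : EuclideanSpace ℝ (Fin (d + 1)) → ℝ≥0∞ :=
    fun y => ∫⁻ u in Icc (-(L * δ)) (L * δ), G (F y + u) with hH
  set T : Fin N → Set ℝ := fun j => Icc ((j : ℝ) / N) (((j : ℝ) + 1) / N) ∩ Icc 0 1 with hT
  have hTm : ∀ j, MeasurableSet (T j) := fun j => measurableSet_Icc.inter measurableSet_Icc
  have hsub : Icc (0:ℝ) 1 ⊆ ⋃ j, T j := by
    intro t ht
    rcases eq_or_lt_of_le ht.2 with h1 | h1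
    · refine mem_iUnion.2 ⟨⟨N - 1, by omega⟩, ⟨?_, ?_⟩, ht⟩
      · show ((N - 1 : ℕ) : ℝ) / N ≤ t
        rw [h1, div_le_one hN0]
        exact_mod_cast Nat.sub_le N 1
      · show t ≤ (((N - 1 : ℕ) : ℝ) + 1) / N
        rw [h1, le_div_iff₀ hN0, one_mul]
        have : N ≤ (N - 1) + 1 := by omega
        exact_mod_cast this
    · have h2 : 0 ≤ t * N := mul_nonneg ht.1 hN0.le
      have h3 : t * N < N := by nlinarith
      have h4 : ⌊t * N⌋₊ < N := (Nat.floor_lt h2).2 h3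
      refine mem_iUnion.2 ⟨⟨⌊t * N⌋₊, h4⟩, ⟨?_, ?_⟩, ht⟩
      · show ((⌊t * N⌋₊ : ℕ) : ℝ) / N ≤ t
        rw [div_le_iff₀ hN0]
        exact Nat.floor_le h2
      · show t ≤ (((⌊t * N⌋₊ : ℕ) : ℝ) + 1) / N
        rw [le_div_iff₀ hN0]
        exact (Nat.lt_floor_add_one _).le
  set near : Fin N → EuclideanSpace ℝ (Fin (d + 1)) → Prop := fun j p =>
    ∃ t : ℝ, (j : ℝ) / N ≤ t ∧ t ≤ ((j : ℝ) + 1) / N ∧ dist (z + t • e) p < r with hnear
  have hpiece : ∀ j, (∫⁻ t in T j, (ball z₀ (2 * R)).indicator H (z + t • e)) ^ (d + 1) ≤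
      ∑ p ∈ s, if near j p then (Q * W p) ^ (d + 1) else 0 := by
    intro j
    by_cases hex : ∃ t₀ ∈ T j, z + t₀ • e ∈ ball z₀ (2 * R)
    · obtain ⟨t₀, ht₀, hb⟩ := hex
      obtain ⟨p, hp, hpd⟩ := hcov _ hb
      have hl := line_ball h hδ hδ1 hr hrR hrδ hK hK' (hs p hp) he z G hG (W p) (hW p hp)
      have hTs : T j ⊆ {t : ℝ | t ∈ Icc (0:ℝ) 1 ∧ ‖z + t • e - p‖ < 2 * r} := by
        intro t ht
        refine ⟨ht.2, ?_⟩
        have h1 : |t - t₀| ≤ 1 / N := by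
          have h2 := ht.1
          have h3 := ht₀.1
          have h4 : ((j : ℝ) + 1) / N = (j : ℝ) / N + 1 / N := by rw [add_div]
          rw [h4] at h2 h3
          rw [abs_le]
          constructor <;> linarith [h2.1, h2.2, h3.1, h3.2]
        have h5 : z + t • e - p = (z + t₀ • e - p) + (t - t₀) • e := by rw [sub_smul]; abel
        rw [h5]
        calc ‖(z + t₀ • e - p) + (t - t₀) • e‖ ≤ ‖z + t₀ • e - p‖ + ‖(t - t₀) • e‖ :=
              norm_add_le _ _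
          _ < r + r := by
              rw [← dist_eq_norm, norm_smul, he, mul_one, Real.norm_eq_abs]
              linarith
          _ = 2 * r := by ring
      have hle : ∫⁻ t in T j, (ball z₀ (2 * R)).indicator H (z + t • e) ≤ Q * W p := by
        calc ∫⁻ t in T j, (ball z₀ (2 * R)).indicator H (z + t • e)
            ≤ ∫⁻ t in T j, H (z + t • e) := by
              apply lintegral_mono
              intro t
              exact indicator_le_self _ _ _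
          _ ≤ ∫⁻ t in {t : ℝ | t ∈ Icc (0:ℝ) 1 ∧ ‖z + t • e - p‖ < 2 * r}, H (z + t • e) :=
              lintegral_mono_set hTs
          _ ≤ _ := hl
          _ = Q * W p := by rw [hQ]; ring
      have hnp : near j p := ⟨t₀, ht₀.1.1, ht₀.1.2, hpd⟩
      calc (∫⁻ t in T j, (ball z₀ (2 * R)).indicator H (z + t • e)) ^ (d + 1)
          ≤ (Q * W p) ^ (d + 1) := pow_le_pow_left' hle _
        _ = if near j p then (Q * W p) ^ (d + 1) else 0 := by rw [if_pos hnp]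
        _ ≤ _ := Finset.single_le_sum
            (f := fun p => if near j p then (Q * W p) ^ (d + 1) else (0 : ℝ≥0∞))
            (fun _ _ => zero_le) hp
    · push Not at hex
      have h0 : ∀ t ∈ T j, (ball z₀ (2 * R)).indicator H (z + t • e) = 0 := fun t ht =>
        indicator_of_notMem (hex t ht) _
      rw [setLIntegral_congr_fun (hTm j) h0, lintegral_zero, zero_pow (by omega)]
      exact zero_le
  have hswap : ∑ j, ∑ p ∈ s, (if near j p then (Q * W p) ^ (d + 1) else 0) ≤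
      6 * (Q ^ (d + 1) * ∑ p ∈ s, W p ^ (d + 1)) := by
    rw [Finset.sum_comm, Finset.mul_sum, Finset.mul_sum]
    apply Finset.sum_le_sum
    intro p _
    rw [← Finset.sum_filter, Finset.sum_const, nsmul_eq_mul, mul_pow]
    have h1 : (Finset.univ.filter fun j => near j p).card ≤ 6 :=
      few_near hN hNr2 he _ (fun j hj => (Finset.mem_filter.1 hj).2)
    have h2 : (((Finset.univ.filter fun j => near j p).card : ℕ) : ℝ≥0∞) ≤ 6 := by
      exact_mod_cast h1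
    gcongr
  calc (∫⁻ t in Icc (0:ℝ) 1, (ball z₀ (2 * R)).indicator H (z + t • e)) ^ (d + 1)
      ≤ (∑ j, ∫⁻ t in T j, (ball z₀ (2 * R)).indicator H (z + t • e)) ^ (d + 1) := by
        apply pow_le_pow_left'
        refine (lintegral_mono_set hsub).trans ((lintegral_iUnion_le _ _).trans ?_)
        rw [tsum_fintype]
    _ ≤ (N : ℝ≥0∞) ^ d * ∑ j, (∫⁻ t in T j, (ball z₀ (2 * R)).indicator H (z + t • e)) ^ (d + 1) :=
        pow_sum_le' _ d
    _ ≤ (N : ℝ≥0∞) ^ d * (6 * (Q ^ (d + 1) * ∑ p ∈ s, W p ^ (d + 1))) := by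
        gcongr
        exact (Finset.sum_le_sum fun j _ => hpiece j).trans hswap
    _ = _ := by ring

/-- the constant of the semialgebraic estimate -/
noncomputable def cD (d k : ℕ) : ℝ :=
  2 ^ (d + 1) * (cst1 (d + 1) * ((2 + 2 * k : ℕ) : ℝ) ^ (exp1 (d + 1)))

theorem cD_nonneg (d k : ℕ) : 0 ≤ cD d k := by
  have := cst1_pos (n := d + 1) (by omega)
  unfold cD
  positivity

/-- the constant of the estimate in a chart -/
noncomputable def Gam (d k K₂ : ℕ) (m : ℝ) : ℝ≥0∞ :=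
  ENNReal.ofReal (6 ^ (d + 1)) * sig (d + 1) univ +
    K₂ * ENNReal.ofReal (cD d k * (6 ^ (d + 1) * 8 ^ (d + 1) / m))

/-- all the pieces belonging to one slab -/
theorem seg_pieces (h : Chart F k z₀ R A L m i) {δ r : ℝ} (hδ : 0 < δ) (hδ1 : δ ≤ 1)
    (hr : 0 < r) (hrR : r ≤ R) (hrδ : A * (2 * r) ^ (k + 1) ≤ δ) {K₂ : ℕ}
    (hK₂ : (1 / 2 : ℝ) ^ K₂ ≤ r * δ)
    (s : Finset (EuclideanSpace ℝ (Fin (d + 1)))) (hs : ∀ p ∈ s, p ∈ ball z₀ (2 * R))
    (hsep : ∀ p ∈ s, ∀ q ∈ s, p ≠ q → r ≤ dist p q) (c : ℝ) {η : ℝ} (hη : δ ≤ η) :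
    ∑ p ∈ s, ∫⁻ e, segMax (pc F k p c r η) (e : EuclideanSpace ℝ (Fin (d + 1))) ^ (d + 1)
      ∂(sig (d + 1)) ≤ ENNReal.ofReal η * Gam d k K₂ m := by
  have hR := h.R0
  have hR1 := h.R1
  have hm := h.m0
  have hη0 : 0 < η := lt_of_lt_of_le hδ hη
  have hcard : (s.card : ℝ) * ((1 / 2 : ℝ) ^ K₂) ^ (d + 1) ≤ 6 ^ (d + 1) * η := by
    have h1 := card_pack s hr (by positivity : 0 ≤ 2 * R) z₀ (fun p hp => (mem_ball.1 (hs p hp)).le)
      hsep
    have h2 : (2 * R + r) ^ (d + 1) ≤ 3 ^ (d + 1) := by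
      gcongr
      linarith
    have h3 : (s.card : ℝ) * r ^ (d + 1) ≤ 6 ^ (d + 1) := by
      have h4 : (s.card : ℝ) * r ^ (d + 1) = 2 ^ (d + 1) * ((s.card : ℝ) * (r / 2) ^ (d + 1)) := by
        rw [div_pow]
        field_simp
      rw [h4]
      calc 2 ^ (d + 1) * ((s.card : ℝ) * (r / 2) ^ (d + 1)) ≤ 2 ^ (d + 1) * 3 ^ (d + 1) := by
            gcongr
            exact h1.trans h2
        _ = 6 ^ (d + 1) := by rw [← mul_pow]; norm_num
    have h5 : ((1 / 2 : ℝ) ^ K₂) ^ (d + 1) ≤ r ^ (d + 1) * η := by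
      calc ((1 / 2 : ℝ) ^ K₂) ^ (d + 1) ≤ (r * δ) ^ (d + 1) := by gcongr
        _ = r ^ (d + 1) * δ ^ (d + 1) := mul_pow _ _ _
        _ ≤ r ^ (d + 1) * η := by
            gcongr
            calc δ ^ (d + 1) = δ ^ d * δ := pow_succ _ _
              _ ≤ 1 * δ := by gcongr; exact pow_le_one₀ hδ.le hδ1
              _ = δ := one_mul _
              _ ≤ η := hη
    calc (s.card : ℝ) * ((1 / 2 : ℝ) ^ K₂) ^ (d + 1) ≤ s.card * (r ^ (d + 1) * η) := by gcongr
      _ = (s.card * r ^ (d + 1)) * η := by ring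
      _ ≤ _ := by gcongr
  have hone : ∀ p ∈ s, ∫⁻ e, segMax (pc F k p c r η)
      (e : EuclideanSpace ℝ (Fin (d + 1))) ^ (d + 1) ∂(sig (d + 1)) ≤
      ENNReal.ofReal (((1/2:ℝ) ^ K₂) ^ (d + 1)) * sig (d + 1) univ +
      K₂ * (ENNReal.ofReal (cD d k) * volume (pc F k p c r η)) := by
    intro p _
    exact lintegral_segMax_pow (n := d + 1) (by omega) (by omega)
      (basic_complexity (by omega) (pc_basic p hr)) K₂
  calc ∑ p ∈ s, ∫⁻ e, segMax (pc F k p c r η) (e : EuclideanSpace ℝ (Fin (d + 1))) ^ (d + 1)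
        ∂(sig (d + 1))
      ≤ ∑ p ∈ s, (ENNReal.ofReal (((1/2:ℝ) ^ K₂) ^ (d + 1)) * sig (d + 1) univ +
      K₂ * (ENNReal.ofReal (cD d k) * volume (pc F k p c r η))) := Finset.sum_le_sum hone
    _ = ENNReal.ofReal (s.card * ((1/2:ℝ) ^ K₂) ^ (d + 1)) * sig (d + 1) univ +
        K₂ * (ENNReal.ofReal (cD d k) * ∑ p ∈ s, volume (pc F k p c r η)) := by
        rw [Finset.sum_add_distrib, Finset.sum_const, nsmul_eq_mul, ← Finset.mul_sum,
          ← Finset.mul_sum, ENNReal.ofReal_mul (by positivity), ENNReal.ofReal_natCast, mul_assoc]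
    _ ≤ ENNReal.ofReal (6 ^ (d + 1) * η) * sig (d + 1) univ +
        K₂ * (ENNReal.ofReal (cD d k) *
          ENNReal.ofReal (6 ^ (d + 1) * 8 ^ (d + 1) / m * η)) := by
        gcongr
        exact vol_pieces h hδ hr hrR hrδ s hs hsep c hη
    _ = ENNReal.ofReal η * Gam d k K₂ m := by
        unfold Gam
        have := cD_nonneg d k
        rw [ENNReal.ofReal_mul (p := 6 ^ (d + 1)) (by positivity),
          ENNReal.ofReal_mul (p := 6 ^ (d + 1) * 8 ^ (d + 1) / m) (by positivity),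
          ENNReal.ofReal_mul (p := cD d k) this]
        ring

end Pool.Agent.H668.Fol
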